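import Mathlib

/-!
# From finite volume strong convexity to strict concavity with a modulus (pure analysis)
-/

set_option autoImplicit false

namespace Pool.Agent.Helper99.PT

open Filter

/-- `(log m)² ≤ ε m^(1/6)` for large `m` -/
theorem log_sq_le (ε : ℝ) (hε : 0 < ε) : ∃ m₁ : ℕ, 2 ≤ m₁ ∧ ∀ m : ℕ, m₁ ≤ m →
    (Real.log m) ^ 2 ≤ ε * (m : ℝ) ^ ((1 : ℝ) / 6) := by
  have h1 : (fun x : ℝ => Real.log x) =o[atTop] (fun x : ℝ => x ^ ((1 : ℝ) / 12)) :=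
    isLittleO_log_rpow_atTop (by norm_num)
  have h2 := h1.bound (Real.sqrt_pos.2 hε)
  have h3 := tendsto_natCast_atTop_atTop (R := ℝ) |>.eventually h2
  obtain ⟨N, hN⟩ := Filter.eventually_atTop.1 h3
  refine ⟨max N 2, le_max_right _ _, fun m hm => ?_⟩
  have h4 := hN m ((le_max_left _ _).trans hm)
  have hm2 : (2 : ℝ) ≤ m := by exact_mod_cast (le_max_right _ _).trans hm
  have hl : 0 ≤ Real.log m := Real.log_nonneg (by linarith)
  rw [Real.norm_eq_abs, Real.norm_eq_abs, abs_of_nonneg hl,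
    abs_of_nonneg (Real.rpow_nonneg (by linarith) _)] at h4
  calc (Real.log m) ^ 2 ≤ (Real.sqrt ε * (m : ℝ) ^ ((1 : ℝ) / 12)) ^ 2 := by
        exact pow_le_pow_left₀ hl h4 2
    _ = ε * (m : ℝ) ^ ((1 : ℝ) / 6) := by
        rw [mul_pow, Real.sq_sqrt hε.le, ← Real.rpow_natCast, ← Real.rpow_mul (by linarith)]
        norm_num

/-- the gap in terms of `m` -/
theorem gap_m (ℓ : ℕ → ℝ → ℝ) (L : ℝ → ℝ) (α β K c : ℝ) (m₀ : ℕ) (hm₀ : 2 ≤ m₀)
    (h1 : ∀ m : ℕ, 2 ≤ m → ∀ s, α ≤ s → s ≤ β → |L s + ℓ m s / m| ≤ K * (Real.log m) ^ 2 / m)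
    (h2 : ∀ m : ℕ, m₀ ≤ m → ∀ u v t : ℝ, α ≤ u → u ≤ β → α ≤ v → v ≤ β → 0 ≤ t → t ≤ 1 →
      ℓ m (t * u + (1 - t) * v) + c * Real.sqrt m / 2 * (t * (1 - t)) * (u - v) ^ 2 ≤
        t * ℓ m u + (1 - t) * ℓ m v)
    (m : ℕ) (hm : m₀ ≤ m) (u v t : ℝ) (hu : α ≤ u) (hu' : u ≤ β) (hv : α ≤ v) (hv' : v ≤ β)
    (ht : 0 ≤ t) (ht' : t ≤ 1) :
    c * Real.sqrt m / 2 * (t * (1 - t)) * (u - v) ^ 2 - 2 * K * (Real.log m) ^ 2 ≤
      m * (L (t * u + (1 - t) * v) - (t * L u + (1 - t) * L v)) := by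
  have hm2 : 2 ≤ m := hm₀.trans hm
  have hmp : (0 : ℝ) < m := by exact_mod_cast (by omega : 0 < m)
  have hw : α ≤ t * u + (1 - t) * v := by nlinarith
  have hw' : t * u + (1 - t) * v ≤ β := by nlinarith
  have key : ∀ s, α ≤ s → s ≤ β → |m * L s + ℓ m s| ≤ K * (Real.log m) ^ 2 := by
    intro s hs hs'
    have h3 := h1 m hm2 s hs hs'
    have h4 : m * L s + ℓ m s = m * (L s + ℓ m s / m) := by field_simp
    rw [h4, abs_mul, abs_of_pos hmp]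
    calc (m : ℝ) * |L s + ℓ m s / m| ≤ m * (K * (Real.log m) ^ 2 / m) :=
          mul_le_mul_of_nonneg_left h3 hmp.le
      _ = K * (Real.log m) ^ 2 := by field_simp
  have k1 := abs_le.1 (key u hu hu')
  have k2 := abs_le.1 (key v hv hv')
  have k3 := abs_le.1 (key _ hw hw')
  have h3 := h2 m hm u v t hu hu' hv hv' ht ht'
  have ht1 : 0 ≤ 1 - t := by linarith
  have e1 := mul_le_mul_of_nonneg_left k1.2 ht
  have e2 := mul_le_mul_of_nonneg_left k2.2 ht1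
  nlinarith [k3.1, k3.2]

/-- strict concavity -/
theorem conc_strict (ℓ : ℕ → ℝ → ℝ) (L : ℝ → ℝ) (α β K c : ℝ) (hK : 0 ≤ K) (hc : 0 < c)
    (m₀ : ℕ) (hm₀ : 2 ≤ m₀)
    (h1 : ∀ m : ℕ, 2 ≤ m → ∀ s, α ≤ s → s ≤ β → |L s + ℓ m s / m| ≤ K * (Real.log m) ^ 2 / m)
    (h2 : ∀ m : ℕ, m₀ ≤ m → ∀ u v t : ℝ, α ≤ u → u ≤ β → α ≤ v → v ≤ β → 0 ≤ t → t ≤ 1 →
      ℓ m (t * u + (1 - t) * v) + c * Real.sqrt m / 2 * (t * (1 - t)) * (u - v) ^ 2 ≤
        t * ℓ m u + (1 - t) * ℓ m v)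
    (u v t : ℝ) (hu : α ≤ u) (hu' : u ≤ β) (hv : α ≤ v) (hv' : v ≤ β) (huv : u ≠ v)
    (ht : 0 < t) (ht' : t < 1) :
    t * L u + (1 - t) * L v < L (t * u + (1 - t) * v) := by
  have hd : 0 < (t * (1 - t)) * (u - v) ^ 2 := by
    have : 0 < (u - v) ^ 2 := by
      have := sub_ne_zero.2 huv
      positivity
    have h3 : 0 < t * (1 - t) := mul_pos ht (by linarith)
    positivity
  set d := (t * (1 - t)) * (u - v) ^ 2 with hdd
  obtain ⟨m₁, hm₁, hlog⟩ := log_sq_le (c * d / (8 * (K + 1))) (by positivity)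
  set m := max m₀ m₁ with hm
  have hmm : m₀ ≤ m := le_max_left _ _
  have hmm1 : m₁ ≤ m := le_max_right _ _
  have hm2 : 2 ≤ m := hm₀.trans hmm
  have hmr : (1 : ℝ) ≤ m := by exact_mod_cast (by omega : 1 ≤ m)
  have h3 := gap_m ℓ L α β K c m₀ hm₀ h1 h2 m hmm u v t hu hu' hv hv' ht.le ht'.le
  have h4 := hlog m hmm1
  have h5 : (m : ℝ) ^ ((1 : ℝ) / 6) ≤ Real.sqrt m := by
    rw [Real.sqrt_eq_rpow]
    exact Real.rpow_le_rpow_of_exponent_le hmr (by norm_num)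
  have hs : 0 < Real.sqrt m := Real.sqrt_pos.2 (by linarith)
  have h6 : 2 * K * (Real.log m) ^ 2 ≤ c * Real.sqrt m / 4 * d := by
    have h7 : (Real.log m) ^ 2 ≤ c * d / (8 * (K + 1)) * Real.sqrt m :=
      h4.trans (mul_le_mul_of_nonneg_left h5 (by positivity))
    calc 2 * K * (Real.log m) ^ 2 ≤ 2 * (K + 1) * (c * d / (8 * (K + 1)) * Real.sqrt m) := by
          apply mul_le_mul _ h7 (sq_nonneg _) (by positivity)
          linarith
      _ = c * Real.sqrt m / 4 * d := by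
          field_simp
          ring
  have h7 : 0 < c * Real.sqrt m / 4 * d := by positivity
  have h8 : 0 < (m : ℝ) * (L (t * u + (1 - t) * v) - (t * L u + (1 - t) * L v)) := by
    have e : c * Real.sqrt m / 2 * (t * (1 - t)) * (u - v) ^ 2 = c * Real.sqrt m / 2 * d := by
      rw [hdd]; ring
    rw [e] at h3
    nlinarith
  have h9 : 0 < L (t * u + (1 - t) * v) - (t * L u + (1 - t) * L v) := by
    by_contra h10
    push_neg at h10
    nlinarith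
  linarith

/-- the modulus at the midpoint -/
theorem conc_modulus (ℓ : ℕ → ℝ → ℝ) (L : ℝ → ℝ) (α β K c : ℝ) (hαβ : α ≤ β) (hK : 0 ≤ K) (hc : 0 < c)
    (m₀ : ℕ) (hm₀ : 2 ≤ m₀)
    (h1 : ∀ m : ℕ, 2 ≤ m → ∀ s, α ≤ s → s ≤ β → |L s + ℓ m s / m| ≤ K * (Real.log m) ^ 2 / m)
    (h2 : ∀ m : ℕ, m₀ ≤ m → ∀ u v t : ℝ, α ≤ u → u ≤ β → α ≤ v → v ≤ β → 0 ≤ t → t ≤ 1 →
      ℓ m (t * u + (1 - t) * v) + c * Real.sqrt m / 2 * (t * (1 - t)) * (u - v) ^ 2 ≤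
        t * ℓ m u + (1 - t) * ℓ m v) :
    ∃ c' : ℝ, 0 < c' ∧ ∀ u v : ℝ, α ≤ u → u ≤ β → α ≤ v → v ≤ β →
      (L u + L v) / 2 + c' * |u - v| ^ 5 ≤ L ((u + v) / 2) := by
  obtain ⟨m₁, hm₁, hlog⟩ := log_sq_le (c / (32 * (K + 1))) (by positivity)
  set D := β - α + 1 with hD
  have hD1 : 1 ≤ D := by linarith
  set N : ℝ := ((max m₀ m₁ : ℕ) : ℝ) with hN
  have hN2 : 2 ≤ N := by
    have : 2 ≤ max m₀ m₁ := hm₀.trans (le_max_left _ _)
    rw [hN]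
    exact_mod_cast this
  set A : ℝ := N * D ^ 6 with hA
  have hD6 : 1 ≤ D ^ 6 := one_le_pow₀ hD1
  have hA1 : 1 ≤ A := by nlinarith
  have hA0 : 0 < A := by linarith
  refine ⟨c / (32 * Real.sqrt (2 * A)), by positivity, fun u v hu hu' hv hv' => ?_⟩
  rcases eq_or_ne u v with huv | huv
  · subst huv
    simp
  have hΔ : 0 < |u - v| := abs_pos.2 (sub_ne_zero.2 huv)
  set Δ := |u - v| with hΔd
  have hΔD : Δ ≤ D := by
    rw [hΔd, abs_le]
    constructor <;> linarith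
  have hΔ6 : 0 < Δ ^ 6 := by positivity
  set m := ⌈A / Δ ^ 6⌉₊ with hm
  have hmA : A / Δ ^ 6 ≤ m := Nat.le_ceil _
  have hmN : N ≤ m := by
    refine le_trans ?_ hmA
    rw [le_div_iff₀ hΔ6, hA]
    have : Δ ^ 6 ≤ D ^ 6 := pow_le_pow_left₀ hΔ.le hΔD 6
    nlinarith
  have hmN' : max m₀ m₁ ≤ m := by
    rw [hN] at hmN
    exact_mod_cast hmN
  have hmu : (m : ℝ) ≤ 2 * A / Δ ^ 6 := by
    have h3 : (m : ℝ) < A / Δ ^ 6 + 1 := Nat.ceil_lt_add_one (by positivity)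
    have h4 : 1 ≤ A / Δ ^ 6 := by
      rw [le_div_iff₀ hΔ6, one_mul, hA]
      have : Δ ^ 6 ≤ D ^ 6 := pow_le_pow_left₀ hΔ.le hΔD 6
      nlinarith
    have h5 : 2 * A / Δ ^ 6 = A / Δ ^ 6 + A / Δ ^ 6 := by ring
    linarith
  have hm0 : (0 : ℝ) < m := by linarith
  have hgap := gap_m ℓ L α β K c m₀ hm₀ h1 h2 m ((le_max_left _ _).trans hmN') u v (1 / 2) hu hu'
    hv hv' (by norm_num) (by norm_num)
  have e1 : (1 / 2 : ℝ) * u + (1 - 1 / 2) * v = (u + v) / 2 := by ring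
  have e2 : (1 / 2 : ℝ) * L u + (1 - 1 / 2) * L v = (L u + L v) / 2 := by ring
  rw [e1, e2] at hgap
  have e3 : (u - v) ^ 2 = Δ ^ 2 := (sq_abs _).symm
  rw [e3] at hgap
  have hl := hlog m ((le_max_right _ _).trans hmN')
  -- `m^(1/6) ≤ √m Δ²`
  have hs : 0 < Real.sqrt m := Real.sqrt_pos.2 hm0
  have key : (m : ℝ) ^ ((1 : ℝ) / 6) ≤ Real.sqrt m * Δ ^ 2 := by
    have h3 : (1 : ℝ) ≤ (m : ℝ) ^ ((1 : ℝ) / 3) * Δ ^ 2 := by
      have h4 : (1 : ℝ) ≤ m * Δ ^ 6 := by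
        rw [div_le_iff₀ hΔ6] at hmA
        linarith
      have h5 : ((m : ℝ) * Δ ^ 6) ^ ((1 : ℝ) / 3) = (m : ℝ) ^ ((1 : ℝ) / 3) * Δ ^ 2 := by
        rw [Real.mul_rpow hm0.le hΔ6.le, ← Real.rpow_natCast, ← Real.rpow_natCast,
          ← Real.rpow_mul hΔ.le]
        norm_num
      rw [← h5]
      exact Real.one_le_rpow h4 (by norm_num)
    have h6 : Real.sqrt m = (m : ℝ) ^ ((1 : ℝ) / 6) * (m : ℝ) ^ ((1 : ℝ) / 3) := by
      rw [← Real.rpow_add hm0, Real.sqrt_eq_rpow]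
      norm_num
    rw [h6, mul_assoc]
    have h7 : 0 ≤ (m : ℝ) ^ ((1 : ℝ) / 6) := Real.rpow_nonneg hm0.le _
    nlinarith
  have h6 : 2 * K * (Real.log m) ^ 2 ≤ c * Real.sqrt m / 16 * Δ ^ 2 := by
    have h7 : (Real.log m) ^ 2 ≤ c / (32 * (K + 1)) * (Real.sqrt m * Δ ^ 2) :=
      hl.trans (mul_le_mul_of_nonneg_left key (by positivity))
    calc 2 * K * (Real.log m) ^ 2 ≤ 2 * (K + 1) * (c / (32 * (K + 1)) * (Real.sqrt m * Δ ^ 2)) := by
          apply mul_le_mul _ h7 (sq_nonneg _) (by positivity)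
          linarith
      _ = c * Real.sqrt m / 16 * Δ ^ 2 := by
          field_simp
          ring
  have h8 : c * Real.sqrt m / 16 * Δ ^ 2 ≤ m * (L ((u + v) / 2) - (L u + L v) / 2) := by
    nlinarith
  have h9 : c * Δ ^ 2 / (16 * Real.sqrt m) ≤ L ((u + v) / 2) - (L u + L v) / 2 := by
    have hms : (m : ℝ) = Real.sqrt m * Real.sqrt m := (Real.mul_self_sqrt hm0.le).symm
    rw [div_le_iff₀ (by positivity)]
    have h10 : c * Real.sqrt m / 16 * Δ ^ 2 ≤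
        Real.sqrt m * (Real.sqrt m * (L ((u + v) / 2) - (L u + L v) / 2)) := by
      rw [← mul_assoc, ← hms]
      exact h8
    have h11 : Real.sqrt m * (c * Δ ^ 2 / 16) ≤
        Real.sqrt m * (Real.sqrt m * (L ((u + v) / 2) - (L u + L v) / 2)) := by
      calc Real.sqrt m * (c * Δ ^ 2 / 16) = c * Real.sqrt m / 16 * Δ ^ 2 := by ring
        _ ≤ _ := h10
    have h12 := le_of_mul_le_mul_left h11 hs
    linarith
  have h10 : Real.sqrt m ≤ Real.sqrt (2 * A) / Δ ^ 3 := by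
    have h11 : Real.sqrt (2 * A) / Δ ^ 3 = Real.sqrt (2 * A / Δ ^ 6) := by
      rw [Real.sqrt_div (by positivity), show Δ ^ 6 = (Δ ^ 3) ^ 2 by ring,
        Real.sqrt_sq (by positivity)]
    rw [h11]
    exact Real.sqrt_le_sqrt hmu
  have h13 : c / (32 * Real.sqrt (2 * A)) * Δ ^ 5 ≤ c * Δ ^ 2 / (16 * Real.sqrt m) := by
    have hA2 : 0 < Real.sqrt (2 * A) := Real.sqrt_pos.2 (by positivity)
    rw [le_div_iff₀ (by positivity)]
    calc c / (32 * Real.sqrt (2 * A)) * Δ ^ 5 * (16 * Real.sqrt m)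
        ≤ c / (32 * Real.sqrt (2 * A)) * Δ ^ 5 * (16 * (Real.sqrt (2 * A) / Δ ^ 3)) := by
          apply mul_le_mul_of_nonneg_left _ (by positivity)
          linarith
      _ = c * Δ ^ 2 / 2 := by
          field_simp
          ring
      _ ≤ c * Δ ^ 2 := by
          have : 0 < c * Δ ^ 2 := by positivity
          linarith
  linarith

/-- concavity at all points and a modulus at midpoints give a modulus at all points -/
theorem conc_all (L : ℝ → ℝ) (α β c : ℝ) (hc : 0 ≤ c)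
    (h1 : ∀ u v t : ℝ, α ≤ u → u ≤ β → α ≤ v → v ≤ β → 0 ≤ t → t ≤ 1 →
      t * L u + (1 - t) * L v ≤ L (t * u + (1 - t) * v))
    (h2 : ∀ u v : ℝ, α ≤ u → u ≤ β → α ≤ v → v ≤ β →
      (L u + L v) / 2 + c * |u - v| ^ 5 ≤ L ((u + v) / 2))
    (u v t : ℝ) (hu : α ≤ u) (hu' : u ≤ β) (hv : α ≤ v) (hv' : v ≤ β) (ht : 0 ≤ t) (ht' : t ≤ 1) :
    t * L u + (1 - t) * L v + c * (t * (1 - t)) * |u - v| ^ 5 ≤ L (t * u + (1 - t) * v) := by
  -- the case `t ≤ 1/2`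
  have half : ∀ u v t : ℝ, α ≤ u → u ≤ β → α ≤ v → v ≤ β → 0 ≤ t → t ≤ 1 / 2 →
      t * L u + (1 - t) * L v + c * (t * (1 - t)) * |u - v| ^ 5 ≤ L (t * u + (1 - t) * v) := by
    intro u v t hu hu' hv hv' ht ht'
    have h3 := h2 u v hu hu' hv hv'
    have h4 := h1 ((u + v) / 2) v (2 * t) (by linarith) (by linarith) hv hv' (by linarith)
      (by linarith)
    have e1 : 2 * t * ((u + v) / 2) + (1 - 2 * t) * v = t * u + (1 - t) * v := by ring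
    rw [e1] at h4
    refine le_trans ?_ h4
    have h5 := mul_le_mul_of_nonneg_left h3 (by linarith : (0 : ℝ) ≤ 2 * t)
    have h6 : 0 ≤ c * |u - v| ^ 5 := by positivity
    have h7 : c * (t * (1 - t)) * |u - v| ^ 5 ≤ 2 * t * (c * |u - v| ^ 5) := by
      have h8 : t * (1 - t) ≤ 2 * t := by nlinarith
      calc c * (t * (1 - t)) * |u - v| ^ 5 = (t * (1 - t)) * (c * |u - v| ^ 5) := by ring
        _ ≤ 2 * t * (c * |u - v| ^ 5) := mul_le_mul_of_nonneg_right h8 h6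
    nlinarith
  rcases le_total t (1 / 2) with h | h
  · exact half u v t hu hu' hv hv' ht h
  · have h3 := half v u (1 - t) hv hv' hu hu' (by linarith) (by linarith)
    have e1 : (1 - t) * v + (1 - (1 - t)) * u = t * u + (1 - t) * v := by ring
    have e2 : |v - u| = |u - v| := abs_sub_comm v u
    rw [e1, e2] at h3
    calc t * L u + (1 - t) * L v + c * (t * (1 - t)) * |u - v| ^ 5 =
        (1 - t) * L v + (1 - (1 - t)) * L u + c * ((1 - t) * (1 - (1 - t))) * |u - v| ^ 5 := by ring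
      _ ≤ _ := h3

end Pool.Agent.Helper99.PT
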