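import Pool.Agent.Helper2.QP.Words2

/-!
# Area fluctuations and ratio limits for area-weighted polygons: definitions

Local features of self-avoiding polygons (flippable corners, bumps, bumpable edges) and the list of
local surgeries used in the weak pattern theorem.
-/

set_option autoImplicit false

namespace Pool.Agent.Helper99.PT

open Pool.Agent.Helper2.QP

/-- Positions `i` of flippable corners: the two letters at `i`, `i + 1` can be exchanged. -/
def Fl (l : List (Fin 4)) : Finset ℕ :=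
  (Finset.range (l.length - 1)).filter (fun i => vtx l i + stp (l.getD (i + 1) 0) ∉ verts 0 l)

/-- Positions of bumps: a step, another step, and the reverse of the first one. -/
def Bm (l : List (Fin 4)) : Finset ℕ :=
  (Finset.range (l.length - 2)).filter (fun i => l.getD (i + 2) 0 = opp (l.getD i 0))

/-- Places where a bump can be put: an edge and a direction. -/
def Eb (l : List (Fin 4)) : Finset (ℕ × Fin 4) :=
  (Finset.range l.length ×ˢ Finset.univ).filter (fun x =>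
    vtx l x.1 + stp x.2 ∉ verts 0 l ∧ vtx l x.1 + stp (l.getD x.1 0) + stp x.2 ∉ verts 0 l)

/-- Exchange of the letters at `i`, `i + 1`. -/
def swp (l : List (Fin 4)) (i : ℕ) : List (Fin 4) :=
  l.take i ++ [l.getD (i + 1) 0, l.getD i 0] ++ l.drop (i + 2)

/-- Insertion of a bump. -/
def bump (l : List (Fin 4)) (i : ℕ) (r : Fin 4) : List (Fin 4) :=
  l.take i ++ [r, l.getD i 0, opp r] ++ l.drop (i + 1)

/-- Removal of a bump. -/
def unbump (l : List (Fin 4)) (i : ℕ) : List (Fin 4) :=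
  l.take i ++ [l.getD (i + 1) 0] ++ l.drop (i + 3)

/-- The number of rows that the polygon visits. -/
def rows (l : List (Fin 4)) : ℕ := ((verts 0 l).map Prod.snd).toFinset.card

/-- The local surgeries: a subword and the word which replaces it. -/
def pats0 : List (List (Fin 4) × List (Fin 4)) :=
  [([1], [0,0,3,0,1,1,2,2,2]), ([1], [0,0,0,1,1,2,3,2,2]),
   ([2], [1,0,0,1,2,2,2,3,3]), ([2], [3,0,0,3,2,2,2,1,1]),
   ([2,1], [1,0,0,0,1,2,2,2,2,3]), ([2,3], [3,0,0,0,3,2,2,2,2,1])]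

/-- The local surgeries, in both directions. -/
def pats : List (List (Fin 4) × List (Fin 4)) :=
  pats0 ++ pats0.map (fun x => (rev x.1, rev x.2))

/-- The surgery `X ++ o ++ Y ↦ X ++ w ++ Y` is allowed and creates all three features. -/
def Good (X o w Y : List (Fin 4)) : Prop :=
  IsSAP (X ++ w ++ Y) ∧ (∃ k < 10, X.length + k ∈ Fl (X ++ w ++ Y)) ∧
    (∃ k < 10, X.length + k ∈ Bm (X ++ w ++ Y)) ∧
    (∃ k < 10, ∃ r, (X.length + k, r) ∈ Eb (X ++ w ++ Y)) ∧
    ∀ v ∈ verts 0 (X ++ o ++ Y), ∃ v' ∈ verts 0 (X ++ w ++ Y), v'.2 = v.2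

/-- The sum of a local function over the positions of the word: the function sees the occupied sites
relative to the current vertex and the next three letters. -/
noncomputable def feat (φ : (V → Prop) → List (Fin 4) → ℝ) (l : List (Fin 4)) : ℝ :=
  ∑ i ∈ Finset.range l.length, φ (fun d => vtx l i + d ∈ verts 0 l) ((l.drop i).take 3)

/-- `φ` depends on the occupied sites in the box of radius `2` only. -/
def Local (φ : (V → Prop) → List (Fin 4) → ℝ) : Prop :=
  ∀ o o' : V → Prop, (∀ d : V, |d.1| ≤ 2 → |d.2| ≤ 2 → (o d ↔ o' d)) → ∀ s, φ o s = φ o' s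

/-- `l` contains the word `o` starting at the site `p`. -/
def Has (l o : List (Fin 4)) (p : V) : Prop := ∃ X Y, l = X ++ o ++ Y ∧ dsp X = p

/-- All vertices in row `j` have first coordinate at most `x`. -/
def Rt (l : List (Fin 4)) (j x : ℤ) : Prop := ∀ v ∈ verts 0 l, v.2 = j → v.1 ≤ x

/-- The six local configurations on the right side of the polygon, in the rows `y, ..., y + 4`. -/
def Cfg6 (l : List (Fin 4)) (y M j : ℤ) : Prop :=
  (y + 1 ≤ j ∧ j ≤ y + 3 ∧ (Has l [1] (M, j) ∨ Has l [3] (M, j + 1)) ∧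
    Rt l (j - 1) M ∧ Rt l j M ∧ Rt l (j + 1) M) ∨
  (y + 1 ≤ j ∧ j ≤ y + 3 ∧ (Has l [1] (M, j - 1) ∨ Has l [3] (M, j)) ∧
    Rt l (j - 1) M ∧ Rt l j M ∧ Rt l (j + 1) M) ∨
  (y ≤ j ∧ j ≤ y + 2 ∧ (Has l [2] (M, j) ∨ Has l [0] (M - 1, j)) ∧
    Rt l j M ∧ Rt l (j + 1) (M - 2) ∧ Rt l (j + 2) (M - 2)) ∨
  (y + 2 ≤ j ∧ j ≤ y + 4 ∧ (Has l [2] (M, j) ∨ Has l [0] (M - 1, j)) ∧
    Rt l j M ∧ Rt l (j - 1) (M - 2) ∧ Rt l (j - 2) (M - 2)) ∨
  (y ≤ j ∧ j ≤ y + 2 ∧ (Has l [2, 1] (M, j) ∨ Has l [3, 0] (M - 1, j + 1)) ∧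
    Rt l j M ∧ Rt l (j + 1) (M - 1) ∧ Rt l (j + 2) (M - 2)) ∨
  (y + 2 ≤ j ∧ j ≤ y + 4 ∧ (Has l [2, 3] (M, j) ∨ Has l [1, 0] (M - 1, j - 1)) ∧
    Rt l j M ∧ Rt l (j - 1) (M - 1) ∧ Rt l (j - 2) (M - 2))

/-- The places where a surgery may have produced `l'`. -/
noncomputable def dec (l' : List (Fin 4)) : Finset (ℕ × (List (Fin 4) × List (Fin 4))) :=
  open Classical in
  (Finset.range (l'.length + 1) ×ˢ pats.toFinset).filter (fun x =>
    l'.take x.1 ++ x.2.2 ++ l'.drop (x.1 + x.2.2.length) = l' ∧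
      IsSAP (l'.take x.1 ++ x.2.1 ++ l'.drop (x.1 + x.2.2.length)) ∧
      Good (l'.take x.1) x.2.1 x.2.2 (l'.drop (x.1 + x.2.2.length)))

/-- Reflection of letters in the diagonal. -/
def rfl4 : Fin 4 → Fin 4 := ![1, 0, 3, 2]

end Pool.Agent.Helper99.PT
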