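import Pool.Agent.Helper99.PT.Tall

/-!
# The three features satisfy the hypotheses of `typical`
-/

set_option autoImplicit false

namespace Pool.Agent.Helper99.PT

open Pool.Agent.Helper2.QP Filter

open Classical in
/-- the local function of flippable corners -/
noncomputable def phiF : (V → Prop) → List (Fin 4) → ℝ := fun o s =>
  if 2 ≤ s.length ∧ ¬ o (stp (s.getD 1 0)) then 1 else 0

open Classical in
/-- the local function of bumps -/
noncomputable def phiB : (V → Prop) → List (Fin 4) → ℝ := fun _ s =>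
  if 3 ≤ s.length ∧ s.getD 2 0 = opp (s.getD 0 0) then 1 else 0

open Classical in
/-- the local function of bumpable edges -/
noncomputable def phiE : (V → Prop) → List (Fin 4) → ℝ := fun o s =>
  (((Finset.univ : Finset (Fin 4)).filter
    (fun r => ¬ o (stp r) ∧ ¬ o (stp (s.getD 0 0) + stp r))).card : ℝ)

theorem getD_drop_take (l : List (Fin 4)) (i k : ℕ) (hk : k < 3) :
    ((l.drop i).take 3).getD k 0 = l.getD (i + k) 0 := by
  rw [List.getD_eq_getElem?_getD, List.getD_eq_getElem?_getD, List.getElem?_take, if_pos hk,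
    List.getElem?_drop]

theorem length_drop_take (l : List (Fin 4)) (i : ℕ) :
    ((l.drop i).take 3).length = min 3 (l.length - i) := by
  rw [List.length_take, List.length_drop]

theorem feat_phiF (l : List (Fin 4)) : feat phiF l = ((Fl l).card : ℝ) := by
  classical
  unfold feat phiF
  simp only [getD_drop_take l _ 1 (by norm_num), length_drop_take]
  rw [Finset.sum_boole]
  congr 2
  unfold Fl
  ext i
  simp only [Finset.mem_filter, Finset.mem_range]
  constructor
  · rintro ⟨h1, h2, h3⟩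
    exact ⟨by omega, h3⟩
  · rintro ⟨h1, h2⟩
    exact ⟨by omega, by omega, h2⟩

theorem feat_phiB (l : List (Fin 4)) : feat phiB l = ((Bm l).card : ℝ) := by
  classical
  unfold feat phiB
  simp only [getD_drop_take l _ 2 (by norm_num), getD_drop_take l _ 0 (by norm_num), length_drop_take,
    add_zero]
  rw [Finset.sum_boole]
  congr 2
  unfold Bm
  ext i
  simp only [Finset.mem_filter, Finset.mem_range]
  constructor
  · rintro ⟨h1, h2, h3⟩
    exact ⟨by omega, h3⟩
  · rintro ⟨h1, h2⟩
    exact ⟨by omega, by omega, h2⟩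

theorem feat_phiE (l : List (Fin 4)) : feat phiE l = ((Eb l).card : ℝ) := by
  classical
  unfold feat phiE
  simp only [getD_drop_take l _ 0 (by norm_num), add_zero]
  unfold Eb
  rw [Finset.card_filter, Finset.sum_product]
  push_cast
  refine Finset.sum_congr rfl fun i _ => ?_
  rw [Finset.card_filter]
  push_cast
  refine Finset.sum_congr rfl fun r _ => ?_
  simp only [add_assoc]

theorem local_phiF : Local phiF := by
  intro o o' h s
  unfold phiF
  have h1 := stp_bound (s.getD 1 0)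
  have h2 := h (stp (s.getD 1 0)) (by omega) (by omega)
  by_cases hh : 2 ≤ s.length ∧ ¬ o (stp (s.getD 1 0))
  · rw [if_pos hh, if_pos ⟨hh.1, fun h3 => hh.2 (h2.mpr h3)⟩]
  · rw [if_neg hh, if_neg (fun h3 => hh ⟨h3.1, fun h4 => h3.2 (h2.mp h4)⟩)]

theorem local_phiB : Local phiB := by
  intro o o' h s
  rfl

theorem local_phiE : Local phiE := by
  intro o o' h s
  unfold phiE
  refine congrArg (fun n : ℕ => (n : ℝ)) (congrArg Finset.card ?_)
  ext r
  have h1 := stp_bound (s.getD 0 0)
  have h2 := stp_bound r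
  have h3 := h (stp r) (by omega) (by omega)
  have h4 := h (stp (s.getD 0 0) + stp r) (by
    rw [Prod.fst_add]
    have := abs_add_le (stp (s.getD 0 0)).1 (stp r).1
    omega) (by
    rw [Prod.snd_add]
    have := abs_add_le (stp (s.getD 0 0)).2 (stp r).2
    omega)
  simp only [Finset.mem_filter, Finset.mem_univ, true_and, h3, h4]

theorem abs_phiF (o : V → Prop) (s : List (Fin 4)) : |phiF o s| ≤ 4 := by
  unfold phiF
  split_ifs <;> norm_num

theorem abs_phiB (o : V → Prop) (s : List (Fin 4)) : |phiB o s| ≤ 4 := by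
  unfold phiB
  split_ifs <;> norm_num

theorem abs_phiE (o : V → Prop) (s : List (Fin 4)) : |phiE o s| ≤ 4 := by
  classical
  unfold phiE
  rw [abs_of_nonneg (Nat.cast_nonneg _)]
  have h1 := Finset.card_filter_le (Finset.univ : Finset (Fin 4))
    (fun r => ¬ o (stp r) ∧ ¬ o (stp (s.getD 0 0) + stp r))
  rw [Finset.card_univ, Fintype.card_fin] at h1
  exact_mod_cast h1

theorem pats_len : ∀ x ∈ pats, x.1.length ≤ 10 ∧ x.2.length ≤ 10 ∧ dsp x.1 = dsp x.2 := by
  intro x hx
  simp only [pats, pats0, List.map_cons, List.map_nil, List.cons_append, List.nil_append,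
    List.mem_cons, List.not_mem_nil, or_false] at hx
  rcases hx with rfl | rfl | rfl | rfl | rfl | rfl | rfl | rfl | rfl | rfl | rfl | rfl <;>
    exact ⟨by decide, by decide, by decide⟩

/-- second clause, from the locality lemma -/
theorem features_two {K : ℕ}
    (hrep : ∀ (φ : (V → Prop) → List (Fin 4) → ℝ), Local φ → ∀ M : ℝ, (∀ o s, |φ o s| ≤ M) →
      ∀ X o w Y : List (Fin 4), o.length ≤ 10 → w.length ≤ 10 → dsp o = dsp w →
      IsSAP (X ++ o ++ Y) → IsSAP (X ++ w ++ Y) →
      |feat φ (X ++ w ++ Y) - feat φ (X ++ o ++ Y)| ≤ K * M) :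
    ∀ f ∈ [fun l => (Fl l).card, fun l => (Bm l).card, fun l => (Eb l).card],
      ∀ X o w Y, (o, w) ∈ pats → IsSAP (X ++ o ++ Y) → IsSAP (X ++ w ++ Y) →
        f (X ++ w ++ Y) ≤ f (X ++ o ++ Y) + 4 * K := by
  intro f hf X o w Y hp h1 h2
  obtain ⟨e1, e2, e3⟩ := pats_len _ hp
  have main : ∀ (φ : (V → Prop) → List (Fin 4) → ℝ), Local φ → (∀ o s, |φ o s| ≤ 4) →
      ∀ g : List (Fin 4) → ℕ, (∀ l, feat φ l = (g l : ℝ)) → g (X ++ w ++ Y) ≤ g (X ++ o ++ Y) + 4 * K := by
    intro φ hφ hM g hg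
    have h3 := hrep φ hφ 4 hM X o w Y e1 e2 e3 h1 h2
    rw [hg, hg] at h3
    have h4 := (abs_le.mp h3).2
    have h5 : ((g (X ++ w ++ Y) : ℕ) : ℝ) ≤ ((g (X ++ o ++ Y) + 4 * K : ℕ) : ℝ) := by
      push_cast
      linarith
    exact_mod_cast h5
  simp only [List.mem_cons, List.not_mem_nil, or_false] at hf
  rcases hf with rfl | rfl | rfl
  · exact main phiF local_phiF abs_phiF _ feat_phiF
  · exact main phiB local_phiB abs_phiB _ feat_phiB
  · exact main phiE local_phiE abs_phiE _ feat_phiE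

theorem mem_dec {l' : List (Fin 4)} {x : ℕ × (List (Fin 4) × List (Fin 4))} (h : x ∈ dec l') :
    x.1 ≤ l'.length ∧ x.2 ∈ pats ∧ (∃ k < 10, x.1 + k ∈ Fl l') ∧ (∃ k < 10, x.1 + k ∈ Bm l') ∧
      ∃ k < 10, ∃ r, (x.1 + k, r) ∈ Eb l' := by
  classical
  unfold dec at h
  rw [Finset.mem_filter, Finset.mem_product, Finset.mem_range, List.mem_toFinset] at h
  obtain ⟨⟨h1, h2⟩, h3, -, h4⟩ := h
  have hl : (l'.take x.1).length = x.1 := by rw [List.length_take]; omega
  obtain ⟨-, g1, g2, g3, -⟩ := h4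
  rw [h3, hl] at g1 g2 g3
  exact ⟨by omega, h2, g1, g2, g3⟩

/-- first clause -/
theorem features_one :
    ∀ f ∈ [fun l => (Fl l).card, fun l => (Bm l).card, fun l => (Eb l).card],
      ∀ l', (dec l').card ≤ 120 * f l' := by
  classical
  intro f hf l'
  have hp : pats.toFinset.card ≤ 12 := by
    have h1 := List.toFinset_card_le pats
    have h2 : pats.length = 12 := by decide
    omega
  have main : ∀ (α : Type) (S : Finset α) (g : α → ℕ),
      (∀ x ∈ dec l', ∃ k < 10, ∃ y ∈ S, g y = x.1 + k) → (dec l').card ≤ 120 * S.card := by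
    intro α S g hg
    have hsub : dec l' ⊆ ((S ×ˢ Finset.range 10).image (fun y => g y.1 - y.2)) ×ˢ pats.toFinset := by
      intro x hx
      obtain ⟨k, hk, y, hy, hgy⟩ := hg x hx
      rw [Finset.mem_product, Finset.mem_image, List.mem_toFinset]
      refine ⟨⟨(y, k), ?_, ?_⟩, (mem_dec hx).2.1⟩
      · rw [Finset.mem_product, Finset.mem_range]; exact ⟨hy, hk⟩
      · simp only [hgy]; omega
    have h1 := Finset.card_le_card hsub
    rw [Finset.card_product] at h1
    have h2 : ((S ×ˢ Finset.range 10).image (fun y => g y.1 - y.2)).card ≤ S.card * 10 := by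
      refine Finset.card_image_le.trans ?_
      rw [Finset.card_product, Finset.card_range]
    have h3 := Nat.mul_le_mul h2 hp
    calc (dec l').card ≤ _ := h1
      _ ≤ S.card * 10 * 12 := h3
      _ = 120 * S.card := by ring
  simp only [List.mem_cons, List.not_mem_nil, or_false] at hf
  rcases hf with rfl | rfl | rfl
  · exact main ℕ (Fl l') id (fun x hx => by
      obtain ⟨k, hk, h⟩ := (mem_dec hx).2.2.1
      exact ⟨k, hk, _, h, rfl⟩)
  · exact main ℕ (Bm l') id (fun x hx => by
      obtain ⟨k, hk, h⟩ := (mem_dec hx).2.2.2.1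
      exact ⟨k, hk, _, h, rfl⟩)
  · exact main (ℕ × Fin 4) (Eb l') Prod.fst (fun x hx => by
      obtain ⟨k, hk, r, h⟩ := (mem_dec hx).2.2.2.2
      exact ⟨k, hk, _, h, rfl⟩)

/-- all three clauses, from the locality lemma -/
theorem features_of {K : ℕ}
    (hrep : ∀ (φ : (V → Prop) → List (Fin 4) → ℝ), Local φ → ∀ M : ℝ, (∀ o s, |φ o s| ≤ M) →
      ∀ X o w Y : List (Fin 4), o.length ≤ 10 → w.length ≤ 10 → dsp o = dsp w →
      IsSAP (X ++ o ++ Y) → IsSAP (X ++ w ++ Y) →
      |feat φ (X ++ w ++ Y) - feat φ (X ++ o ++ Y)| ≤ K * M) : ∃ C : ℕ,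
    (∀ f ∈ [fun l => (Fl l).card, fun l => (Bm l).card, fun l => (Eb l).card],
      (∀ l', IsSAP l' → (dec l').card ≤ C * f l') ∧
      (∀ X o w Y, (o, w) ∈ pats → IsSAP (X ++ o ++ Y) → IsSAP (X ++ w ++ Y) →
        f (X ++ w ++ Y) ≤ f (X ++ o ++ Y) + C) ∧
      (∀ l, IsSAP l → f (l.map rfl4) = f l)) := by
  refine ⟨120 + 4 * K, fun f hf => ⟨fun l' _ => ?_, fun X o w Y hp h1 h2 => ?_, fun l _ => ?_⟩⟩
  · exact (features_one f hf l').trans (Nat.mul_le_mul_right _ (by omega))
  · exact (features_two hrep f hf X o w Y hp h1 h2).trans (by omega)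
  · exact features_rfl f hf l

end Pool.Agent.Helper99.PT
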