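import Pool.Agent.Helper99.PT.Defs

/-!
# Locality: a replaced subword changes the sum of a local function by a bounded amount only
-/

set_option autoImplicit false

namespace Pool.Agent.Helper99.PT

open Pool.Agent.Helper2.QP

/-- Close to one of the sites of a list. -/
def Nr (D : List V) (v : V) : Prop := ∃ u ∈ D, |u.1 - v.1| ≤ 2 ∧ |u.2 - v.2| ≤ 2

open Classical in
theorem card_near (S : Finset ℕ) (f : ℕ → V) (hf : Set.InjOn f S) (D : List V) :
    (S.filter (fun x => Nr D (f x))).card ≤ 25 * D.length := by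
  have h1 : (S.filter (fun x => Nr D (f x))).card =
      ((S.filter (fun x => Nr D (f x))).image f).card := by
    rw [Finset.card_image_of_injOn]
    refine hf.mono ?_
    intro x hx
    exact Finset.filter_subset _ _ hx
  rw [h1]
  have h2 : (S.filter (fun x => Nr D (f x))).image f ⊆
      D.toFinset.biUnion (fun u =>
        Finset.Icc (u.1 - 2) (u.1 + 2) ×ˢ Finset.Icc (u.2 - 2) (u.2 + 2)) := by
    intro v hv
    rw [Finset.mem_image] at hv
    obtain ⟨x, hx, rfl⟩ := hv
    rw [Finset.mem_filter] at hx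
    obtain ⟨_, u, hu, hu1, hu2⟩ := hx
    rw [Finset.mem_biUnion]
    refine ⟨u, List.mem_toFinset.2 hu, ?_⟩
    rw [Finset.mem_product, Finset.mem_Icc, Finset.mem_Icc]
    rw [abs_le] at hu1 hu2
    omega
  refine (Finset.card_le_card h2).trans ?_
  refine (Finset.card_biUnion_le).trans ?_
  have h3 : ∀ u ∈ D.toFinset,
      (Finset.Icc (u.1 - 2) (u.1 + 2) ×ˢ Finset.Icc (u.2 - 2) (u.2 + 2)).card ≤ 25 := by
    intro u _
    rw [Finset.card_product, Int.card_Icc, Int.card_Icc]
    have e1 : (u.1 + 2 + 1 - (u.1 - 2)).toNat = 5 := by omega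
    have e2 : (u.2 + 2 + 1 - (u.2 - 2)).toNat = 5 := by omega
    rw [e1, e2]
  refine (Finset.sum_le_sum h3).trans ?_
  rw [Finset.sum_const, smul_eq_mul, mul_comm]
  exact Nat.mul_le_mul_left _ (List.toFinset_card_le _)

open Classical in
theorem sum_diff (S T : Finset ℕ) (g g' : ℕ → ℝ) (M : ℝ) (N : ℕ) (hM : 0 ≤ M)
    (hg : ∀ x, |g x| ≤ M) (hg' : ∀ x, |g' x| ≤ M)
    (hT : ∀ x ∈ S, x ∉ T → g' x = g x) (hN : T.card ≤ N) :
    |∑ x ∈ S, g' x - ∑ x ∈ S, g x| ≤ 2 * N * M := by
  rw [← Finset.sum_sub_distrib]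
  have h1 : ∑ x ∈ S, (g' x - g x) = ∑ x ∈ S.filter (fun x => x ∈ T), (g' x - g x) := by
    rw [Finset.sum_filter]
    apply Finset.sum_congr rfl
    intro x hx
    by_cases h : x ∈ T
    · rw [if_pos h]
    · rw [if_neg h, hT x hx h, sub_self]
  rw [h1]
  refine (Finset.abs_sum_le_sum_abs _ _).trans ?_
  have h2 : ∀ x ∈ S.filter (fun x => x ∈ T), |g' x - g x| ≤ 2 * M := by
    intro x _
    have := abs_sub (g' x) (g x)
    linarith [hg x, hg' x]
  refine (Finset.sum_le_sum h2).trans ?_
  rw [Finset.sum_const, nsmul_eq_mul]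
  have h3 : (S.filter (fun x => x ∈ T)).card ≤ N := by
    refine le_trans (Finset.card_le_card ?_) hN
    intro x hx
    exact (Finset.mem_filter.1 hx).2
  have h4 : ((S.filter (fun x => x ∈ T)).card : ℝ) ≤ N := by exact_mod_cast h3
  nlinarith

/-- The term of index `i` in `feat`. -/
noncomputable def term (φ : (V → Prop) → List (Fin 4) → ℝ) (l : List (Fin 4)) (i : ℕ) : ℝ :=
  φ (fun d => vtx l i + d ∈ verts 0 l) ((l.drop i).take 3)

theorem feat_split (φ : (V → Prop) → List (Fin 4) → ℝ) (X o Y : List (Fin 4)) :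
    feat φ (X ++ o ++ Y) = ∑ x ∈ Finset.range X.length, term φ (X ++ o ++ Y) x +
      ∑ x ∈ Finset.range o.length, term φ (X ++ o ++ Y) (X.length + x) +
      ∑ x ∈ Finset.range Y.length, term φ (X ++ o ++ Y) (X.length + o.length + x) := by
  have h1 : (X ++ o ++ Y).length = X.length + o.length + Y.length := by simp [add_assoc]
  have h2 : feat φ (X ++ o ++ Y) =
      ∑ i ∈ Finset.range (X ++ o ++ Y).length, term φ (X ++ o ++ Y) i := rfl
  rw [h2, h1, Finset.sum_range_add, Finset.sum_range_add]

theorem vtx_left (X o Y : List (Fin 4)) (x : ℕ) (hx : x ≤ X.length) :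
    vtx (X ++ o ++ Y) x = dsp (X.take x) := by
  unfold vtx
  rw [List.append_assoc, List.take_append_of_le_length hx]

theorem vtx_right (X o Y : List (Fin 4)) (x : ℕ) :
    vtx (X ++ o ++ Y) (X.length + o.length + x) = dsp X + dsp o + dsp (Y.take x) := by
  unfold vtx
  have h1 : X.length + o.length + x = (X ++ o).length + x := by simp
  rw [h1, List.take_length_add_append, dsp_append, dsp_append]

theorem term_congr (φ : (V → Prop) → List (Fin 4) → ℝ) (hφ : Local φ) (X o w Y : List (Fin 4))
    (hd : dsp o = dsp w) (i j : ℕ) (hv : vtx (X ++ w ++ Y) j = vtx (X ++ o ++ Y) i)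
    (hs : ((X ++ w ++ Y).drop j).take 3 = ((X ++ o ++ Y).drop i).take 3)
    (hn : ¬ Nr (verts (dsp X) o ++ verts (dsp X) w) (vtx (X ++ o ++ Y) i)) :
    term φ (X ++ w ++ Y) j = term φ (X ++ o ++ Y) i := by
  unfold term
  rw [hs]
  apply hφ
  intro d h1 h2
  rw [hv]
  have h3 : vtx (X ++ o ++ Y) i + d ∉ verts (dsp X) o := by
    intro h
    apply hn
    refine ⟨_, List.mem_append_left _ h, ?_, ?_⟩ <;> simpa using by assumption
  have h4 : vtx (X ++ o ++ Y) i + d ∉ verts (dsp X) w := by
    intro h
    apply hn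
    refine ⟨_, List.mem_append_right _ h, ?_, ?_⟩ <;> simpa using by assumption
  rw [verts_append, verts_append, verts_append, verts_append]
  simp only [zero_add, List.mem_append, dsp_append, h3, h4, hd]

theorem feat_replace (φ : (V → Prop) → List (Fin 4) → ℝ) (hφ : Local φ) (M : ℝ)
    (hM : ∀ o s, |φ o s| ≤ M) (X o w Y : List (Fin 4)) (ho : o.length ≤ 10) (hw : w.length ≤ 10)
    (hd : dsp o = dsp w) (h1 : IsSAP (X ++ o ++ Y)) (h2 : IsSAP (X ++ w ++ Y)) :
    |feat φ (X ++ w ++ Y) - feat φ (X ++ o ++ Y)| ≤ 2100 * M := by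
  classical
  have hM0 : 0 ≤ M := (abs_nonneg _).trans (hM (fun _ => True) [])
  set D : List V := verts (dsp X) o ++ verts (dsp X) w with hD
  have hDl : D.length ≤ 20 := by
    rw [hD, List.length_append, length_verts, length_verts]
    omega
  have hlen : (X ++ o ++ Y).length = X.length + o.length + Y.length := by simp [add_assoc]
  have ht : ∀ (l : List (Fin 4)) (i : ℕ), |term φ l i| ≤ M := fun l i => hM _ _
  -- left part
  set T₁ : Finset ℕ := (Finset.range X.length).filter (fun x => Nr D (vtx (X ++ o ++ Y) x)) ∪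
    {X.length - 1, X.length - 2} with hT₁
  have c1 : T₁.card ≤ 502 := by
    refine (Finset.card_union_le _ _).trans ?_
    have e1 := card_near (Finset.range X.length) (fun x => vtx (X ++ o ++ Y) x) (by
      intro i hi j hj hij
      simp only [Finset.coe_range, Set.mem_Iio] at hi hj
      exact vtx_inj _ h1 (by omega) (by omega) hij) D
    have e2 : ({X.length - 1, X.length - 2} : Finset ℕ).card ≤ 2 := Finset.card_le_two
    omega
  have d1 : |∑ x ∈ Finset.range X.length, term φ (X ++ w ++ Y) x -
      ∑ x ∈ Finset.range X.length, term φ (X ++ o ++ Y) x| ≤ 2 * (502 : ℕ) * M := by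
    apply sum_diff _ T₁ _ _ M 502 hM0 (fun x => ht _ x) (fun x => ht _ x) _ c1
    intro x hx hxT
    rw [Finset.mem_range] at hx
    rw [hT₁, Finset.mem_union, not_or, Finset.mem_filter, not_and, Finset.mem_insert,
      Finset.mem_singleton, not_or, Finset.mem_range] at hxT
    apply term_congr φ hφ X o w Y hd x x
    · rw [vtx_left _ _ _ _ hx.le, vtx_left _ _ _ _ hx.le]
    · have e3 : ∀ z : List (Fin 4), ((X ++ z ++ Y).drop x).take 3 = (X.drop x).take 3 := by
        intro z
        rw [List.append_assoc, List.drop_append_of_le_length hx.le,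
          List.take_append_of_le_length]
        rw [List.length_drop]
        omega
      rw [e3, e3]
    · exact hxT.1 hx
  -- middle part
  have d2 : ∀ z : List (Fin 4), z.length ≤ 10 →
      |∑ x ∈ Finset.range z.length, term φ (X ++ z ++ Y) (X.length + x)| ≤ 10 * M := by
    intro z hz
    refine (Finset.abs_sum_le_sum_abs _ _).trans ?_
    refine (Finset.sum_le_sum (fun x _ => ht _ _)).trans ?_
    rw [Finset.sum_const, nsmul_eq_mul, Finset.card_range]
    have : (z.length : ℝ) ≤ 10 := by exact_mod_cast hz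
    nlinarith
  -- right part
  set T₂ : Finset ℕ := (Finset.range Y.length).filter
    (fun x => Nr D (vtx (X ++ o ++ Y) (X.length + o.length + x))) with hT₂
  have c2 : T₂.card ≤ 500 := by
    have e1 := card_near (Finset.range Y.length)
      (fun x => vtx (X ++ o ++ Y) (X.length + o.length + x)) (by
      intro i hi j hj hij
      simp only [Finset.coe_range, Set.mem_Iio] at hi hj
      have := vtx_inj _ h1 (by omega) (by omega) hij
      omega) D
    have e2 : T₂.card ≤ 25 * D.length := e1
    omega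
  have d3 : |∑ x ∈ Finset.range Y.length, term φ (X ++ w ++ Y) (X.length + w.length + x) -
      ∑ x ∈ Finset.range Y.length, term φ (X ++ o ++ Y) (X.length + o.length + x)| ≤
        2 * (500 : ℕ) * M := by
    apply sum_diff _ T₂ _ _ M 500 hM0 (fun x => ht _ _) (fun x => ht _ _) _ c2
    intro x hx hxT
    rw [hT₂, Finset.mem_filter, not_and] at hxT
    apply term_congr φ hφ X o w Y hd
    · rw [vtx_right, vtx_right, hd]
    · have e3 : ∀ z : List (Fin 4),
          ((X ++ z ++ Y).drop (X.length + z.length + x)).take 3 = (Y.drop x).take 3 := by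
        intro z
        have e4 : X.length + z.length + x = (X ++ z).length + x := by simp
        rw [e4, List.drop_length_add_append]
      rw [e3, e3]
    · exact hxT hx
  have d4 := d2 o ho
  have d5 := d2 w hw
  rw [feat_split, feat_split]
  rw [abs_le] at d1 d3 d4 d5 ⊢
  push_cast at d1 d3
  constructor <;> linarith [d1.1, d1.2, d3.1, d3.2, d4.1, d4.2, d5.1, d5.2]

end Pool.Agent.Helper99.PT
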