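import Pool.Agent.Helper99.PT.Feat
import Pool.Agent.Helper99.PT.Loc

/-!
# The three features satisfy the hypotheses of `typical`: final form
-/

set_option autoImplicit false

namespace Pool.Agent.Helper99.PT

open Pool.Agent.Helper2.QP Filter

/-- the three features satisfy the hypotheses of `typical` -/
theorem features : ∃ C : ℕ,
    (∀ f ∈ [fun l => (Fl l).card, fun l => (Bm l).card, fun l => (Eb l).card],
      (∀ l', IsSAP l' → (dec l').card ≤ C * f l') ∧
      (∀ X o w Y, (o, w) ∈ pats → IsSAP (X ++ o ++ Y) → IsSAP (X ++ w ++ Y) →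
        f (X ++ w ++ Y) ≤ f (X ++ o ++ Y) + C) ∧
      (∀ l, IsSAP l → f (l.map rfl4) = f l)) :=
  features_of (K := 2100) (fun φ hφ M hM X o w Y ho hw hd h1 h2 => by
    have h := feat_replace φ hφ M hM X o w Y ho hw hd h1 h2
    exact_mod_cast h)

end Pool.Agent.Helper99.PT
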