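import Mathlib.Analysis.Convex.Deriv
import Mathlib.Analysis.SpecialFunctions.ExpDeriv
import Mathlib.Analysis.SpecialFunctions.Log.Deriv

/-!
# Strong convexity of a log-sum-exp function

If the variance of a finite weighted family is bounded from below by `W` on an interval of parameters, then the
logarithm of the exponential sum is strongly convex with constant `W` there.
-/

set_option autoImplicit false

namespace Pool.Agent.Helper99.PT

theorem lse_hasDerivAt_Z {ι : Type*} (S : Finset ι) (A : ι → ℝ) (s : ℝ) :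
    HasDerivAt (fun s => ∑ i ∈ S, Real.exp (s * A i)) (∑ i ∈ S, A i * Real.exp (s * A i)) s := by
  apply HasDerivAt.fun_sum
  intro i _
  have h1 : HasDerivAt (fun s : ℝ => s * A i) (A i) s := by
    simpa using (hasDerivAt_id s).mul_const (A i)
  have h2 := h1.exp
  rw [mul_comm] at h2
  exact h2

theorem lse_hasDerivAt_M {ι : Type*} (S : Finset ι) (A : ι → ℝ) (s : ℝ) :
    HasDerivAt (fun s => ∑ i ∈ S, A i * Real.exp (s * A i)) (∑ i ∈ S, A i ^ 2 * Real.exp (s * A i)) s := by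
  apply HasDerivAt.fun_sum
  intro i _
  have h1 : HasDerivAt (fun s : ℝ => s * A i) (A i) s := by
    simpa using (hasDerivAt_id s).mul_const (A i)
  have h2 := (h1.exp).const_mul (A i)
  have h3 : A i * (Real.exp (s * A i) * A i) = A i ^ 2 * Real.exp (s * A i) := by ring
  rw [h3] at h2
  exact h2

theorem lse_strong {ι : Type*} (S : Finset ι) (hS : S.Nonempty) (A : ι → ℝ) (W s₁ s₂ : ℝ)
    (hV : ∀ s, s₁ ≤ s → s ≤ s₂ →
      W * (∑ i ∈ S, Real.exp (s * A i)) ^ 2 ≤ (∑ i ∈ S, Real.exp (s * A i)) *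
        (∑ i ∈ S, A i ^ 2 * Real.exp (s * A i)) - (∑ i ∈ S, A i * Real.exp (s * A i)) ^ 2)
    (u v t : ℝ) (hu : s₁ ≤ u) (hu' : u ≤ s₂) (hv : s₁ ≤ v) (hv' : v ≤ s₂) (ht : 0 ≤ t) (ht' : t ≤ 1) :
    Real.log (∑ i ∈ S, Real.exp ((t * u + (1 - t) * v) * A i)) + W / 2 * (t * (1 - t)) * (u - v) ^ 2 ≤
      t * Real.log (∑ i ∈ S, Real.exp (u * A i)) + (1 - t) * Real.log (∑ i ∈ S, Real.exp (v * A i)) := by
  have hZ : ∀ s : ℝ, 0 < ∑ i ∈ S, Real.exp (s * A i) := fun s =>
    Finset.sum_pos (fun i _ => Real.exp_pos _) hS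
  -- the function `g = log Z - W s ^ 2 / 2` and its two derivatives
  have hg1 : ∀ s : ℝ, HasDerivAt (fun s => Real.log (∑ i ∈ S, Real.exp (s * A i)) - W / 2 * s ^ 2)
      ((∑ i ∈ S, A i * Real.exp (s * A i)) / (∑ i ∈ S, Real.exp (s * A i)) - W * s) s := by
    intro s
    have h1 := (lse_hasDerivAt_Z S A s).log (hZ s).ne'
    have h2 : HasDerivAt (fun s : ℝ => W / 2 * s ^ 2) (W * s) s := by
      have h3 := (hasDerivAt_pow 2 s).const_mul (W / 2)
      have h4 : W / 2 * (((2 : ℕ) : ℝ) * s ^ (2 - 1)) = W * s := by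
        push_cast
        ring
      rw [h4] at h3
      exact h3
    exact h1.sub h2
  have hg2 : ∀ s : ℝ, HasDerivAt
      (fun s => (∑ i ∈ S, A i * Real.exp (s * A i)) / (∑ i ∈ S, Real.exp (s * A i)) - W * s)
      (((∑ i ∈ S, A i ^ 2 * Real.exp (s * A i)) * (∑ i ∈ S, Real.exp (s * A i)) -
        (∑ i ∈ S, A i * Real.exp (s * A i)) * (∑ i ∈ S, A i * Real.exp (s * A i))) /
          (∑ i ∈ S, Real.exp (s * A i)) ^ 2 - W) s := by
    intro s
    have h1 := (lse_hasDerivAt_M S A s).div (lse_hasDerivAt_Z S A s) (hZ s).ne'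
    have h2 : HasDerivAt (fun s : ℝ => W * s) W s := by
      simpa using (hasDerivAt_id s).const_mul W
    exact h1.sub h2
  have hd1 : deriv (fun s => Real.log (∑ i ∈ S, Real.exp (s * A i)) - W / 2 * s ^ 2) =
      fun s => (∑ i ∈ S, A i * Real.exp (s * A i)) / (∑ i ∈ S, Real.exp (s * A i)) - W * s :=
    funext fun s => (hg1 s).deriv
  have hconv : ConvexOn ℝ (Set.Icc s₁ s₂)
      (fun s => Real.log (∑ i ∈ S, Real.exp (s * A i)) - W / 2 * s ^ 2) := by
    apply convexOn_of_deriv2_nonneg (convex_Icc s₁ s₂)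
    · exact fun s _ => (hg1 s).continuousAt.continuousWithinAt
    · exact fun s _ => (hg1 s).differentiableAt.differentiableWithinAt
    · rw [hd1]
      exact fun s _ => (hg2 s).differentiableAt.differentiableWithinAt
    · intro s hs
      have hs' := interior_subset hs
      have h0 : deriv^[2] (fun s => Real.log (∑ i ∈ S, Real.exp (s * A i)) - W / 2 * s ^ 2) s =
          ((∑ i ∈ S, A i ^ 2 * Real.exp (s * A i)) * (∑ i ∈ S, Real.exp (s * A i)) -
        (∑ i ∈ S, A i * Real.exp (s * A i)) * (∑ i ∈ S, A i * Real.exp (s * A i))) /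
          (∑ i ∈ S, Real.exp (s * A i)) ^ 2 - W := by
        rw [Function.iterate_succ_apply, Function.iterate_one, hd1]
        exact (hg2 s).deriv
      rw [h0, sub_nonneg, le_div_iff₀ (pow_pos (hZ s) 2)]
      have := hV s hs'.1 hs'.2
      nlinarith [this]
  have h := hconv.2 (Set.mem_Icc.2 ⟨hu, hu'⟩) (Set.mem_Icc.2 ⟨hv, hv'⟩) ht (sub_nonneg.2 ht')
    (by ring : t + (1 - t) = 1)
  simp only [smul_eq_mul] at h
  nlinarith [h]

end Pool.Agent.Helper99.PT
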