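import Pool.Agent.Helper99.PT.Surg

/-!
# The variance of the area is at least a constant times the mean number of flippable corners

Detailed balance for corner flips and the Cauchy-Schwarz inequality.
-/

set_option autoImplicit false

namespace Pool.Agent.Helper99.PT

open Pool.Agent.Helper2.QP Filter

namespace VarAux

/-- the new vertex of the flip at position `i` -/
def nv (l : List (Fin 4)) (i : ℕ) : V := vtx l i + stp (l.getD (i + 1) 0)

/-- the change of the integral of `x dy` when the letters `a`, `b` are exchanged -/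
def crs (a b : Fin 4) : ℤ := (stp b).1 * (stp a).2 - (stp a).1 * (stp b).2

/-- the orientation -/
def sgm (l : List (Fin 4)) : ℤ := if 0 < xdy l then 1 else -1

/-- the weight of a flip: `q` if the area grows, `-1` if it decreases -/
noncomputable def sg (q : ℝ) (l : List (Fin 4)) (i : ℕ) : ℝ :=
  if area (swp l i) = area l + 1 then q else -1

theorem mem_Fl (l : List (Fin 4)) (i : ℕ) : i ∈ Fl l ↔ i + 1 < l.length ∧ nv l i ∉ verts 0 l := by
  simp only [Fl, nv, Finset.mem_filter, Finset.mem_range]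
  constructor
  · rintro ⟨h1, h2⟩
    exact ⟨by omega, h2⟩
  · rintro ⟨h1, h2⟩
    exact ⟨by omega, h2⟩

theorem split_word (l : List (Fin 4)) (i : ℕ) (hi : i + 1 < l.length) :
    l = l.take i ++ [l.getD i 0, l.getD (i + 1) 0] ++ l.drop (i + 2) := by
  have h1 : l.drop i = l.getD i 0 :: l.getD (i + 1) 0 :: l.drop (i + 2) := by
    rw [List.drop_eq_getElem_cons (by omega : i < l.length),
      List.drop_eq_getElem_cons hi, List.getD_eq_getElem _ _ (by omega : i < l.length),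
      List.getD_eq_getElem _ _ hi]
  conv_lhs => rw [← List.take_append_drop i l, h1]
  simp

theorem length_swp (l : List (Fin 4)) (i : ℕ) (hi : i + 1 < l.length) :
    (swp l i).length = l.length := by
  simp only [swp, List.length_append, List.length_take, List.length_drop, List.length_cons,
    List.length_nil]
  omega

theorem getD_swp (l : List (Fin 4)) (i : ℕ) (hi : i + 1 < l.length) (k : ℕ) :
    (swp l i).getD k 0 = if k = i then l.getD (i + 1) 0 else if k = i + 1 then l.getD i 0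
      else l.getD k 0 := by
  have h0 : (l.take i).length = i := by simp; omega
  have h1 : swp l i = l.take i ++ (l.getD (i + 1) 0 :: l.getD i 0 :: l.drop (i + 2)) := by
    simp [swp]
  rw [h1]
  rcases lt_or_ge k i with hk | hk
  · rw [List.getD_append _ _ _ _ (by omega), if_neg (by omega), if_neg (by omega),
      List.getD_eq_getElem _ _ (by omega), List.getD_eq_getElem _ _ (by omega), List.getElem_take]
  · rw [List.getD_append_right _ _ _ _ (by omega), h0]
    obtain ⟨j, rfl⟩ : ∃ j, k = i + j := ⟨k - i, by omega⟩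
    rw [Nat.add_sub_cancel_left]
    rcases j with _ | _ | j
    · simp
    · simp
    · rw [if_neg (by omega), if_neg (by omega), List.getD_cons_succ, List.getD_cons_succ,
        List.getD_eq_getElem?_getD, List.getElem?_drop, List.getD_eq_getElem?_getD]
      congr 2
      omega

theorem vtx_swp (l : List (Fin 4)) (i : ℕ) (hi : i + 1 < l.length) (k : ℕ) :
    vtx (swp l i) k = if k = i + 1 then nv l i else vtx l k := by
  have h0 : (l.take i).length = i := by simp; omega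
  have h1 : swp l i = l.take i ++ (l.getD (i + 1) 0 :: l.getD i 0 :: l.drop (i + 2)) := by
    simp [swp]
  have h2 : l = l.take i ++ (l.getD i 0 :: l.getD (i + 1) 0 :: l.drop (i + 2)) := by
    conv_lhs => rw [split_word l i hi]
    simp
  rcases le_or_gt k i with hk | hk
  · rw [if_neg (by omega)]
    unfold vtx
    congr 1
    rw [h1, List.take_append_of_le_length (by omega), List.take_take, min_eq_left hk]
  · obtain ⟨j, rfl⟩ : ∃ j, k = i + (j + 1) := ⟨k - i - 1, by omega⟩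
    have e1 : (swp l i).take (i + (j + 1)) = l.take i ++
        (l.getD (i + 1) 0 :: l.getD i 0 :: l.drop (i + 2)).take (j + 1) := by
      rw [h1, List.take_append, h0, Nat.add_sub_cancel_left, List.take_of_length_le (by omega)]
    have e2 : l.take (i + (j + 1)) = l.take i ++
        (l.getD i 0 :: l.getD (i + 1) 0 :: l.drop (i + 2)).take (j + 1) := by
      conv_lhs => rw [h2]
      rw [List.take_append, h0, Nat.add_sub_cancel_left, List.take_of_length_le (by omega)]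
    unfold nv vtx
    rw [e1, e2]
    rcases j with _ | j
    · simp [dsp_append, dsp]
    · rw [if_neg (by omega)]
      simp only [List.take_succ_cons, dsp_append, dsp]
      abel

theorem xdy_swp (l : List (Fin 4)) (i : ℕ) (hi : i + 1 < l.length) :
    xdy (swp l i) = xdy l + crs (l.getD i 0) (l.getD (i + 1) 0) := by
  have h2 := split_word l i hi
  have h3 : xdy l = xdy (l.take i ++ [l.getD i 0, l.getD (i + 1) 0] ++ l.drop (i + 2)) := by
    rw [← h2]
  rw [h3]
  unfold xdy swp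
  simp only [psum_append, psum, dsp_append, dsp, xdyF, crs, Prod.fst_add]
  have h4 : (0 : V) + (dsp (l.take i) + (stp (l.getD (i + 1) 0) + (stp (l.getD i 0) + 0))) =
      0 + (dsp (l.take i) + (stp (l.getD i 0) + (stp (l.getD (i + 1) 0) + 0))) := by abel
  rw [h4]
  ring

theorem area_pos' (l : List (Fin 4)) (h : IsSAP l) (h4 : 4 ≤ l.length) : xdy l ≠ 0 := by
  obtain ⟨ε, hε, hc, -⟩ := jordan l h h4
  have h3 : 3 ≤ l.length := by omega
  have hg := green xdyF xdyF_anti 0 l h.1 l.length (verts_bound l)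
  have hx : xdy l = ∑ c ∈ Finset.Icc (-(l.length : ℤ)) l.length ×ˢ
      Finset.Icc (-(l.length : ℤ)) l.length, wd 0 l c := by
    rw [xdy, hg]
    refine Finset.sum_congr rfl fun c _ => ?_
    rw [curl_xdy, mul_one]
  have hne : ∃ c, wd 0 l c ≠ 0 := by
    by_contra hcon
    push Not at hcon
    have h5 := wd_lft_rgt 0 l h.1 (vtx l 0) (l[0]'(by omega))
    rw [tr_edge l h h3 0 (by omega), hcon, hcon] at h5
    omega
  obtain ⟨c, hcne⟩ := hne
  have hcm : c ∈ Finset.Icc (-(l.length : ℤ)) l.length ×ˢ Finset.Icc (-(l.length : ℤ)) l.length := by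
    by_contra hcon
    apply hcne
    apply wd_eq_zero_of_large l h.1 c
    simp only [Finset.mem_product, Finset.mem_Icc, not_and_or] at hcon
    rcases abs_cases c.1 with ⟨h5, h6⟩ | ⟨h5, h6⟩ <;> rcases abs_cases c.2 with ⟨h7, h8⟩ | ⟨h7, h8⟩ <;>
      omega
  intro h0
  have h6 : ∑ c ∈ Finset.Icc (-(l.length : ℤ)) l.length ×ˢ
      Finset.Icc (-(l.length : ℤ)) l.length, ε * wd 0 l c = 0 := by
    rw [← Finset.mul_sum, ← hx, h0, mul_zero]
  have h7 := (Finset.sum_eq_zero_iff_of_nonneg (fun c _ => by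
    rcases hc c with h8 | h8 <;> rcases hε with h9 | h9 <;> rw [h8] <;> simp [h9])).1 h6 c hcm
  rcases hε with h9 | h9 <;> rw [h9] at h7 <;> omega

theorem crs_cases : ∀ a b : Fin 4, a ≠ b → b ≠ a + 2 → crs a b = 1 ∨ crs a b = -1 := by
  decide

theorem crs_flip (l : List (Fin 4)) (h : IsSAP l) (h4 : 4 ≤ l.length) (i : ℕ) (hi : i ∈ Fl l) :
    crs (l.getD i 0) (l.getD (i + 1) 0) = 1 ∨ crs (l.getD i 0) (l.getD (i + 1) 0) = -1 := by
  obtain ⟨h1, h2⟩ := (mem_Fl l i).1 hi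
  apply crs_cases
  · intro h5
    apply h2
    rw [mem_verts_zero]
    refine ⟨i + 1, h1, ?_⟩
    rw [vtx_succ l i (by omega), nv, ← h5, List.getD_eq_getElem _ _ (by omega : i < l.length)]
  · have h6 := no_rev l h (by omega) i (by omega) (i + 1) h1 (Nat.mod_eq_of_lt h1).symm
    rwa [List.getD_eq_getElem _ _ h1, List.getD_eq_getElem _ _ (by omega : i < l.length)]

theorem area_sgm (l : List (Fin 4)) (h : IsSAP l) (h4 : 4 ≤ l.length) :
    (area l : ℤ) = sgm l * xdy l := by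
  have h1 := area_pos' l h h4
  unfold area sgm
  split_ifs with h2
  · omega
  · omega

theorem sgm_swp (l : List (Fin 4)) (h : IsSAP l) (h4 : 4 ≤ l.length) (i : ℕ) (hi : i ∈ Fl l) :
    sgm (swp l i) = sgm l := by
  have h0 := ((mem_Fl l i).1 hi).1
  have h1 := area_pos' l h h4
  have h2 := area_pos' (swp l i) (isSAP_swp l h i hi) (by rw [length_swp l i h0]; exact h4)
  have h3 := xdy_swp l i h0
  have h5 := crs_flip l h h4 i hi
  unfold sgm
  rcases h5 with h5 | h5 <;> rw [h5] at h3 <;> split_ifs <;> omega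

theorem area_swp (l : List (Fin 4)) (h : IsSAP l) (h4 : 4 ≤ l.length) (i : ℕ) (hi : i ∈ Fl l) :
    (area (swp l i) : ℤ) = area l + sgm l * crs (l.getD i 0) (l.getD (i + 1) 0) := by
  have h0 := ((mem_Fl l i).1 hi).1
  rw [area_sgm _ (isSAP_swp l h i hi) (by rw [length_swp l i h0]; exact h4), sgm_swp l h h4 i hi,
    area_sgm l h h4, xdy_swp l i h0]
  ring

theorem area_swp_cases (l : List (Fin 4)) (h : IsSAP l) (h4 : 4 ≤ l.length) (i : ℕ)
    (hi : i ∈ Fl l) : area (swp l i) = area l + 1 ∨ area (swp l i) + 1 = area l := by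
  have h1 := area_swp l h h4 i hi
  have h5 := crs_flip l h h4 i hi
  have h6 : sgm l = 1 ∨ sgm l = -1 := by
    unfold sgm
    split_ifs <;> simp
  rcases h5 with h5 | h5 <;> rcases h6 with h6 | h6 <;> rw [h5, h6] at h1 <;> omega

/-- detailed balance -/
theorem sg_swp (q : ℝ) (l : List (Fin 4)) (h : IsSAP l) (h4 : 4 ≤ l.length) (i : ℕ)
    (hi : i ∈ Fl l) :
    q ^ area (swp l i) * sg q (swp l i) i = -(q ^ area l * sg q l i) := by
  have h1 := (swp_swp l h i hi).2
  unfold sg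
  rw [h1]
  rcases area_swp_cases l h h4 i hi with h2 | h2
  · rw [if_neg (by omega), if_pos h2, h2, pow_succ]
    ring
  · rw [if_pos h2.symm, if_neg (by omega), ← h2, pow_succ]
    ring

/-- two flips which do not interact -/
def Ni (l : List (Fin 4)) (i j : ℕ) : Prop := (i + 1 < j ∨ j + 1 < i) ∧ nv l j ≠ nv l i

theorem nv_far (l : List (Fin 4)) (i j : ℕ) (hi : i + 1 < l.length) (hij : i + 1 < j ∨ j + 1 < i) :
    nv (swp l i) j = nv l j := by
  unfold nv
  rw [vtx_swp l i hi, getD_swp l i hi, if_neg (by omega), if_neg (by omega), if_neg (by omega)]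

theorem verts_swp (l : List (Fin 4)) (i : ℕ) (hi : i + 1 < l.length) (v : V)
    (hv : v ∈ verts 0 (swp l i)) : v = nv l i ∨ v ∈ verts 0 l := by
  rw [mem_verts_zero] at hv
  obtain ⟨k, hk, rfl⟩ := hv
  rw [length_swp l i hi] at hk
  rw [vtx_swp l i hi]
  split_ifs with h1
  · exact Or.inl rfl
  · exact Or.inr ((mem_verts_zero l _).2 ⟨k, hk, rfl⟩)

theorem far_swp (q : ℝ) (l : List (Fin 4)) (h : IsSAP l) (h4 : 4 ≤ l.length) (i j : ℕ)
    (hi : i ∈ Fl l) (hj : j ∈ Fl l) (hij : Ni l i j) :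
    j ∈ Fl (swp l i) ∧ Ni (swp l i) i j ∧ sg q (swp l i) j = sg q l j := by
  have hi1 := ((mem_Fl l i).1 hi).1
  obtain ⟨hj1, hj2⟩ := (mem_Fl l j).1 hj
  obtain ⟨h1, h2⟩ := hij
  have h3 := nv_far l i j hi1 h1
  have hl := length_swp l i hi1
  have hj' : j ∈ Fl (swp l i) := by
    rw [mem_Fl, hl, h3]
    refine ⟨hj1, fun h5 => ?_⟩
    rcases verts_swp l i hi1 _ h5 with h6 | h6
    · exact h2 h6
    · exact hj2 h6
  refine ⟨hj', ⟨h1, ?_⟩, ?_⟩
  · rw [h3]
    intro h5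
    apply hj2
    rw [h5, mem_verts_zero]
    refine ⟨i + 1, hi1, ?_⟩
    rw [vtx_succ l i (by omega), nv, vtx_swp l i hi1, getD_swp l i hi1, if_neg (by omega),
      if_neg (by omega), if_pos rfl, List.getD_eq_getElem _ _ (by omega : i < l.length)]
  · have h5 := area_swp (swp l i) (isSAP_swp l h i hi) (by rw [hl]; exact h4) j hj'
    have h6 := area_swp l h h4 j hj
    rw [sgm_swp l h h4 i hi, getD_swp l i hi1, getD_swp l i hi1, if_neg (by omega),
      if_neg (by omega), if_neg (by omega), if_neg (by omega)] at h5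
    unfold sg
    by_cases h7 : area (swp l j) = area l + 1
    · rw [if_pos h7, if_pos (by omega)]
    · rw [if_neg h7, if_neg (by omega)]

theorem card_close (l : List (Fin 4)) (h : IsSAP l) (i : ℕ) (S : Finset ℕ) (hS : S ⊆ Fl l)
    (hN : ∀ j ∈ S, ¬ Ni l i j) : S.card ≤ 7 := by
  classical
  have h1 : S ⊆ Finset.Icc (i - 1) (i + 1) ∪ (Fl l).filter (fun j => nv l j = nv l i) := by
    intro j hj
    rw [Finset.mem_union, Finset.mem_Icc, Finset.mem_filter]
    by_contra h2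
    push Not at h2
    apply hN j hj
    refine ⟨by omega, h2.2 (hS hj)⟩
  have h2 : ((Fl l).filter (fun j => nv l j = nv l i)).card ≤ 4 := by
    have h3 : ((Fl l).filter (fun j => nv l j = nv l i)).card ≤
        ((Finset.univ : Finset (Fin 4)).image (fun a => nv l i - stp a)).card := by
      apply Finset.card_le_card_of_injOn (fun j => vtx l j)
      · intro j hj
        rw [Finset.mem_coe, Finset.mem_filter] at hj
        rw [Finset.mem_coe, Finset.mem_image]
        refine ⟨l.getD (j + 1) 0, Finset.mem_univ _, ?_⟩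
        rw [← hj.2, nv]
        abel
      · intro j hj k hk hjk
        rw [Finset.mem_coe, Finset.mem_filter, mem_Fl] at hj hk
        exact vtx_inj l h (by omega) (by omega) hjk
    refine h3.trans (Finset.card_image_le.trans ?_)
    simp
  have h3 : (Finset.Icc (i - 1) (i + 1)).card ≤ 3 := by
    rw [Nat.card_Icc]
    omega
  calc S.card ≤ _ := Finset.card_le_card h1
    _ ≤ _ := Finset.card_union_le _ _
    _ ≤ 7 := by omega

theorem sum_flip (n : ℕ) (h4 : 4 ≤ n) (F : List (Fin 4) → ℕ → ℝ) :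
    ∑ x ∈ (sap n).sigma Fl, F x.1 x.2 = ∑ x ∈ (sap n).sigma Fl, F (swp x.1 x.2) x.2 := by
  refine Finset.sum_bij' (fun x _ => ⟨swp x.1 x.2, x.2⟩) (fun x _ => ⟨swp x.1 x.2, x.2⟩)
    ?_ ?_ ?_ ?_ ?_
  · intro x hx
    rw [Finset.mem_sigma, mem_sap] at hx ⊢
    exact ⟨⟨by rw [length_swp _ _ ((mem_Fl _ _).1 hx.2).1]; exact hx.1.1,
      isSAP_swp _ hx.1.2 _ hx.2⟩, (swp_swp _ hx.1.2 _ hx.2).1⟩
  · intro x hx
    rw [Finset.mem_sigma, mem_sap] at hx ⊢
    exact ⟨⟨by rw [length_swp _ _ ((mem_Fl _ _).1 hx.2).1]; exact hx.1.1,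
      isSAP_swp _ hx.1.2 _ hx.2⟩, (swp_swp _ hx.1.2 _ hx.2).1⟩
  · intro x hx
    rw [Finset.mem_sigma, mem_sap] at hx
    exact Sigma.ext (swp_swp _ hx.1.2 _ hx.2).2 HEq.rfl
  · intro x hx
    rw [Finset.mem_sigma, mem_sap] at hx
    exact Sigma.ext (swp_swp _ hx.1.2 _ hx.2).2 HEq.rfl
  · intro x hx
    rw [Finset.mem_sigma, mem_sap] at hx
    simp only [(swp_swp _ hx.1.2 _ hx.2).2]

theorem sg_le (q : ℝ) (hq0 : 0 < q) (hq1 : q ≤ 1) (l : List (Fin 4)) (i : ℕ) :
    |sg q l i| ≤ 1 := by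
  unfold sg
  split_ifs
  · rw [abs_of_pos hq0]
    exact hq1
  · simp

theorem sum_sg (q : ℝ) (n : ℕ) (h4 : 4 ≤ n) :
    ∑ l ∈ sap n, q ^ area l * ∑ i ∈ Fl l, sg q l i = 0 := by
  have h1 := sum_flip n h4 (fun l i => q ^ area l * sg q l i)
  have h2 : ∑ x ∈ (sap n).sigma Fl, q ^ area (swp x.1 x.2) * sg q (swp x.1 x.2) x.2 =
      ∑ x ∈ (sap n).sigma Fl, -(q ^ area x.1 * sg q x.1 x.2) := by
    refine Finset.sum_congr rfl fun x hx => ?_
    rw [Finset.mem_sigma, mem_sap] at hx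
    exact sg_swp q x.1 hx.1.2 (by omega) x.2 hx.2
  rw [h2, Finset.sum_neg_distrib] at h1
  have h3 : ∑ x ∈ (sap n).sigma Fl, q ^ area x.1 * sg q x.1 x.2 = 0 := by linarith
  rw [Finset.sum_sigma] at h3
  rw [← h3]
  refine Finset.sum_congr rfl fun l _ => ?_
  rw [Finset.mul_sum]

theorem sum_area_sg (q : ℝ) (hq0 : 0 < q) (hq1 : q ≤ 1) (n : ℕ) (h4 : 4 ≤ n) :
    q / 2 * ∑ l ∈ sap n, ((Fl l).card : ℝ) * q ^ area l ≤
      -(∑ l ∈ sap n, (area l : ℝ) * (q ^ area l * ∑ i ∈ Fl l, sg q l i)) := by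
  have h1 := sum_flip n h4 (fun l i => (area l : ℝ) * (q ^ area l * sg q l i))
  have h2 : ∑ x ∈ (sap n).sigma Fl,
      (area (swp x.1 x.2) : ℝ) * (q ^ area (swp x.1 x.2) * sg q (swp x.1 x.2) x.2) =
      ∑ x ∈ (sap n).sigma Fl, -((area (swp x.1 x.2) : ℝ) * (q ^ area x.1 * sg q x.1 x.2)) := by
    refine Finset.sum_congr rfl fun x hx => ?_
    rw [Finset.mem_sigma, mem_sap] at hx
    rw [sg_swp q x.1 hx.1.2 (by omega) x.2 hx.2]
    ring
  rw [h2] at h1
  have h3 : ∑ x ∈ (sap n).sigma Fl, q * q ^ area x.1 ≤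
      ∑ x ∈ (sap n).sigma Fl, (-((area x.1 : ℝ) * (q ^ area x.1 * sg q x.1 x.2)) -
        (-((area (swp x.1 x.2) : ℝ) * (q ^ area x.1 * sg q x.1 x.2)))) := by
    refine Finset.sum_le_sum fun x hx => ?_
    rw [Finset.mem_sigma, mem_sap] at hx
    have h5 := area_swp_cases x.1 hx.1.2 (by omega) x.2 hx.2
    have h6 : 0 < q ^ area x.1 := pow_pos hq0 _
    unfold sg
    rcases h5 with h5 | h5
    · rw [if_pos h5, h5]
      push_cast
      nlinarith
    · rw [if_neg (by omega), ← h5]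
      rw [← h5] at h6
      push_cast
      nlinarith
  rw [Finset.sum_sub_distrib, ← h1, Finset.sum_neg_distrib] at h3
  have h4 : ∑ x ∈ (sap n).sigma Fl, (area x.1 : ℝ) * (q ^ area x.1 * sg q x.1 x.2) =
      ∑ l ∈ sap n, (area l : ℝ) * (q ^ area l * ∑ i ∈ Fl l, sg q l i) := by
    rw [Finset.sum_sigma]
    refine Finset.sum_congr rfl fun l _ => ?_
    rw [Finset.mul_sum, Finset.mul_sum]
  have h5 : ∑ x ∈ (sap n).sigma Fl, q * q ^ area x.1 =
      q * ∑ l ∈ sap n, ((Fl l).card : ℝ) * q ^ area l := by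
    rw [Finset.sum_sigma, Finset.mul_sum]
    refine Finset.sum_congr rfl fun l _ => ?_
    show ∑ _s ∈ Fl l, q * q ^ area l = _
    rw [Finset.sum_const, nsmul_eq_mul]
    ring
  rw [h4, h5] at h3
  linarith

theorem sum_sq_sg (q : ℝ) (hq0 : 0 < q) (hq1 : q ≤ 1) (n : ℕ) (h4 : 4 ≤ n) :
    ∑ l ∈ sap n, q ^ area l * (∑ i ∈ Fl l, sg q l i) ^ 2 ≤
      7 * ∑ l ∈ sap n, ((Fl l).card : ℝ) * q ^ area l := by
  classical
  set G : List (Fin 4) → ℕ → ℝ := fun l i =>
    ∑ j ∈ (Fl l).filter (fun j => Ni l i j), q ^ area l * sg q l i * sg q l j with hG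
  have h1 := sum_flip n h4 G
  have h2 : ∑ x ∈ (sap n).sigma Fl, G (swp x.1 x.2) x.2 = ∑ x ∈ (sap n).sigma Fl, -(G x.1 x.2) := by
    refine Finset.sum_congr rfl fun x hx => ?_
    obtain ⟨l, i⟩ := x
    rw [Finset.mem_sigma, mem_sap] at hx
    obtain ⟨⟨hx1, hx2⟩, hx3⟩ := hx
    have hl4 : 4 ≤ l.length := by
      dsimp only at hx1
      omega
    have hi1 := ((mem_Fl l i).1 hx3).1
    have hs := swp_swp l hx2 i hx3
    have hsap := isSAP_swp l hx2 i hx3
    simp only [hG]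
    have hfil : (Fl (swp l i)).filter (fun j => Ni (swp l i) i j) =
        (Fl l).filter (fun j => Ni l i j) := by
      ext j
      rw [Finset.mem_filter, Finset.mem_filter]
      constructor
      · rintro ⟨h5, h6⟩
        have h7 := far_swp q (swp l i) hsap (by rw [length_swp l i hi1]; exact hl4) i j hs.1 h5 h6
        rw [hs.2] at h7
        exact ⟨h7.1, h7.2.1⟩
      · rintro ⟨h5, h6⟩
        have h7 := far_swp q l hx2 hl4 i j hx3 h5 h6
        exact ⟨h7.1, h7.2.1⟩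
    rw [hfil, ← Finset.sum_neg_distrib]
    refine Finset.sum_congr rfl fun j hj => ?_
    rw [Finset.mem_filter] at hj
    rw [(far_swp q l hx2 hl4 i j hx3 hj.1 hj.2).2.2, sg_swp q l hx2 hl4 i hx3]
    ring
  rw [h2, Finset.sum_neg_distrib] at h1
  have h3 : ∑ x ∈ (sap n).sigma Fl, G x.1 x.2 = 0 := by linarith
  have h5 : ∀ l, q ^ area l * (∑ i ∈ Fl l, sg q l i) ^ 2 = ∑ i ∈ Fl l, (G l i +
      ∑ j ∈ (Fl l).filter (fun j => ¬ Ni l i j), q ^ area l * sg q l i * sg q l j) := by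
    intro l
    rw [sq, Finset.sum_mul_sum, Finset.mul_sum]
    refine Finset.sum_congr rfl fun i _ => ?_
    rw [hG]
    dsimp only
    rw [Finset.sum_filter_add_sum_filter_not, Finset.mul_sum]
    refine Finset.sum_congr rfl fun j _ => ?_
    ring
  simp only [h5, Finset.sum_add_distrib]
  rw [Finset.sum_sigma] at h3
  rw [h3, zero_add, Finset.mul_sum]
  refine Finset.sum_le_sum fun l hl => ?_
  rw [mem_sap] at hl
  have hw : 0 < q ^ area l := pow_pos hq0 _
  calc ∑ i ∈ Fl l, ∑ j ∈ (Fl l).filter (fun j => ¬ Ni l i j), q ^ area l * sg q l i * sg q l j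
      ≤ ∑ i ∈ Fl l, 7 * q ^ area l := by
        refine Finset.sum_le_sum fun i hi => ?_
        have h6 : ((Fl l).filter (fun j => ¬ Ni l i j)).card ≤ 7 := by
          apply card_close l hl.2 i _ (Finset.filter_subset _ _)
          intro j hj
          exact (Finset.mem_filter.1 hj).2
        calc ∑ j ∈ (Fl l).filter (fun j => ¬ Ni l i j), q ^ area l * sg q l i * sg q l j
            ≤ ∑ j ∈ (Fl l).filter (fun j => ¬ Ni l i j), q ^ area l := by
              refine Finset.sum_le_sum fun j _ => ?_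
              have e1 := sg_le q hq0 hq1 l i
              have e2 := sg_le q hq0 hq1 l j
              have e3 : sg q l i * sg q l j ≤ 1 := by
                have := abs_mul (sg q l i) (sg q l j)
                have e4 : |sg q l i * sg q l j| ≤ 1 := by
                  rw [this]
                  exact mul_le_one₀ e1 (abs_nonneg _) e2
                exact (abs_le.1 e4).2
              nlinarith
          _ = (((Fl l).filter (fun j => ¬ Ni l i j)).card : ℝ) * q ^ area l := by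
              rw [Finset.sum_const, nsmul_eq_mul]
          _ ≤ 7 * q ^ area l := by
              have : (((Fl l).filter (fun j => ¬ Ni l i j)).card : ℝ) ≤ 7 := by exact_mod_cast h6
              nlinarith
    _ = 7 * (((Fl l).card : ℝ) * q ^ area l) := by
        rw [Finset.sum_const, nsmul_eq_mul]
        ring

/-- covariance inequality for a weighted finite sum -/
theorem cov_le {ι : Type*} (S : Finset ι) (w A g : ι → ℝ) (hw : ∀ i ∈ S, 0 ≤ w i)
    (hg : ∑ i ∈ S, w i * g i = 0) :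
    (∑ i ∈ S, w i) ^ 2 * (∑ i ∈ S, A i * (w i * g i)) ^ 2 ≤
      (∑ i ∈ S, w i) * ((∑ i ∈ S, w i) * (∑ i ∈ S, A i ^ 2 * w i) - (∑ i ∈ S, A i * w i) ^ 2) *
        ∑ i ∈ S, w i * g i ^ 2 := by
  set Z := ∑ i ∈ S, w i with hZ
  set M := ∑ i ∈ S, A i * w i with hM
  have h1 := Finset.sum_sq_le_sum_mul_sum_of_sq_eq_mul S (r := fun i => w i * ((Z * A i - M) * g i))
    (f := fun i => w i * (Z * A i - M) ^ 2) (g := fun i => w i * g i ^ 2)
    (fun i hi => mul_nonneg (hw i hi) (sq_nonneg _)) (fun i hi => mul_nonneg (hw i hi) (sq_nonneg _))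
    (fun i _ => by ring)
  have h2 : ∑ i ∈ S, w i * ((Z * A i - M) * g i) = Z * ∑ i ∈ S, A i * (w i * g i) := by
    have e1 : ∀ i, w i * ((Z * A i - M) * g i) = Z * (A i * (w i * g i)) - M * (w i * g i) := by
      intro i
      ring
    simp only [e1, Finset.sum_sub_distrib, ← Finset.mul_sum, hg]
    ring
  have h3 : ∑ i ∈ S, w i * (Z * A i - M) ^ 2 = Z * (Z * (∑ i ∈ S, A i ^ 2 * w i) - M ^ 2) := by
    have e1 : ∀ i, w i * (Z * A i - M) ^ 2 =
        Z ^ 2 * (A i ^ 2 * w i) - 2 * Z * M * (A i * w i) + M ^ 2 * w i := by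
      intro i
      ring
    simp only [e1, Finset.sum_add_distrib, Finset.sum_sub_distrib, ← Finset.mul_sum]
    rw [← hZ, ← hM]
    ring
  rw [h2, h3] at h1
  linarith [h1]

theorem var_nonneg {ι : Type*} (S : Finset ι) (w A : ι → ℝ) (hw : ∀ i ∈ S, 0 ≤ w i) :
    0 ≤ (∑ i ∈ S, w i) * (∑ i ∈ S, A i ^ 2 * w i) - (∑ i ∈ S, A i * w i) ^ 2 := by
  have h1 := Finset.sum_sq_le_sum_mul_sum_of_sq_eq_mul S (r := fun i => A i * w i)
    (f := w) (g := fun i => A i ^ 2 * w i)
    hw (fun i hi => mul_nonneg (sq_nonneg _) (hw i hi))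
    (fun i _ => by ring)
  linarith

theorem var_alg (a q Z N M1 M2 X Y : ℝ) (ha : 0 < a) (hq : a ≤ q) (hZ0 : 0 ≤ Z) (hN0 : 0 ≤ N)
    (h2 : q / 2 * N ≤ -X) (h3 : Y ≤ 7 * N) (h4 : Z ^ 2 * X ^ 2 ≤ Z * (Z * M2 - M1 ^ 2) * Y)
    (h5 : 0 ≤ Z * M2 - M1 ^ 2) : a ^ 2 / 28 * Z * N ≤ Z * M2 - M1 ^ 2 := by
  have hq0 : 0 < q := lt_of_lt_of_le ha hq
  rcases eq_or_lt_of_le hZ0 with hz | hz
  · rw [← hz] at h5 ⊢
    simpa using h5
  rcases eq_or_lt_of_le hN0 with hn0 | hn0
  · rw [← hn0, mul_zero]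
    exact h5
  have h6 : Z ^ 2 * X ^ 2 ≤ Z * (Z * M2 - M1 ^ 2) * (7 * N) := by
    refine h4.trans ?_
    exact mul_le_mul_of_nonneg_left h3 (mul_nonneg hZ0 h5)
  have h7 : (q / 2 * N) ^ 2 ≤ X ^ 2 := by
    have e1 : 0 ≤ q / 2 * N := by positivity
    calc (q / 2 * N) ^ 2 ≤ (-X) ^ 2 := pow_le_pow_left₀ e1 h2 2
      _ = X ^ 2 := by ring
  have h8 : Z ^ 2 * (q / 2 * N) ^ 2 ≤ Z * (Z * M2 - M1 ^ 2) * (7 * N) :=
    (mul_le_mul_of_nonneg_left h7 (sq_nonneg Z)).trans h6
  have h9 : (Z * N) * (q ^ 2 / 28 * Z * N) ≤ (Z * N) * (Z * M2 - M1 ^ 2) := by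
    have e1 : (Z * N) * (q ^ 2 / 28 * Z * N) = Z ^ 2 * (q / 2 * N) ^ 2 / 7 := by ring
    have e2 : (Z * N) * (Z * M2 - M1 ^ 2) = Z * (Z * M2 - M1 ^ 2) * (7 * N) / 7 := by ring
    rw [e1, e2]
    exact div_le_div_of_nonneg_right h8 (by norm_num)
  have h10 : q ^ 2 / 28 * Z * N ≤ Z * M2 - M1 ^ 2 := le_of_mul_le_mul_left h9 (mul_pos hz hn0)
  refine le_trans ?_ h10
  have h11 : a ^ 2 ≤ q ^ 2 := pow_le_pow_left₀ ha.le hq 2
  have h12 : 0 ≤ Z * N := (mul_pos hz hn0).le
  have e3 : a ^ 2 / 28 * Z * N = a ^ 2 * (Z * N) / 28 := by ring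
  have e4 : q ^ 2 / 28 * Z * N = q ^ 2 * (Z * N) / 28 := by ring
  rw [e3, e4]
  exact div_le_div_of_nonneg_right (mul_le_mul_of_nonneg_right h11 h12) (by norm_num)

end VarAux

open VarAux in
/-- **Variance bound.** -/
theorem var_lower (a b : ℝ) (ha : 0 < a) (hab : a ≤ b) (hb : b < 1) : ∃ c : ℝ, 0 < c ∧
    ∀ q : ℝ, a ≤ q → q ≤ b → ∀ n : ℕ, 4 ≤ n →
      c * Zn n q * ∑ l ∈ sap n, ((Fl l).card : ℝ) * q ^ area l ≤
        Zn n q * ∑ l ∈ sap n, (area l : ℝ) ^ 2 * q ^ area l -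
          (∑ l ∈ sap n, (area l : ℝ) * q ^ area l) ^ 2 := by
  refine ⟨a ^ 2 / 28, by positivity, fun q hq1 hq2 n hn => ?_⟩
  have hq0 : 0 < q := lt_of_lt_of_le ha hq1
  have hq3 : q ≤ 1 := by linarith
  have hw : ∀ l ∈ sap n, 0 ≤ q ^ area l := fun l _ => (pow_pos hq0 _).le
  exact var_alg a q _ _ _ _ _ _ ha hq1 (Finset.sum_nonneg hw)
    (Finset.sum_nonneg fun l _ => mul_nonneg (Nat.cast_nonneg _) (pow_pos hq0 _).le)
    (sum_area_sg q hq0 hq3 n hn) (sum_sq_sg q hq0 hq3 n hn)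
    (cov_le (sap n) (fun l => q ^ area l) (fun l => (area l : ℝ))
      (fun l => ∑ i ∈ Fl l, sg q l i) hw (sum_sg q n hn))
    (var_nonneg (sap n) (fun l => q ^ area l) (fun l => (area l : ℝ)) hw)

/-- the square root bound, from the lower bound on the number of flippable corners -/
theorem var_sqrt_of (a b : ℝ) (ha : 0 < a) (hab : a ≤ b) (hb : b < 1)
    (ht : ∃ c : ℝ, 0 < c ∧ ∃ m₀ : ℕ, ∀ q : ℝ, a ≤ q → q ≤ b → ∀ m : ℕ, m₀ ≤ m →
      (m : ℝ) * ∑ l ∈ (sap (2 * m)).filter (fun l => ((Fl l).card : ℝ) ≤ c * Real.sqrt m),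
        q ^ area l ≤ Zn (2 * m) q) :
    ∃ c : ℝ, 0 < c ∧ ∃ m₀ : ℕ,
    ∀ q : ℝ, a ≤ q → q ≤ b → ∀ m : ℕ, m₀ ≤ m →
      c * Real.sqrt m * Zn (2 * m) q ^ 2 ≤
        Zn (2 * m) q * ∑ l ∈ sap (2 * m), (area l : ℝ) ^ 2 * q ^ area l -
          (∑ l ∈ sap (2 * m), (area l : ℝ) * q ^ area l) ^ 2 := by
  obtain ⟨c₁, hc₁, m₁, h1⟩ := ht
  obtain ⟨c₂, hc₂, h2⟩ := var_lower a b ha hab hb
  refine ⟨c₂ * (c₁ / 2), by positivity, max m₁ 2, fun q hq1 hq2 m hm => ?_⟩
  have hm1 : m₁ ≤ m := le_trans (le_max_left _ _) hm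
  have hm2 : 2 ≤ m := le_trans (le_max_right _ _) hm
  have hq0 : 0 < q := lt_of_lt_of_le ha hq1
  have h3 := h1 q hq1 hq2 m hm1
  have h4 := h2 q hq1 hq2 (2 * m) (by omega)
  refine le_trans ?_ h4
  have hZ0 : 0 ≤ Zn (2 * m) q := Finset.sum_nonneg fun l _ => (pow_pos hq0 _).le
  have hs : 0 ≤ ∑ l ∈ (sap (2 * m)).filter (fun l => ((Fl l).card : ℝ) ≤ c₁ * Real.sqrt m),
      q ^ area l := Finset.sum_nonneg fun l _ => (pow_pos hq0 _).le
  have hm' : (2 : ℝ) ≤ m := by exact_mod_cast hm2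
  have h5 : ∑ l ∈ (sap (2 * m)).filter (fun l => ((Fl l).card : ℝ) ≤ c₁ * Real.sqrt m),
      q ^ area l ≤ Zn (2 * m) q / 2 := by
    nlinarith
  have h6 : Zn (2 * m) q / 2 ≤
      ∑ l ∈ (sap (2 * m)).filter (fun l => ¬ ((Fl l).card : ℝ) ≤ c₁ * Real.sqrt m),
        q ^ area l := by
    have e1 := Finset.sum_filter_add_sum_filter_not (sap (2 * m))
      (fun l => ((Fl l).card : ℝ) ≤ c₁ * Real.sqrt m) (fun l => q ^ area l)
    have e2 : ∑ l ∈ sap (2 * m), q ^ area l = Zn (2 * m) q := rfl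
    linarith
  have hr : 0 ≤ c₁ * Real.sqrt m := by positivity
  have h7 : c₁ * Real.sqrt m * (Zn (2 * m) q / 2) ≤
      ∑ l ∈ sap (2 * m), ((Fl l).card : ℝ) * q ^ area l := by
    calc c₁ * Real.sqrt m * (Zn (2 * m) q / 2)
        ≤ c₁ * Real.sqrt m *
          ∑ l ∈ (sap (2 * m)).filter (fun l => ¬ ((Fl l).card : ℝ) ≤ c₁ * Real.sqrt m),
            q ^ area l := mul_le_mul_of_nonneg_left h6 hr
      _ = ∑ l ∈ (sap (2 * m)).filter (fun l => ¬ ((Fl l).card : ℝ) ≤ c₁ * Real.sqrt m),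
            c₁ * Real.sqrt m * q ^ area l := by rw [Finset.mul_sum]
      _ ≤ ∑ l ∈ (sap (2 * m)).filter (fun l => ¬ ((Fl l).card : ℝ) ≤ c₁ * Real.sqrt m),
            ((Fl l).card : ℝ) * q ^ area l := by
          refine Finset.sum_le_sum fun l hl => ?_
          rw [Finset.mem_filter, not_le] at hl
          exact mul_le_mul_of_nonneg_right hl.2.le (pow_pos hq0 _).le
      _ ≤ ∑ l ∈ sap (2 * m), ((Fl l).card : ℝ) * q ^ area l := by
          apply Finset.sum_le_sum_of_subset_of_nonneg (Finset.filter_subset _ _)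
          intro l _ _
          exact mul_nonneg (Nat.cast_nonneg _) (pow_pos hq0 _).le
  calc c₂ * (c₁ / 2) * Real.sqrt m * Zn (2 * m) q ^ 2
      = c₂ * Zn (2 * m) q * (c₁ * Real.sqrt m * (Zn (2 * m) q / 2)) := by ring
    _ ≤ c₂ * Zn (2 * m) q * ∑ l ∈ sap (2 * m), ((Fl l).card : ℝ) * q ^ area l :=
        mul_le_mul_of_nonneg_left h7 (mul_nonneg hc₂.le hZ0)

end Pool.Agent.Helper99.PT
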