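import Pool.Agent.Helper99.PT.Main
import Pool.Agent.Helper99.PT.Var
import Pool.Agent.Helper99.PT.Lse

/-!
# Finite volume: variance of the area and strong convexity of the logarithm of the partition function
-/

set_option autoImplicit false

namespace Pool.Agent.Helper99.PT

open Pool.Agent.Helper2.QP Filter


/-- the partition function in the variable `s = log q` -/
theorem Zn_exp (n : ℕ) (s : ℝ) :
    Zn n (Real.exp s) = ∑ l ∈ sap n, Real.exp (s * (area l : ℝ)) := by
  unfold Zn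
  refine Finset.sum_congr rfl fun l _ => ?_
  rw [← Real.exp_nat_mul]
  ring_nf

/-- the variance of the area is at least of order `√m` -/
theorem var_sqrt (a b : ℝ) (ha : 0 < a) (hab : a ≤ b) (hb : b < 1) : ∃ c : ℝ, 0 < c ∧ ∃ m₀ : ℕ,
    ∀ q : ℝ, a ≤ q → q ≤ b → ∀ m : ℕ, m₀ ≤ m →
      c * Real.sqrt m * Zn (2 * m) q ^ 2 ≤
        Zn (2 * m) q * ∑ l ∈ sap (2 * m), (area l : ℝ) ^ 2 * q ^ area l -
          (∑ l ∈ sap (2 * m), (area l : ℝ) * q ^ area l) ^ 2 :=
  var_sqrt_of a b ha hab hb (typical_mem a b ha hab hb (fun l => (Fl l).card) (by simp))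

/-- finite volume strong convexity -/
theorem conv_fin (a b : ℝ) (ha : 0 < a) (hab : a ≤ b) (hb : b < 1) : ∃ c : ℝ, 0 < c ∧ ∃ m₀ : ℕ,
    2 ≤ m₀ ∧ ∀ m : ℕ, m₀ ≤ m → ∀ u v t : ℝ, Real.log a ≤ u → u ≤ Real.log b → Real.log a ≤ v →
      v ≤ Real.log b → 0 ≤ t → t ≤ 1 →
      Real.log (Zn (2 * m) (Real.exp (t * u + (1 - t) * v))) +
          c * Real.sqrt m / 2 * (t * (1 - t)) * (u - v) ^ 2 ≤
        t * Real.log (Zn (2 * m) (Real.exp u)) + (1 - t) * Real.log (Zn (2 * m) (Real.exp v)) := by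
  obtain ⟨c, hc, m₀, hv⟩ := var_sqrt a b ha hab hb
  refine ⟨c, hc, max m₀ 2, le_max_right _ _, fun m hm u v t hu hu' hv1 hv' ht ht' => ?_⟩
  have hb0 : 0 < b := lt_of_lt_of_le ha hab
  have hne : (sap (2 * m)).Nonempty := by
    by_contra hne
    rw [Finset.not_nonempty_iff_eq_empty] at hne
    have h1 := Zn_lower (1/2) (by norm_num) m ((le_max_right _ _).trans hm)
    unfold Zn at h1
    rw [hne, Finset.sum_empty] at h1
    have : (0 : ℝ) < (1/2) ^ (m - 1) := by positivity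
    linarith
  simp only [Zn_exp]
  refine lse_strong (sap (2 * m)) hne (fun l => (area l : ℝ)) (c * Real.sqrt m) (Real.log a)
    (Real.log b) ?_ u v t hu hu' hv1 hv' ht ht'
  intro s hs1 hs2
  have hq1 : a ≤ Real.exp s := by
    rw [← Real.log_le_iff_le_exp ha]
    exact hs1
  have hq2 : Real.exp s ≤ b := by
    rw [← Real.le_log_iff_exp_le hb0]
    exact hs2
  have h := hv (Real.exp s) hq1 hq2 m ((le_max_left _ _).trans hm)
  rw [Zn_exp] at h
  have e : ∀ l : List (Fin 4), Real.exp s ^ area l = Real.exp (s * (area l : ℝ)) := by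
    intro l
    rw [← Real.exp_nat_mul]
    ring_nf
  simp only [e] at h
  exact h

end Pool.Agent.Helper99.PT
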