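import Pool.Agent.Helper99.PT.Surg
import Pool.Agent.Helper99.PT.Loc
import Pool.Agent.Helper2.QP.Jordan
import Pool.Agent.Helper2.QP.Count

/-!
# PT-RATIO: the ratio inequality

Paper proof.  A bump changes the length by `2` and the signed area by `crs r x`, the signed area of a unit
square; the sign `sg` of the orientation does not change.  With `bet q l = ∑_{bumps i} q ^ (-(sg * crs))`
(`= ∑ q ^ area (unbump l i) / q ^ area l`) one has the detailed balance (`ident`)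
`∑_{l ∈ sap n} w l ∑_{x ∈ Eb l} φ (bump l x) = ∑_{l ∈ sap (n + 2)} w l * bet l * φ l`.
Both `bet` and `card Eb` are sums of local functions, so a bump changes them by at most `D` (`feat_replace`).
With `S₁ = ∑_G w e / β`, `S₂ = ∑_G w (e / β) ^ 2` over the polygons `G` of size `m` with `e, β ≥ B = c √m`:
`first`: `(1 - D / B) (1 - 2 / (m + 1)) Z_{m+1} ≤ S₁`; `second`: `κ S₂ ≤ Z_{m+2}`; Cauchy-Schwarz gives
`S₁ ^ 2 ≤ Z_m S₂`.  `ratio_ineq_of` takes the two estimates for the polygons with few bumps and with few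
places for bumps (`typical`) as hypotheses.
-/

set_option autoImplicit false

namespace Pool.Agent.Helper99.PT

open Pool.Agent.Helper2.QP

namespace RatIneq

/-- The signed area of the parallelogram spanned by two steps. -/
def crs (r x : Fin 4) : ℤ := (stp r).1 * (stp x).2 - (stp x).1 * (stp r).2

theorem crs_cases (r x : Fin 4) : crs r x = -1 ∨ crs r x = 0 ∨ crs r x = 1 := by
  fin_cases r <;> fin_cases x <;> simp [crs, stp]

theorem xdy_ins (X Y : List (Fin 4)) (r x : Fin 4) :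
    xdy (X ++ [r, x, opp r] ++ Y) = xdy (X ++ [x] ++ Y) + crs r x := by
  have h1 : (stp r).1 * (stp r).2 = 0 := by fin_cases r <;> simp [stp]
  have h2 : dsp (X ++ [r, x, opp r]) = dsp (X ++ [x]) := by
    simp [dsp_append, dsp, stp_opp]
  unfold xdy
  rw [psum_append, psum_append xdyF 0 (X ++ [x]) Y, psum_append xdyF 0 X, psum_append xdyF 0 X, h2]
  simp only [psum, xdyF, stp_opp, crs, zero_add, Prod.fst_add, Prod.snd_neg, add_zero]
  linear_combination -h1

theorem take_getD_drop (l : List (Fin 4)) (i : ℕ) (hi : i < l.length) :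
    l.take i ++ [l.getD i 0] ++ l.drop (i + 1) = l := by
  rw [List.getD_eq_getElem _ _ hi, ← List.take_succ_eq_append_getElem hi, List.take_append_drop]

theorem take_three (l : List (Fin 4)) (i : ℕ) (hi : i + 2 < l.length) :
    l.take i ++ [l.getD i 0, l.getD (i + 1) 0, l.getD (i + 2) 0] ++ l.drop (i + 3) = l := by
  rw [List.getD_eq_getElem _ _ (by omega : i < l.length), List.getD_eq_getElem _ _ (by omega : i + 1 < l.length),
    List.getD_eq_getElem _ _ hi]
  have h1 : l.take i ++ [l[i], l[i + 1], l[i + 2]] = l.take (i + 3) := by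
    have e3 : l.take (i + 3) = l.take (i + 2) ++ [l[i + 2]] := List.take_succ_eq_append_getElem hi
    have e2 : l.take (i + 2) = l.take (i + 1) ++ [l[i + 1]] :=
      List.take_succ_eq_append_getElem (by omega)
    have e1 : l.take (i + 1) = l.take i ++ [l[i]] := List.take_succ_eq_append_getElem (by omega)
    rw [e3, e2, e1, List.append_assoc, List.append_assoc]
    rfl
  rw [h1, List.take_append_drop]

theorem xdy_bump (l : List (Fin 4)) (i : ℕ) (r : Fin 4) (hi : i < l.length) :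
    xdy (bump l i r) = xdy l + crs r (l.getD i 0) := by
  unfold bump
  rw [xdy_ins, take_getD_drop l i hi]

theorem mem_Bm (l : List (Fin 4)) (i : ℕ) :
    i ∈ Bm l ↔ i + 2 < l.length ∧ l.getD (i + 2) 0 = opp (l.getD i 0) := by
  simp only [Bm, Finset.mem_filter, Finset.mem_range]
  constructor
  · rintro ⟨h1, h2⟩
    exact ⟨by omega, h2⟩
  · rintro ⟨h1, h2⟩
    exact ⟨by omega, h2⟩

theorem xdy_unbump (l : List (Fin 4)) (i : ℕ) (hi : i ∈ Bm l) :
    xdy (unbump l i) = xdy l - crs (l.getD i 0) (l.getD (i + 1) 0) := by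
  rw [mem_Bm] at hi
  have h1 := xdy_ins (l.take i) (l.drop (i + 3)) (l.getD i 0) (l.getD (i + 1) 0)
  rw [← hi.2, take_three l i hi.1] at h1
  unfold unbump
  linarith

theorem xdy_ne_zero (l : List (Fin 4)) (h : IsSAP l) (h4 : 4 ≤ l.length) : xdy l ≠ 0 := by
  have h3 : 3 ≤ l.length := by omega
  obtain ⟨ε, hε, hc, -⟩ := jordan l h h4
  have hg := green xdyF xdyF_anti 0 l h.1 l.length (verts_bound l)
  have hx : xdy l = ∑ c ∈ Finset.Icc (-(l.length : ℤ)) l.length ×ˢ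
      Finset.Icc (-(l.length : ℤ)) l.length, wd 0 l c := by
    rw [xdy, hg]
    refine Finset.sum_congr rfl fun c _ => ?_
    rw [curl_xdy, mul_one]
  have h0 : (0 : ℕ) < l.length := by omega
  have hl := wd_left l h h3 0 h0
  have hr := wd_right l h h3 0 h0
  have hz := zero_mem l h h3
  have hex : ∃ c : V, c ∈ Finset.Icc (-(l.length : ℤ)) l.length ×ˢ
      Finset.Icc (-(l.length : ℤ)) l.length ∧ wd 0 l c ≠ 0 := by
    have hb : ∀ a : Fin 4, lft 0 a ∈ Finset.Icc (-(l.length : ℤ)) l.length ×ˢ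
        Finset.Icc (-(l.length : ℤ)) l.length ∧ rgt 0 a ∈ Finset.Icc (-(l.length : ℤ)) l.length ×ˢ
        Finset.Icc (-(l.length : ℤ)) l.length := by
      intro a
      have h5 : (4 : ℤ) ≤ l.length := by exact_mod_cast h4
      fin_cases a <;> simp [lft, rgt] <;> omega
    rw [vtx_zero] at *
    rcases hz with hz | hz
    · refine ⟨rgt 0 l[0], (hb _).2, ?_⟩
      rw [hr, hz]
      norm_num
    · refine ⟨lft 0 l[0], (hb _).1, ?_⟩
      rw [hz]
      norm_num
  obtain ⟨c₀, hc₀, hc₁⟩ := hex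
  intro h5
  have h6 : ∑ c ∈ Finset.Icc (-(l.length : ℤ)) l.length ×ˢ
      Finset.Icc (-(l.length : ℤ)) l.length, ε * wd 0 l c = 0 := by
    rw [← Finset.mul_sum, ← hx, h5, mul_zero]
  have h7 : ∀ c ∈ Finset.Icc (-(l.length : ℤ)) l.length ×ˢ
      Finset.Icc (-(l.length : ℤ)) (l.length : ℤ), 0 ≤ ε * wd 0 l c := by
    intro c _
    rcases hc c with h1 | h1 <;> rcases hε with h2 | h2 <;> rw [h1] <;> simp [h2]
  have h8 := (Finset.sum_eq_zero_iff_of_nonneg h7).1 h6 c₀ hc₀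
  rcases hε with h2 | h2 <;> rw [h2] at h8 <;> simp at h8 <;> exact hc₁ h8

/-- The sign of the orientation. -/
def sg (l : List (Fin 4)) : ℤ := (xdy l).sign

theorem area_eq (l : List (Fin 4)) : (area l : ℤ) = sg l * xdy l := by
  unfold area sg
  rw [Int.sign_mul_self_eq_natAbs]

theorem sg_cases (l : List (Fin 4)) (h : IsSAP l) (h4 : 4 ≤ l.length) : sg l = 1 ∨ sg l = -1 := by
  have h1 := xdy_ne_zero l h h4
  unfold sg
  rcases lt_trichotomy (xdy l) 0 with h2 | h2 | h2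
  · right; exact Int.sign_eq_neg_one_of_neg h2
  · exact absurd h2 h1
  · left; exact Int.sign_eq_one_of_pos h2

theorem sg_bump (l : List (Fin 4)) (h : IsSAP l) (h4 : 4 ≤ l.length) (x : ℕ × Fin 4) (hx : x ∈ Eb l) :
    sg (bump l x.1 x.2) = sg l := by
  have h1 := isSAP_bump l h h4 x hx
  have hi : x.1 < l.length := by
    simp only [Eb, Finset.mem_filter, Finset.mem_product, Finset.mem_range] at hx
    exact hx.1.1
  have hlen : 4 ≤ (bump l x.1 x.2).length := by
    simp only [bump, List.length_append, List.length_take, List.length_cons, List.length_nil,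
      List.length_drop]
    omega
  have h2 := xdy_ne_zero l h h4
  have h3 := xdy_ne_zero _ h1.1 hlen
  have h5 := xdy_bump l x.1 x.2 hi
  have h6 := crs_cases x.2 (l.getD x.1 0)
  unfold sg
  rcases lt_trichotomy (xdy l) 0 with h7 | h7 | h7
  · rw [Int.sign_eq_neg_one_of_neg h7, Int.sign_eq_neg_one_of_neg]
    omega
  · exact absurd h7 h2
  · rw [Int.sign_eq_one_of_pos h7, Int.sign_eq_one_of_pos]
    omega

open Classical in
/-- The number of directions in which the current edge can be bumped. -/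
noncomputable def phe (o : V → Prop) (s : List (Fin 4)) : ℝ :=
  ∑ r : Fin 4, if ¬ o (stp r) ∧ ¬ o (stp (s.getD 0 0) + stp r) then 1 else 0

/-- The weight of the bump at the current position. -/
noncomputable def phb (q : ℝ) (σ : ℤ) (_o : V → Prop) (s : List (Fin 4)) : ℝ :=
  if 2 < s.length ∧ s.getD 2 0 = opp (s.getD 0 0) then
    q ^ (-(σ * crs (s.getD 0 0) (s.getD 1 0))) else 0

/-- The bumps weighted with the change of the area. -/
noncomputable def bet (q : ℝ) (l : List (Fin 4)) : ℝ :=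
  ∑ i ∈ Bm l, q ^ (-(sg l * crs (l.getD i 0) (l.getD (i + 1) 0)))

theorem local_phe : Local phe := by
  intro o o' h s
  have hb : ∀ a : Fin 4, |(stp a).1| ≤ 1 ∧ |(stp a).2| ≤ 1 := stp_bound
  unfold phe
  refine Finset.sum_congr rfl fun r _ => ?_
  have h1 : o (stp r) ↔ o' (stp r) := h _ (by linarith [(hb r).1]) (by linarith [(hb r).2])
  have h2 : o (stp (s.getD 0 0) + stp r) ↔ o' (stp (s.getD 0 0) + stp r) := by
    refine h _ ?_ ?_
    · rw [Prod.fst_add]
      refine (abs_add_le _ _).trans ?_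
      linarith [(hb r).1, (hb (s.getD 0 0)).1]
    · rw [Prod.snd_add]
      refine (abs_add_le _ _).trans ?_
      linarith [(hb r).2, (hb (s.getD 0 0)).2]
  have h3 := and_congr (not_congr h1) (not_congr h2)
  by_cases h4 : ¬ o (stp r) ∧ ¬ o (stp (s.getD 0 0) + stp r)
  · rw [if_pos h4, if_pos (h3.1 h4)]
  · rw [if_neg h4, if_neg (fun h5 => h4 (h3.2 h5))]

theorem local_phb (q : ℝ) (σ : ℤ) : Local (phb q σ) := by
  intro o o' _ s
  rfl

theorem getD_win (l : List (Fin 4)) (i k : ℕ) (hk : k < 3) :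
    ((l.drop i).take 3).getD k 0 = l.getD (i + k) 0 := by
  rw [List.getD_eq_getElem?_getD, List.getElem?_take_of_lt hk, List.getElem?_drop,
    List.getD_eq_getElem?_getD]

theorem feat_phe (l : List (Fin 4)) : feat phe l = ((Eb l).card : ℝ) := by
  classical
  unfold feat Eb
  rw [Finset.card_filter, Finset.sum_product]
  push_cast
  refine Finset.sum_congr rfl fun i _ => ?_
  unfold phe
  refine Finset.sum_congr rfl fun r _ => ?_
  rw [getD_win l i 0 (by norm_num), add_zero]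
  simp only [add_assoc]
  by_cases h4 : vtx l i + stp r ∉ verts 0 l ∧ vtx l i + (stp (l.getD i 0) + stp r) ∉ verts 0 l
  · rw [if_pos h4, if_pos h4]
  · rw [if_neg h4, if_neg h4]

theorem feat_phb (q : ℝ) (l : List (Fin 4)) : feat (phb q (sg l)) l = bet q l := by
  have h1 : Bm l = (Finset.range l.length).filter
      (fun i => i + 2 < l.length ∧ l.getD (i + 2) 0 = opp (l.getD i 0)) := by
    ext i
    rw [mem_Bm, Finset.mem_filter, Finset.mem_range]
    constructor
    · rintro ⟨h1, h2⟩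
      exact ⟨by omega, h1, h2⟩
    · rintro ⟨_, h1, h2⟩
      exact ⟨h1, h2⟩
  unfold feat bet
  rw [h1, Finset.sum_filter]
  refine Finset.sum_congr rfl fun i _ => ?_
  unfold phb
  rw [getD_win l i 0 (by norm_num), getD_win l i 1 (by norm_num), getD_win l i 2 (by norm_num), add_zero]
  have h2 : (2 < ((l.drop i).take 3).length) ↔ i + 2 < l.length := by
    rw [List.length_take, List.length_drop]
    omega
  simp only [h2]

theorem zp (a q : ℝ) (ha : 0 < a) (haq : a ≤ q) (hq : q < 1) (k : ℤ) (hk : k = -1 ∨ k = 0 ∨ k = 1) :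
    a ≤ q ^ k ∧ q ^ k ≤ a⁻¹ := by
  have h0 : 0 < q := lt_of_lt_of_le ha haq
  have h1 : (1 : ℝ) ≤ a⁻¹ := (one_le_inv₀ ha).2 (by linarith)
  have h2 : q⁻¹ ≤ a⁻¹ := inv_anti₀ ha haq
  have h3 : (1 : ℝ) ≤ q⁻¹ := (one_le_inv₀ h0).2 hq.le
  rcases hk with rfl | rfl | rfl
  · rw [zpow_neg_one]
    exact ⟨by linarith, h2⟩
  · rw [zpow_zero]
    exact ⟨by linarith, h1⟩
  · rw [zpow_one]
    exact ⟨haq, by linarith⟩

theorem exp_cases (σ : ℤ) (hσ : σ = 1 ∨ σ = -1) (r x : Fin 4) :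
    -(σ * crs r x) = -1 ∨ -(σ * crs r x) = 0 ∨ -(σ * crs r x) = 1 := by
  rcases hσ with rfl | rfl <;> rcases crs_cases r x with h | h | h <;> rw [h] <;> simp

theorem abs_phe (o : V → Prop) (s : List (Fin 4)) : |phe o s| ≤ 4 := by
  classical
  unfold phe
  rw [abs_of_nonneg (Finset.sum_nonneg fun r _ => by split_ifs <;> norm_num)]
  refine (Finset.sum_le_sum (g := fun _ => (1 : ℝ)) fun r _ => by split_ifs <;> norm_num).trans ?_
  simp

theorem abs_phb (a q : ℝ) (ha : 0 < a) (haq : a ≤ q) (hq : q < 1) (σ : ℤ) (hσ : σ = 1 ∨ σ = -1)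
    (o : V → Prop) (s : List (Fin 4)) : |phb q σ o s| ≤ a⁻¹ := by
  have h0 : 0 < q := lt_of_lt_of_le ha haq
  unfold phb
  split_ifs with h
  · rw [abs_of_pos (zpow_pos h0 _)]
    exact (zp a q ha haq hq _ (exp_cases σ hσ _ _)).2
  · rw [abs_zero]
    exact (inv_pos.2 ha).le

theorem feat_bump (φ : (V → Prop) → List (Fin 4) → ℝ) (hφ : Local φ) (M : ℝ)
    (hM : ∀ o s, |φ o s| ≤ M) (l : List (Fin 4)) (h : IsSAP l) (h4 : 4 ≤ l.length)
    (x : ℕ × Fin 4) (hx : x ∈ Eb l) :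
    |feat φ (bump l x.1 x.2) - feat φ l| ≤ 2100 * M := by
  have hi : x.1 < l.length := by
    simp only [Eb, Finset.mem_filter, Finset.mem_product, Finset.mem_range] at hx
    exact hx.1.1
  have h1 := feat_replace φ hφ M hM (l.take x.1) [l.getD x.1 0] [x.2, l.getD x.1 0, opp x.2]
    (l.drop (x.1 + 1)) (by simp) (by simp) (by simp [dsp, stp_opp])
    (by rw [take_getD_drop l x.1 hi]; exact h) (isSAP_bump l h h4 x hx).1
  rw [take_getD_drop l x.1 hi] at h1
  exact h1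

theorem eb_bump (l : List (Fin 4)) (h : IsSAP l) (h4 : 4 ≤ l.length)
    (x : ℕ × Fin 4) (hx : x ∈ Eb l) :
    |((Eb (bump l x.1 x.2)).card : ℝ) - ((Eb l).card : ℝ)| ≤ 8400 := by
  have h1 := feat_bump phe local_phe 4 abs_phe l h h4 x hx
  rw [feat_phe, feat_phe] at h1
  linarith

theorem bet_bump (a q : ℝ) (ha : 0 < a) (haq : a ≤ q) (hq : q < 1) (l : List (Fin 4)) (h : IsSAP l)
    (h4 : 4 ≤ l.length) (x : ℕ × Fin 4) (hx : x ∈ Eb l) :
    |bet q (bump l x.1 x.2) - bet q l| ≤ 2100 * a⁻¹ := by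
  have h1 := feat_bump (phb q (sg l)) (local_phb q (sg l)) a⁻¹
    (abs_phb a q ha haq hq (sg l) (sg_cases l h h4)) l h h4 x hx
  rw [feat_phb, ← sg_bump l h h4 x hx, feat_phb] at h1
  exact h1

theorem bet_lower (a q : ℝ) (ha : 0 < a) (haq : a ≤ q) (hq : q < 1) (l : List (Fin 4)) (h : IsSAP l)
    (h4 : 4 ≤ l.length) : a * ((Bm l).card : ℝ) ≤ bet q l := by
  unfold bet
  rw [mul_comm, ← nsmul_eq_mul, ← Finset.sum_const]
  exact Finset.sum_le_sum fun i _ => (zp a q ha haq hq _ (exp_cases _ (sg_cases l h h4) _ _)).1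

theorem length_bump (l : List (Fin 4)) (i : ℕ) (r : Fin 4) (hi : i < l.length) :
    (bump l i r).length = l.length + 2 := by
  simp only [bump, List.length_append, List.length_take, List.length_cons, List.length_nil,
    List.length_drop]
  omega

theorem length_unbump (l : List (Fin 4)) (i : ℕ) (hi : i + 2 < l.length) :
    (unbump l i).length + 2 = l.length := by
  simp only [unbump, List.length_append, List.length_take, List.length_cons, List.length_nil,
    List.length_drop]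
  omega

theorem area_unbump (q : ℝ) (hq : 0 < q) (l : List (Fin 4)) (h : IsSAP l) (h6 : 6 ≤ l.length) (i : ℕ)
    (hi : i ∈ Bm l) :
    q ^ area l * q ^ (-(sg l * crs (l.getD i 0) (l.getD (i + 1) 0))) = q ^ area (unbump l i) := by
  obtain ⟨h1, h2, h3⟩ := isSAP_unbump l h h6 i hi
  have hlen := length_unbump l i ((mem_Bm l i).1 hi).1
  have h4 : sg l = sg (unbump l i) := by
    have h5 := sg_bump (unbump l i) h1 (by omega) (i, l.getD i 0) h2
    simp only [h3] at h5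
    exact h5
  have h5 : (area (unbump l i) : ℤ) = area l + -(sg l * crs (l.getD i 0) (l.getD (i + 1) 0)) := by
    rw [area_eq, area_eq, ← h4, xdy_unbump l i hi]
    ring
  rw [← zpow_natCast, ← zpow_add₀ hq.ne', ← h5, zpow_natCast]

theorem ident (q : ℝ) (hq : 0 < q) (n : ℕ) (hn : 4 ≤ n) (φ : List (Fin 4) → ℝ) :
    ∑ l ∈ sap n, q ^ area l * ∑ x ∈ Eb l, φ (bump l x.1 x.2) =
      ∑ l ∈ sap (n + 2), q ^ area l * bet q l * φ l := by
  have h1 : ∑ l ∈ sap n, q ^ area l * ∑ x ∈ Eb l, φ (bump l x.1 x.2) =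
      ∑ y ∈ (sap n).sigma (fun l => Eb l), q ^ area y.1 * φ (bump y.1 y.2.1 y.2.2) := by
    rw [Finset.sum_sigma]
    refine Finset.sum_congr rfl fun l _ => ?_
    rw [Finset.mul_sum]
  have h2 : ∑ l ∈ sap (n + 2), q ^ area l * bet q l * φ l =
      ∑ z ∈ (sap (n + 2)).sigma (fun l => Bm l), q ^ area (unbump z.1 z.2) * φ z.1 := by
    rw [Finset.sum_sigma]
    refine Finset.sum_congr rfl fun l hl => ?_
    rw [mem_sap] at hl
    rw [bet, Finset.mul_sum, Finset.sum_mul]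
    refine Finset.sum_congr rfl fun i hi => ?_
    rw [area_unbump q hq l hl.2 (by omega) i hi]
  rw [h1, h2]
  refine Finset.sum_bij' (fun y _ => ⟨bump y.1 y.2.1 y.2.2, y.2.1⟩)
    (fun z _ => ⟨unbump z.1 z.2, (z.2, z.1.getD z.2 0)⟩) ?_ ?_ ?_ ?_ ?_
  · rintro ⟨l, x⟩ hy
    rw [Finset.mem_sigma, mem_sap] at hy
    have hx : x ∈ Eb l := hy.2
    have hi : x.1 < l.length := by
      simp only [Eb, Finset.mem_filter, Finset.mem_product, Finset.mem_range] at hx
      exact hx.1.1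
    have h5 : l.length = n := hy.1.1
    have h3 := isSAP_bump l hy.1.2 (by omega) x hx
    rw [Finset.mem_sigma, mem_sap]
    exact ⟨⟨by rw [length_bump l _ _ hi]; exact congrArg (· + 2) hy.1.1, h3.1⟩, h3.2.1⟩
  · rintro ⟨l, i⟩ hz
    rw [Finset.mem_sigma, mem_sap] at hz
    have hi : i ∈ Bm l := hz.2
    have h5 : l.length = n + 2 := hz.1.1
    have h3 := isSAP_unbump l hz.1.2 (by omega) i hi
    have h4 := length_unbump l i ((mem_Bm l i).1 hi).1
    rw [Finset.mem_sigma, mem_sap]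
    exact ⟨⟨by show (unbump l i).length = n; omega, h3.1⟩, h3.2.1⟩
  · rintro ⟨l, x⟩ hy
    rw [Finset.mem_sigma, mem_sap] at hy
    have h5 : l.length = n := hy.1.1
    have h3 := isSAP_bump l hy.1.2 (by omega) x hy.2
    simp only [h3.2.2.1, h3.2.2.2]
  · rintro ⟨l, i⟩ hz
    rw [Finset.mem_sigma, mem_sap] at hz
    have h5 : l.length = n + 2 := hz.1.1
    have h3 := isSAP_unbump l hz.1.2 (by omega) i hz.2
    simp only [h3.2.2]
  · rintro ⟨l, x⟩ hy
    rw [Finset.mem_sigma, mem_sap] at hy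
    have h5 : l.length = n := hy.1.1
    have h3 := isSAP_bump l hy.1.2 (by omega) x hy.2
    simp only [h3.2.2.1]

theorem up (q : ℝ) (hq : 0 < q) (n : ℕ) (hn : 4 ≤ n) (g : List (Fin 4) → ℝ) (hg : ∀ l, 0 ≤ g l) :
    ∑ l ∈ sap n, q ^ area l * ∑ x ∈ Eb l, g (bump l x.1 x.2) * (bet q (bump l x.1 x.2))⁻¹ ≤
      ∑ l ∈ sap (n + 2), q ^ area l * g l := by
  rw [ident q hq n hn (fun l => g l * (bet q l)⁻¹)]
  refine Finset.sum_le_sum fun l _ => ?_
  have h1 : 0 ≤ q ^ area l := (pow_pos hq _).le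
  have h2 : bet q l * (bet q l)⁻¹ ≤ 1 := mul_inv_le_one
  calc q ^ area l * bet q l * (g l * (bet q l)⁻¹) = q ^ area l * g l * (bet q l * (bet q l)⁻¹) := by ring
    _ ≤ q ^ area l * g l * 1 := mul_le_mul_of_nonneg_left h2 (mul_nonneg h1 (hg l))
    _ = q ^ area l * g l := mul_one _

theorem bet_pos (a q : ℝ) (ha : 0 < a) (haq : a ≤ q) (hq : q < 1) (l : List (Fin 4)) (h : IsSAP l)
    (h4 : 4 ≤ l.length) (x : ℕ × Fin 4) (hx : x ∈ Eb l) : 0 < bet q (bump l x.1 x.2) := by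
  have h1 := isSAP_bump l h h4 x hx
  have hi : x.1 < l.length := by
    simp only [Eb, Finset.mem_filter, Finset.mem_product, Finset.mem_range] at hx
    exact hx.1.1
  have h2 := bet_lower a q ha haq hq _ h1.1 (by rw [length_bump l _ _ hi]; omega)
  have h3 : (1 : ℝ) ≤ ((Bm (bump l x.1 x.2)).card : ℝ) := by
    exact_mod_cast Finset.card_pos.2 ⟨_, h1.2.1⟩
  nlinarith

theorem bet_nonneg (q : ℝ) (hq : 0 < q) (l : List (Fin 4)) : 0 ≤ bet q l :=
  Finset.sum_nonneg fun _ _ => (zpow_pos hq _).le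

/-- The second moment is bounded by the partition function two sizes up. -/
theorem second (a q D B : ℝ) (ha : 0 < a) (haq : a ≤ q) (hq : q < 1) (hD1 : 8400 ≤ D)
    (hD2 : 2100 * a⁻¹ ≤ D) (hDB : D ≤ B) (n : ℕ) (hn : 4 ≤ n) :
    (1 - D / B) / ((1 + 2 * (D / B)) * (1 + D / B)) *
      ∑ l ∈ (sap n).filter (fun l => B ≤ bet q l ∧ B ≤ ((Eb l).card : ℝ)),
        q ^ area l * (((Eb l).card : ℝ) / bet q l) ^ 2 ≤ Zn (n + 4) q := by
  have h0 : 0 < q := lt_of_lt_of_le ha haq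
  have hD : 0 < D := by linarith
  have hB : 0 < B := by linarith
  set t := D / B with ht
  have ht0 : 0 ≤ t := by positivity
  have ht1 : t ≤ 1 := (div_le_one hB).2 hDB
  have hDt : D = t * B := by rw [ht]; field_simp
  -- first application
  have s1 : ∑ l ∈ sap (n + 2), q ^ area l * (((Eb l).card : ℝ) * (bet q l + D)⁻¹) ≤ Zn (n + 4) q := by
    have h1 := up q h0 (n + 2) (by omega) (fun _ => 1) (fun _ => zero_le_one)
    have h2 : ∑ l ∈ sap (n + 2 + 2), q ^ area l * (1 : ℝ) = Zn (n + 4) q := by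
      unfold Zn
      exact Finset.sum_congr rfl fun l _ => mul_one _
    rw [← h2]
    refine le_trans (Finset.sum_le_sum fun l hl => ?_) h1
    rw [mem_sap] at hl
    refine mul_le_mul_of_nonneg_left ?_ (pow_pos h0 _).le
    rw [← nsmul_eq_mul, ← Finset.sum_const]
    refine Finset.sum_le_sum fun x hx => ?_
    rw [one_mul]
    have h3 := bet_pos a q ha haq hq l hl.2 (by omega) x hx
    have h4 := abs_le.1 (bet_bump a q ha haq hq l hl.2 (by omega) x hx)
    exact inv_anti₀ h3 (by linarith [h4.2])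
  -- second application
  have s2 := up q h0 n hn (fun l => ((Eb l).card : ℝ) * (bet q l + D)⁻¹) (fun l =>
    mul_nonneg (Nat.cast_nonneg _) (inv_nonneg.2 (by linarith [bet_nonneg q h0 l])))
  refine le_trans ?_ (s2.trans s1)
  rw [Finset.mul_sum]
  refine le_trans ?_ (Finset.sum_le_sum_of_subset_of_nonneg (Finset.filter_subset
    (fun l => B ≤ bet q l ∧ B ≤ ((Eb l).card : ℝ)) (sap n)) fun l _ _ => ?_)
  · refine Finset.sum_le_sum fun l hl => ?_
    rw [Finset.mem_filter, mem_sap] at hl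
    obtain ⟨⟨hlen, hsap⟩, hb, he⟩ := hl
    have hw : 0 ≤ q ^ area l := (pow_pos h0 _).le
    have hbp : 0 < bet q l := by linarith
    set e : ℝ := ((Eb l).card : ℝ) with hedef
    set β := bet q l with hβ
    -- each term
    have h5 : ∀ x ∈ Eb l, (e - D) * (β + 2 * D)⁻¹ * (β + D)⁻¹ ≤
        ((Eb (bump l x.1 x.2)).card : ℝ) * (bet q (bump l x.1 x.2) + D)⁻¹ *
          (bet q (bump l x.1 x.2))⁻¹ := by
      intro x hx
      have h3 := bet_pos a q ha haq hq l hsap (by omega) x hx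
      have h4 := abs_le.1 (bet_bump a q ha haq hq l hsap (by omega) x hx)
      have h6 := abs_le.1 (eb_bump l hsap (by omega) x hx)
      have h7 : e - D ≤ ((Eb (bump l x.1 x.2)).card : ℝ) := by linarith [h6.1]
      have h8 : (β + 2 * D)⁻¹ ≤ (bet q (bump l x.1 x.2) + D)⁻¹ :=
        inv_anti₀ (by linarith) (by linarith [h4.2])
      have h9 : (β + D)⁻¹ ≤ (bet q (bump l x.1 x.2))⁻¹ :=
        inv_anti₀ h3 (by linarith [h4.2])
      have h10 : 0 ≤ e - D := by linarith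
      have h11 : 0 ≤ (β + 2 * D)⁻¹ := inv_nonneg.2 (by linarith)
      have h12 : 0 ≤ (β + D)⁻¹ := inv_nonneg.2 (by linarith)
      exact mul_le_mul (mul_le_mul h7 h8 h11 (by linarith)) h9 h12
        (mul_nonneg (by linarith) (h11.trans h8))
    have h13 : e * ((e - D) * (β + 2 * D)⁻¹ * (β + D)⁻¹) ≤ ∑ x ∈ Eb l,
        ((Eb (bump l x.1 x.2)).card : ℝ) * (bet q (bump l x.1 x.2) + D)⁻¹ *
          (bet q (bump l x.1 x.2))⁻¹ := by
      rw [hedef, ← nsmul_eq_mul, ← Finset.sum_const]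
      exact Finset.sum_le_sum h5
    have h14 : (1 - t) / ((1 + 2 * t) * (1 + t)) * (e / β) ^ 2 ≤
        e * ((e - D) * (β + 2 * D)⁻¹ * (β + D)⁻¹) := by
      have h15 : (1 - t) * e ≤ e - D := by rw [hDt]; nlinarith
      have h16 : ((1 + 2 * t) * β)⁻¹ ≤ (β + 2 * D)⁻¹ := by
        refine inv_anti₀ (by linarith) ?_
        rw [hDt]
        nlinarith
      have h17 : ((1 + t) * β)⁻¹ ≤ (β + D)⁻¹ := by
        refine inv_anti₀ (by linarith) ?_
        rw [hDt]
        nlinarith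
      have h18 : (1 - t) / ((1 + 2 * t) * (1 + t)) * (e / β) ^ 2 =
          e * (((1 - t) * e) * ((1 + 2 * t) * β)⁻¹ * ((1 + t) * β)⁻¹) := by
        have h19 : 1 + 2 * t ≠ 0 := by positivity
        have h20 : 1 + t ≠ 0 := by positivity
        field_simp
      rw [h18]
      have h21 : 0 ≤ e := by linarith
      have h22 : 0 ≤ (1 - t) * e := mul_nonneg (by linarith) h21
      have h23 : 0 ≤ ((1 + 2 * t) * β)⁻¹ := by positivity
      have h24 : 0 ≤ ((1 + t) * β)⁻¹ := by positivity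
      refine mul_le_mul_of_nonneg_left ?_ h21
      exact mul_le_mul (mul_le_mul h15 h16 h23 (by linarith)) h17 h24
        (mul_nonneg (by linarith) (h23.trans h16))
    calc (1 - t) / ((1 + 2 * t) * (1 + t)) * (q ^ area l * (e / β) ^ 2)
        = q ^ area l * ((1 - t) / ((1 + 2 * t) * (1 + t)) * (e / β) ^ 2) := by ring
      _ ≤ _ := mul_le_mul_of_nonneg_left (h14.trans h13) hw
  · refine mul_nonneg (pow_pos h0 _).le (Finset.sum_nonneg fun x _ => ?_)
    exact mul_nonneg (mul_nonneg (Nat.cast_nonneg _) (inv_nonneg.2 (by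
      linarith [bet_nonneg q h0 (bump l x.1 x.2)]))) (inv_nonneg.2 (bet_nonneg q h0 _))

/-- The first moment is bounded below by the partition function one size up. -/
theorem first (a q D B θ : ℝ) (ha : 0 < a) (haq : a ≤ q) (hq : q < 1) (hD1 : 8400 ≤ D)
    (hD2 : 2100 * a⁻¹ ≤ D) (hDB : D < B) (n : ℕ) (hn : 4 ≤ n) (hθ : 2 * B ≤ a * θ) :
    (1 - D / B) * ∑ l ∈ (sap (n + 2)).filter (fun l => θ < ((Bm l).card : ℝ) ∧ θ < ((Eb l).card : ℝ)),
        q ^ area l ≤
      ∑ l ∈ (sap n).filter (fun l => B ≤ bet q l ∧ B ≤ ((Eb l).card : ℝ)),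
        q ^ area l * (((Eb l).card : ℝ) / bet q l) := by
  have h0 : 0 < q := lt_of_lt_of_le ha haq
  have hD : 0 < D := by linarith
  have hB : 0 < B := by linarith
  have ht1 : 0 < 1 - D / B := by
    have := (div_lt_one hB).2 hDB
    linarith
  have hid := ident q h0 n hn (fun l => if θ < ((Bm l).card : ℝ) ∧ θ < ((Eb l).card : ℝ) then
    (bet q l)⁻¹ else 0)
  have h1 : ∑ l ∈ sap (n + 2), q ^ area l * bet q l *
      (if θ < ((Bm l).card : ℝ) ∧ θ < ((Eb l).card : ℝ) then (bet q l)⁻¹ else 0) =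
      ∑ l ∈ (sap (n + 2)).filter (fun l => θ < ((Bm l).card : ℝ) ∧ θ < ((Eb l).card : ℝ)),
        q ^ area l := by
    rw [Finset.sum_filter]
    refine Finset.sum_congr rfl fun l hl => ?_
    rw [mem_sap] at hl
    split_ifs with h2
    · have h3 := bet_lower a q ha haq hq l hl.2 (by omega)
      have h4 : 0 < bet q l := by nlinarith [h2.1]
      rw [mul_assoc, mul_inv_cancel₀ h4.ne', mul_one]
    · rw [mul_zero]
  rw [← h1, ← hid, Finset.mul_sum, Finset.sum_filter]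
  refine Finset.sum_le_sum fun l hl => ?_
  rw [mem_sap] at hl
  have hw : 0 ≤ q ^ area l := (pow_pos h0 _).le
  -- the terms
  have h5 : ∀ x ∈ Eb l, (1 - D / B) * (if θ < ((Bm (bump l x.1 x.2)).card : ℝ) ∧
      θ < ((Eb (bump l x.1 x.2)).card : ℝ) then (bet q (bump l x.1 x.2))⁻¹ else 0) ≤
      if B ≤ bet q l ∧ B ≤ ((Eb l).card : ℝ) then (bet q l)⁻¹ else 0 := by
    intro x hx
    have h3 := bet_pos a q ha haq hq l hl.2 (by omega) x hx
    have h4 := abs_le.1 (bet_bump a q ha haq hq l hl.2 (by omega) x hx)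
    have h6 := abs_le.1 (eb_bump l hl.2 (by omega) x hx)
    by_cases h7 : θ < ((Bm (bump l x.1 x.2)).card : ℝ) ∧ θ < ((Eb (bump l x.1 x.2)).card : ℝ)
    · have hi : x.1 < l.length := by
        have hx' := hx
        simp only [Eb, Finset.mem_filter, Finset.mem_product, Finset.mem_range] at hx'
        exact hx'.1.1
      have h8 := bet_lower a q ha haq hq _ (isSAP_bump l hl.2 (by omega) x hx).1
        (by rw [length_bump l _ _ hi]; omega)
      have h9 : 2 * B ≤ bet q (bump l x.1 x.2) := by nlinarith [h7.1]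
      have h10 : B ≤ bet q l := by linarith [h4.2]
      have haθ : a * θ ≤ θ := by
        have : 0 < θ := by
          by_contra hneg
          nlinarith
        nlinarith
      have h11 : B ≤ ((Eb l).card : ℝ) := by linarith [h6.2, h7.2]
      rw [if_pos h7, if_pos ⟨h10, h11⟩]
      have h12 : 0 < bet q l := by linarith
      have h13 : (1 - D / B) * bet q l ≤ bet q (bump l x.1 x.2) := by
        have h14 : D ≤ D / B * bet q l := by
          rw [div_mul_eq_mul_div, le_div_iff₀ hB]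
          nlinarith
        nlinarith [h4.1]
      rw [← div_eq_mul_inv, div_le_iff₀ h3, inv_mul_eq_div, le_div_iff₀ h12]
      exact h13
    · rw [if_neg h7, mul_zero]
      split_ifs with h8
      · exact inv_nonneg.2 (bet_nonneg q h0 l)
      · exact le_rfl
  calc (1 - D / B) * (q ^ area l * ∑ x ∈ Eb l, (if θ < ((Bm (bump l x.1 x.2)).card : ℝ) ∧
      θ < ((Eb (bump l x.1 x.2)).card : ℝ) then (bet q (bump l x.1 x.2))⁻¹ else 0))
      = q ^ area l * ∑ x ∈ Eb l, (1 - D / B) * (if θ < ((Bm (bump l x.1 x.2)).card : ℝ) ∧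
      θ < ((Eb (bump l x.1 x.2)).card : ℝ) then (bet q (bump l x.1 x.2))⁻¹ else 0) := by
        rw [← Finset.mul_sum]; ring
    _ ≤ q ^ area l * ∑ _x ∈ Eb l, (if B ≤ bet q l ∧ B ≤ ((Eb l).card : ℝ) then (bet q l)⁻¹ else 0) :=
        mul_le_mul_of_nonneg_left (Finset.sum_le_sum h5) hw
    _ = if B ≤ bet q l ∧ B ≤ ((Eb l).card : ℝ) then
          q ^ area l * (((Eb l).card : ℝ) / bet q l) else 0 := by
        rw [Finset.sum_const, nsmul_eq_mul]
        split_ifs
        · rw [div_eq_mul_inv]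
        · rw [mul_zero, mul_zero]

theorem rat_num (t s u : ℝ) (ht : 0 ≤ t) (hs : 0 ≤ s) (hsu : 2 * s ≤ u) (hu : 6 * t + u ≤ 1) :
    1 - 6 * t - u ≤ (1 - t) / ((1 + 2 * t) * (1 + t)) * ((1 - t) * (1 - s)) ^ 2 := by
  have h1 : 1 - 6 * t ≤ (1 - t) ^ 3 / ((1 + 2 * t) * (1 + t)) := by
    rw [le_div_iff₀ (by positivity)]
    nlinarith [mul_nonneg ht ht, mul_nonneg (mul_nonneg ht ht) ht]
  have h2 : 1 - u ≤ (1 - s) ^ 2 := by nlinarith [sq_nonneg s]
  have h3 : (1 - t) / ((1 + 2 * t) * (1 + t)) * ((1 - t) * (1 - s)) ^ 2 =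
      (1 - t) ^ 3 / ((1 + 2 * t) * (1 + t)) * (1 - s) ^ 2 := by ring
  rw [h3]
  have h4 : 0 ≤ u := by linarith
  calc 1 - 6 * t - u ≤ (1 - 6 * t) * (1 - u) := by nlinarith [mul_nonneg ht h4]
    _ ≤ _ := mul_le_mul h1 h2 (by linarith) ((by linarith : (0 : ℝ) ≤ 1 - 6 * t).trans h1)

/-- The polygons with many bumps and many places for bumps carry most of the weight. -/
theorem good_weight (q c c₁ c₂ : ℝ) (hq : 0 < q) (h1 : c ≤ c₁) (h2 : c ≤ c₂) (m : ℕ) (hm : 0 < m)
    (hB : (m : ℝ) * ∑ l ∈ (sap (2 * m)).filter (fun l => ((Bm l).card : ℝ) ≤ c₁ * Real.sqrt m),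
      q ^ area l ≤ Zn (2 * m) q)
    (hE : (m : ℝ) * ∑ l ∈ (sap (2 * m)).filter (fun l => ((Eb l).card : ℝ) ≤ c₂ * Real.sqrt m),
      q ^ area l ≤ Zn (2 * m) q) :
    (1 - 2 / (m : ℝ)) * Zn (2 * m) q ≤ ∑ l ∈ (sap (2 * m)).filter (fun l =>
      c * Real.sqrt m < ((Bm l).card : ℝ) ∧ c * Real.sqrt m < ((Eb l).card : ℝ)), q ^ area l := by
  have hm' : (0 : ℝ) < m := by exact_mod_cast hm
  have hs : 0 ≤ Real.sqrt m := Real.sqrt_nonneg _
  set S1 := ∑ l ∈ (sap (2 * m)).filter (fun l => ((Bm l).card : ℝ) ≤ c₁ * Real.sqrt m), q ^ area l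
    with hS1
  set S2 := ∑ l ∈ (sap (2 * m)).filter (fun l => ((Eb l).card : ℝ) ≤ c₂ * Real.sqrt m), q ^ area l
    with hS2
  have h3 : Zn (2 * m) q ≤ (∑ l ∈ (sap (2 * m)).filter (fun l =>
      c * Real.sqrt m < ((Bm l).card : ℝ) ∧ c * Real.sqrt m < ((Eb l).card : ℝ)), q ^ area l) +
        (S1 + S2) := by
    unfold Zn
    rw [hS1, hS2, Finset.sum_filter, Finset.sum_filter, Finset.sum_filter, ← Finset.sum_add_distrib,
      ← Finset.sum_add_distrib]
    refine Finset.sum_le_sum fun l _ => ?_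
    have hw : 0 ≤ q ^ area l := (pow_pos hq _).le
    by_cases h4 : ((Bm l).card : ℝ) ≤ c₁ * Real.sqrt m
    · rw [if_pos h4]
      split_ifs <;> linarith
    · by_cases h5 : ((Eb l).card : ℝ) ≤ c₂ * Real.sqrt m
      · rw [if_pos h5]
        split_ifs <;> linarith
      · rw [if_neg h4, if_neg h5, if_pos]
        · linarith
        · push Not at h4 h5
          exact ⟨lt_of_le_of_lt (mul_le_mul_of_nonneg_right h1 hs) h4,
            lt_of_le_of_lt (mul_le_mul_of_nonneg_right h2 hs) h5⟩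
  have h4 : S1 ≤ Zn (2 * m) q / m := by
    rw [le_div_iff₀ hm', mul_comm]
    exact hB
  have h5 : S2 ≤ Zn (2 * m) q / m := by
    rw [le_div_iff₀ hm', mul_comm]
    exact hE
  have h6 : (1 - 2 / (m : ℝ)) * Zn (2 * m) q = Zn (2 * m) q - Zn (2 * m) q / m - Zn (2 * m) q / m := by
    ring
  rw [h6]
  linarith

end RatIneq

open RatIneq in
theorem ratio_ineq_of (a b : ℝ) (ha : 0 < a) (hab : a ≤ b) (hb : b < 1)
    (HB : ∃ c : ℝ, 0 < c ∧ ∃ m₀ : ℕ, ∀ q : ℝ, a ≤ q → q ≤ b → ∀ m : ℕ, m₀ ≤ m →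
      (m : ℝ) * ∑ l ∈ (sap (2 * m)).filter (fun l => ((Bm l).card : ℝ) ≤ c * Real.sqrt m), q ^ area l ≤
        Zn (2 * m) q)
    (HE : ∃ c : ℝ, 0 < c ∧ ∃ m₀ : ℕ, ∀ q : ℝ, a ≤ q → q ≤ b → ∀ m : ℕ, m₀ ≤ m →
      (m : ℝ) * ∑ l ∈ (sap (2 * m)).filter (fun l => ((Eb l).card : ℝ) ≤ c * Real.sqrt m), q ^ area l ≤
        Zn (2 * m) q) : ∃ C : ℝ, 0 < C ∧ ∃ m₀ : ℕ,
    ∀ q : ℝ, a ≤ q → q ≤ b → ∀ m : ℕ, m₀ ≤ m →
      (1 - C / Real.sqrt m) * Zn (2 * (m + 1)) q ^ 2 ≤ Zn (2 * m) q * Zn (2 * (m + 2)) q := by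
  obtain ⟨c₁, hc₁, m₁, H1⟩ := HB
  obtain ⟨c₂, hc₂, m₂, H2⟩ := HE
  set c := min c₁ c₂ with hc
  have hc0 : 0 < c := lt_min hc₁ hc₂
  set D : ℝ := 8400 * a⁻¹ with hD
  have ha1 : a < 1 := by linarith
  have hainv : (1 : ℝ) ≤ a⁻¹ := (one_le_inv₀ ha).2 ha1.le
  have hD1 : 8400 ≤ D := by rw [hD]; linarith
  have hD2 : 2100 * a⁻¹ ≤ D := by rw [hD]; linarith
  have hD0 : 0 < D := by linarith
  refine ⟨12 * D / (a * c) + 4, by positivity, max (max m₁ m₂) 2, ?_⟩
  intro q haq hqb m hm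
  have hq0 : 0 < q := lt_of_lt_of_le ha haq
  have hq1 : q < 1 := lt_of_le_of_lt hqb hb
  have hm1 : m₁ ≤ m + 1 := by have := le_max_left m₁ m₂; have := le_max_left (max m₁ m₂) 2; omega
  have hm2 : m₂ ≤ m + 1 := by have := le_max_right m₁ m₂; have := le_max_left (max m₁ m₂) 2; omega
  have hm3 : 2 ≤ m := by have := le_max_right (max m₁ m₂) 2; omega
  have hZ0 : 0 ≤ Zn (2 * m) q := cut_Zn_nonneg q hq0 _
  have hZ1 : 0 ≤ Zn (2 * (m + 1)) q := cut_Zn_nonneg q hq0 _
  have hZ2 : 0 ≤ Zn (2 * (m + 2)) q := cut_Zn_nonneg q hq0 _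
  set C := 12 * D / (a * c) + 4 with hC
  by_cases hneg : 1 - C / Real.sqrt m ≤ 0
  · have h1 : (1 - C / Real.sqrt m) * Zn (2 * (m + 1)) q ^ 2 ≤ 0 :=
      mul_nonpos_of_nonpos_of_nonneg hneg (sq_nonneg _)
    exact h1.trans (mul_nonneg hZ0 hZ2)
  push Not at hneg
  have hmr : (2 : ℝ) ≤ m := by exact_mod_cast hm3
  have hs0 : 0 < Real.sqrt m := Real.sqrt_pos.2 (by linarith)
  set B : ℝ := a * c / 2 * Real.sqrt m with hB
  have hB0 : 0 < B := by positivity
  set t := D / B with ht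
  have ht0 : 0 ≤ t := by positivity
  have ht6 : 6 * t + 4 / Real.sqrt m = C / Real.sqrt m := by
    rw [ht, hB, hC]
    field_simp
    ring
  have h4s : 0 < 4 / Real.sqrt m := by positivity
  have htlt : t < 1 / 6 := by linarith
  have hDB : D < B := by
    have h1 : D / B < 1 := by linarith
    exact (div_lt_one hB0).1 h1
  -- the good polygons
  have hg := good_weight q c c₁ c₂ hq0 (min_le_left _ _) (min_le_right _ _) (m + 1) (by omega)
    (H1 q haq hqb (m + 1) hm1) (H2 q haq hqb (m + 1) hm2)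
  have hθ : 2 * B ≤ a * (c * Real.sqrt ((m + 1 : ℕ) : ℝ)) := by
    have h1 : Real.sqrt m ≤ Real.sqrt ((m + 1 : ℕ) : ℝ) :=
      Real.sqrt_le_sqrt (by push_cast; linarith)
    have h2 : 2 * B = a * c * Real.sqrt m := by rw [hB]; ring
    rw [h2, ← mul_assoc]
    exact mul_le_mul_of_nonneg_left h1 (by positivity)
  have hf := first a q D B _ ha haq hq1 hD1 hD2 hDB (2 * m) (by omega) hθ
  have hse := second a q D B ha haq hq1 hD1 hD2 hDB.le (2 * m) (by omega)
  rw [show 2 * m + 2 = 2 * (m + 1) by ring] at hf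
  rw [show 2 * m + 4 = 2 * (m + 2) by ring, ← ht] at hse
  rw [← ht] at hf
  set G := (sap (2 * m)).filter (fun l => B ≤ bet q l ∧ B ≤ ((Eb l).card : ℝ)) with hG
  set S1 := ∑ l ∈ G, q ^ area l * (((Eb l).card : ℝ) / bet q l) with hS1
  set S2 := ∑ l ∈ G, q ^ area l * (((Eb l).card : ℝ) / bet q l) ^ 2 with hS2
  have hCS : S1 ^ 2 ≤ Zn (2 * m) q * S2 := by
    have h1 := Finset.sum_mul_sq_le_sq_mul_sq G (fun l => Real.sqrt (q ^ area l))
      (fun l => Real.sqrt (q ^ area l) * (((Eb l).card : ℝ) / bet q l))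
    have h2 : ∑ l ∈ G, Real.sqrt (q ^ area l) *
        (Real.sqrt (q ^ area l) * (((Eb l).card : ℝ) / bet q l)) = S1 := by
      refine Finset.sum_congr rfl fun l _ => ?_
      rw [← mul_assoc, Real.mul_self_sqrt (pow_pos hq0 _).le]
    have h3 : ∑ l ∈ G, (Real.sqrt (q ^ area l) * (((Eb l).card : ℝ) / bet q l)) ^ 2 = S2 := by
      refine Finset.sum_congr rfl fun l _ => ?_
      rw [mul_pow, Real.sq_sqrt (pow_pos hq0 _).le]
    have h4 : ∑ l ∈ G, Real.sqrt (q ^ area l) ^ 2 ≤ Zn (2 * m) q := by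
      unfold Zn
      have h5 : ∑ l ∈ G, Real.sqrt (q ^ area l) ^ 2 = ∑ l ∈ G, q ^ area l :=
        Finset.sum_congr rfl fun l _ => Real.sq_sqrt (pow_pos hq0 _).le
      rw [h5]
      exact Finset.sum_le_sum_of_subset_of_nonneg (Finset.filter_subset _ _)
        fun l _ _ => (pow_pos hq0 _).le
    rw [h2, h3] at h1
    have h6 : 0 ≤ S2 := Finset.sum_nonneg fun l _ => mul_nonneg (pow_pos hq0 _).le (sq_nonneg _)
    exact h1.trans (mul_le_mul_of_nonneg_right h4 h6)
  set s : ℝ := 2 / ((m + 1 : ℕ) : ℝ) with hs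
  have hs0' : 0 ≤ s := by positivity
  have hsu : 2 * s ≤ 4 / Real.sqrt m := by
    have h1 : Real.sqrt m ≤ ((m + 1 : ℕ) : ℝ) := by
      rw [Real.sqrt_le_left (by positivity)]
      push_cast
      nlinarith
    have h2 : 2 * s = 4 / ((m + 1 : ℕ) : ℝ) := by rw [hs]; ring
    rw [h2]
    exact div_le_div_of_nonneg_left (by norm_num) hs0 h1
  have hnum := rat_num t s (4 / Real.sqrt m) ht0 hs0' hsu (by linarith)
  have hs1 : s ≤ 1 := by linarith
  have h7 : (1 - t) * (1 - s) * Zn (2 * (m + 1)) q ≤ S1 := by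
    rw [mul_assoc]
    exact (mul_le_mul_of_nonneg_left hg (by linarith)).trans hf
  have h8 : 0 ≤ (1 - t) * (1 - s) * Zn (2 * (m + 1)) q :=
    mul_nonneg (mul_nonneg (by linarith) (by linarith)) hZ1
  have h9 : ((1 - t) * (1 - s) * Zn (2 * (m + 1)) q) ^ 2 ≤ Zn (2 * m) q * S2 :=
    (pow_le_pow_left₀ h8 h7 2).trans hCS
  have h10 : 0 ≤ (1 - t) / ((1 + 2 * t) * (1 + t)) :=
    div_nonneg (by linarith) (by positivity)
  calc (1 - C / Real.sqrt m) * Zn (2 * (m + 1)) q ^ 2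
      = (1 - 6 * t - 4 / Real.sqrt m) * Zn (2 * (m + 1)) q ^ 2 := by rw [← ht6]; ring
    _ ≤ ((1 - t) / ((1 + 2 * t) * (1 + t)) * ((1 - t) * (1 - s)) ^ 2) * Zn (2 * (m + 1)) q ^ 2 :=
        mul_le_mul_of_nonneg_right hnum (sq_nonneg _)
    _ = (1 - t) / ((1 + 2 * t) * (1 + t)) * ((1 - t) * (1 - s) * Zn (2 * (m + 1)) q) ^ 2 := by ring
    _ ≤ (1 - t) / ((1 + 2 * t) * (1 + t)) * (Zn (2 * m) q * S2) := mul_le_mul_of_nonneg_left h9 h10
    _ = Zn (2 * m) q * ((1 - t) / ((1 + 2 * t) * (1 + t)) * S2) := by ring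
    _ ≤ Zn (2 * m) q * Zn (2 * (m + 2)) q := mul_le_mul_of_nonneg_left hse hZ0

end Pool.Agent.Helper99.PT
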