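import Pool.Agent.Helper99.PT.Defs

/-!
# One step of the weak pattern theorem: double counting of surgeries

`one_step_aux` takes the window lemma and the facts on the patterns as hypotheses.
-/

set_option autoImplicit false

namespace Pool.Agent.Helper99.PT

open Pool.Agent.Helper2.QP Filter

/-- Discrete intermediate values, increasing. -/
theorem ivt_up (p : ℕ → ℤ) (hp : ∀ i, p (i + 1) ≤ p i + 1) (i n : ℕ) (k : ℤ) (h1 : p i ≤ k)
    (h2 : k ≤ p (i + n)) : ∃ m, i ≤ m ∧ m ≤ i + n ∧ p m = k := by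
  induction n with
  | zero => exact ⟨i, le_rfl, le_rfl, le_antisymm h1 (by simpa using h2)⟩
  | succ n ih =>
    by_cases h : k ≤ p (i + n)
    · obtain ⟨m, h3, h4, h5⟩ := ih h
      exact ⟨m, h3, by omega, h5⟩
    · have h3 := hp (i + n)
      have h4 : i + (n + 1) = i + n + 1 := by ring
      rw [h4] at h2
      exact ⟨i + n + 1, by omega, by omega, by omega⟩

/-- Discrete intermediate values for steps of size at most one. -/
theorem ivt (p : ℕ → ℤ) (hp : ∀ i, |p (i + 1) - p i| ≤ 1) (i j : ℕ) (k : ℤ) (h1 : p i ≤ k)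
    (h2 : k ≤ p j) : ∃ m, m ≤ max i j ∧ p m = k := by
  rcases le_total i j with h | h
  · obtain ⟨m, h3, h4, h5⟩ := ivt_up p (fun i => by have := abs_le.1 (hp i); omega) i (j - i) k h1
      (by rwa [Nat.add_sub_cancel' h])
    exact ⟨m, by omega, h5⟩
  · obtain ⟨m, h3, h4, h5⟩ := ivt_up (fun i => - p i)
      (fun i => by have := abs_le.1 (hp i); show - p (i + 1) ≤ - p i + 1; omega) j (i - j) (-k)
      (by show - p j ≤ - k; omega)
      (by rw [Nat.add_sub_cancel' h]; show - k ≤ - p i; omega)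
    exact ⟨m, by omega, by have : - p m = - k := h5
                           omega⟩

theorem vtx_step (l : List (Fin 4)) (i : ℕ) : |(vtx l (i + 1)).2 - (vtx l i).2| ≤ 1 := by
  by_cases h : i < l.length
  · have h1 : l.take (i + 1) = l.take i ++ [l[i]] := by
      rw [List.take_succ_eq_append_getElem h]
    have h2 : (vtx l (i + 1)).2 - (vtx l i).2 = (stp l[i]).2 := by
      unfold vtx
      rw [h1, dsp_append]
      simp [dsp]
    rw [h2]
    exact (stp_bound _).2
  · have h1 : vtx l (i + 1) = vtx l i := by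
      unfold vtx
      rw [List.take_of_length_le (by omega), List.take_of_length_le (by omega)]
    rw [h1]
    simp

/-- The rows visited by the walk. -/
def rowSet (l : List (Fin 4)) : Finset ℤ := ((verts 0 l).map Prod.snd).toFinset

theorem mem_rowSet (l : List (Fin 4)) (k : ℤ) :
    k ∈ rowSet l ↔ ∃ i < l.length, (vtx l i).2 = k := by
  unfold rowSet
  rw [List.mem_toFinset, List.mem_map]
  constructor
  · rintro ⟨v, hv, rfl⟩
    obtain ⟨i, hi, rfl⟩ := (mem_verts_zero l v).1 hv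
    exact ⟨i, hi, rfl⟩
  · rintro ⟨i, hi, rfl⟩
    exact ⟨vtx l i, (mem_verts_zero l _).2 ⟨i, hi, rfl⟩, rfl⟩

theorem card_rowSet (l : List (Fin 4)) : (rowSet l).card = rows l := rfl

theorem rowSet_eq (l : List (Fin 4)) (hl : l ≠ []) :
    ∃ a b : ℤ, a ≤ 0 ∧ 0 ≤ b ∧ rowSet l = Finset.Icc a b := by
  have hpos : 0 < l.length := List.length_pos_iff.2 hl
  have h0 : (0 : ℤ) ∈ rowSet l := (mem_rowSet l 0).2 ⟨0, hpos, by simp [vtx, dsp]⟩
  have hne : (rowSet l).Nonempty := ⟨0, h0⟩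
  refine ⟨(rowSet l).min' hne, (rowSet l).max' hne, Finset.min'_le _ _ h0, Finset.le_max' _ _ h0, ?_⟩
  ext k
  rw [Finset.mem_Icc]
  constructor
  · intro hk
    exact ⟨Finset.min'_le _ _ hk, Finset.le_max' _ _ hk⟩
  · rintro ⟨h1, h2⟩
    obtain ⟨i, hi, hi'⟩ := (mem_rowSet l _).1 (Finset.min'_mem _ hne)
    obtain ⟨j, hj, hj'⟩ := (mem_rowSet l _).1 (Finset.max'_mem _ hne)
    obtain ⟨m, hm, hm'⟩ := ivt (fun i => (vtx l i).2) (vtx_step l) i j k
      (by show (vtx l i).2 ≤ k; rw [hi']; exact h1) (by show k ≤ (vtx l j).2; rw [hj']; exact h2)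
    exact (mem_rowSet l k).2 ⟨m, by omega, hm'⟩

/-- The surgeries which are possible at `l`. -/
noncomputable def surg (l : List (Fin 4)) : Finset (ℕ × (List (Fin 4) × List (Fin 4))) :=
  open Classical in
  (Finset.range (l.length + 1) ×ˢ pats.toFinset).filter (fun x =>
    l.take x.1 ++ x.2.1 ++ l.drop (x.1 + x.2.1.length) = l ∧
      Good (l.take x.1) x.2.1 x.2.2 (l.drop (x.1 + x.2.1.length)))

theorem take_len (X o Y : List (Fin 4)) : (X ++ o ++ Y).take X.length = X := by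
  rw [List.append_assoc, List.take_left]

theorem drop_len (X o Y : List (Fin 4)) : (X ++ o ++ Y).drop (X.length + o.length) = Y := by
  rw [← List.length_append, List.drop_left]

theorem mem_surg_of {X o w Y : List (Fin 4)} (ho : (o, w) ∈ pats) (hg : Good X o w Y) :
    (X.length, (o, w)) ∈ surg (X ++ o ++ Y) := by
  classical
  unfold surg
  rw [Finset.mem_filter]
  refine ⟨?_, ?_, ?_⟩
  · rw [Finset.mem_product, Finset.mem_range, List.mem_toFinset]
    refine ⟨?_, ho⟩
    show X.length < (X ++ o ++ Y).length + 1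
    rw [List.length_append, List.length_append]
    omega
  · show (X ++ o ++ Y).take X.length ++ o ++ (X ++ o ++ Y).drop (X.length + o.length) = X ++ o ++ Y
    rw [take_len, drop_len]
  · show Good ((X ++ o ++ Y).take X.length) o w ((X ++ o ++ Y).drop (X.length + o.length))
    rw [take_len, drop_len]
    exact hg

/-- The word after the surgery `x`. -/
def res (l : List (Fin 4)) (x : ℕ × (List (Fin 4) × List (Fin 4))) : List (Fin 4) :=
  l.take x.1 ++ x.2.2 ++ l.drop (x.1 + x.2.1.length)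

theorem surg_exists {l : List (Fin 4)} {x : ℕ × (List (Fin 4) × List (Fin 4))} (hx : x ∈ surg l) :
    ∃ X o w Y, x = (X.length, (o, w)) ∧ l = X ++ o ++ Y ∧ res l x = X ++ w ++ Y ∧
      (o, w) ∈ pats ∧ Good X o w Y := by
  classical
  unfold surg at hx
  rw [Finset.mem_filter, Finset.mem_product, Finset.mem_range, List.mem_toFinset] at hx
  obtain ⟨⟨h1, h2⟩, h3, h4⟩ := hx
  refine ⟨l.take x.1, x.2.1, x.2.2, l.drop (x.1 + x.2.1.length), ?_, h3.symm, rfl, h2, h4⟩
  have : (l.take x.1).length = x.1 := by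
    rw [List.length_take]
    omega
  rw [this]

theorem card_surg (hW : ∀ (l : List (Fin 4)), IsSAP l → ∀ y : ℤ,
      (∀ k : ℤ, 0 ≤ k → k ≤ 4 → ∃ x : ℤ, (x, y + k) ∈ verts 0 l) → (0 < y ∨ y + 4 < 0) →
      ∃ X o w Y, (o, w) ∈ pats ∧ l = X ++ o ++ Y ∧ y ≤ (dsp X).2 ∧ (dsp X).2 ≤ y + 4 ∧ Good X o w Y)
    (l : List (Fin 4)) (h : IsSAP l) : rows l / 5 - 1 ≤ (surg l).card := by
  classical
  by_cases hl : l = []
  · subst hl
    simp [rows, verts]
  obtain ⟨a, b, ha, hb, hab⟩ := rowSet_eq l hl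
  have hrows : (rows l : ℤ) = b + 1 - a := by
    rw [← card_rowSet, hab, Int.card_Icc]
    exact Int.toNat_of_nonneg (by omega)
  have key : ∀ t : ℕ, t ∈ (Finset.range (rows l / 5)).erase ((-a) / 5).toNat →
      ∃ x : ℕ × (List (Fin 4) × List (Fin 4)), x ∈ surg l ∧ a + 5 * t ≤ (vtx l x.1).2 ∧
        (vtx l x.1).2 ≤ a + 5 * t + 4 := by
    intro t ht
    rw [Finset.mem_erase, Finset.mem_range] at ht
    obtain ⟨ht1, ht2⟩ := ht
    have hrow : ∀ k : ℤ, 0 ≤ k → k ≤ 4 → ∃ x : ℤ, (x, a + 5 * t + k) ∈ verts 0 l := by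
      intro k hk0 hk4
      have hm : a + 5 * t + k ∈ rowSet l := by
        rw [hab, Finset.mem_Icc]
        omega
      obtain ⟨i, hi, hi'⟩ := (mem_rowSet l _).1 hm
      refine ⟨(vtx l i).1, ?_⟩
      rw [← hi']
      exact (mem_verts_zero l _).2 ⟨i, hi, rfl⟩
    obtain ⟨X, o, w, Y, hp, hl', h1, h2, hg⟩ := hW l h (a + 5 * t) hrow (by omega)
    refine ⟨(X.length, (o, w)), ?_, ?_, ?_⟩
    · rw [hl']
      exact mem_surg_of hp hg
    · have : vtx l X.length = dsp X := by
        unfold vtx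
        rw [hl', take_len]
      show a + 5 * t ≤ (vtx l X.length).2
      rw [this]
      exact h1
    · have : vtx l X.length = dsp X := by
        unfold vtx
        rw [hl', take_len]
      show (vtx l X.length).2 ≤ a + 5 * t + 4
      rw [this]
      exact h2
  choose! g hg1 hg2 hg3 using key
  have hcard : ((Finset.range (rows l / 5)).erase ((-a) / 5).toNat).card ≤ (surg l).card := by
    refine Finset.card_le_card_of_injOn g (fun t ht => hg1 t ht) ?_
    intro s hs t ht hst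
    have h1 := hg2 s hs
    have h2 := hg3 s hs
    have h3 := hg2 t ht
    have h4 := hg3 t ht
    rw [hst] at h1 h2
    omega
  refine le_trans ?_ hcard
  have := Finset.pred_card_le_card_erase (s := Finset.range (rows l / 5)) (a := ((-a) / 5).toNat)
  rwa [Finset.card_range] at this

theorem rows_mono {l l' : List (Fin 4)} (h : ∀ v ∈ verts 0 l, ∃ v' ∈ verts 0 l', v'.2 = v.2) :
    rows l ≤ rows l' := by
  rw [← card_rowSet, ← card_rowSet]
  apply Finset.card_le_card
  intro k hk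
  unfold rowSet at hk ⊢
  rw [List.mem_toFinset, List.mem_map] at hk ⊢
  obtain ⟨v, hv, rfl⟩ := hk
  obtain ⟨v', hv', h'⟩ := h v hv
  exact ⟨v', hv', h'⟩

theorem mem_dec_of {X o w Y : List (Fin 4)} (ho : (o, w) ∈ pats) (h : IsSAP (X ++ o ++ Y))
    (hg : Good X o w Y) : (X.length, (o, w)) ∈ dec (X ++ w ++ Y) := by
  classical
  unfold dec
  rw [Finset.mem_filter]
  refine ⟨?_, ?_, ?_, ?_⟩
  · rw [Finset.mem_product, Finset.mem_range, List.mem_toFinset]
    refine ⟨?_, ho⟩
    show X.length < (X ++ w ++ Y).length + 1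
    rw [List.length_append, List.length_append]
    omega
  · show (X ++ w ++ Y).take X.length ++ w ++ (X ++ w ++ Y).drop (X.length + w.length) = X ++ w ++ Y
    rw [take_len, drop_len]
  · show IsSAP ((X ++ w ++ Y).take X.length ++ o ++ (X ++ w ++ Y).drop (X.length + w.length))
    rw [take_len, drop_len]
    exact h
  · show Good ((X ++ w ++ Y).take X.length) o w ((X ++ w ++ Y).drop (X.length + w.length))
    rw [take_len, drop_len]
    exact hg

theorem one_step_aux
    (hW : ∀ (l : List (Fin 4)), IsSAP l → ∀ y : ℤ,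
      (∀ k : ℤ, 0 ≤ k → k ≤ 4 → ∃ x : ℤ, (x, y + k) ∈ verts 0 l) → (0 < y ∨ y + 4 < 0) →
      ∃ X o w Y, (o, w) ∈ pats ∧ l = X ++ o ++ Y ∧ y ≤ (dsp X).2 ∧ (dsp X).2 ≤ y + 4 ∧ Good X o w Y)
    (hP : ∀ (o w : List (Fin 4)), (o, w) ∈ pats →
      o ≠ [] ∧ w.length = o.length + 8 ∧ w.length ≤ 10 ∧ dsp o = dsp w ∧
        ∀ X Y : List (Fin 4), area (X ++ w ++ Y) ≤ area (X ++ o ++ Y) + 10)
    (q : ℝ) (hq0 : 0 < q) (hq1 : q < 1) (f : List (Fin 4) → ℕ) (C : ℕ)
    (hf1 : ∀ l', IsSAP l' → (dec l').card ≤ C * f l')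
    (hf2 : ∀ X o w Y, (o, w) ∈ pats → IsSAP (X ++ o ++ Y) → IsSAP (X ++ w ++ Y) →
      f (X ++ w ++ Y) ≤ f (X ++ o ++ Y) + C) (n R H : ℕ) :
    (((R / 5 : ℕ) : ℝ) - 1) *
      ∑ l ∈ (sap n).filter (fun l => R ≤ rows l ∧ f l ≤ H), q ^ area l ≤
    (q⁻¹) ^ 10 * (C * (H + C)) *
      ∑ l ∈ (sap (n + 8)).filter (fun l => R ≤ rows l ∧ f l ≤ H + C), q ^ area l := by
  classical
  set S := (sap n).filter (fun l => R ≤ rows l ∧ f l ≤ H) with hS
  set T := (sap (n + 8)).filter (fun l => R ≤ rows l ∧ f l ≤ H + C) with hT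
  -- every surgery leads from `S` to `T`
  have hmap : ∀ l ∈ S, ∀ x ∈ surg l, res l x ∈ T ∧ x ∈ dec (res l x) ∧
      q ^ area l ≤ (q⁻¹) ^ 10 * q ^ area (res l x) ∧
      (res l x).take x.1 ++ x.2.1 ++ (res l x).drop (x.1 + x.2.2.length) = l := by
    intro l hl x hx
    rw [hS, Finset.mem_filter, mem_sap] at hl
    obtain ⟨⟨hln, hsap⟩, hR, hH⟩ := hl
    obtain ⟨X, o, w, Y, rfl, rfl, hres, hp, hg⟩ := surg_exists hx
    obtain ⟨ho, hlen, -, hdsp, harea⟩ := hP o w hp
    rw [hres]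
    have hsap' : IsSAP (X ++ w ++ Y) := hg.1
    refine ⟨?_, mem_dec_of hp hsap hg, ?_, ?_⟩
    · rw [hT, Finset.mem_filter, mem_sap]
      refine ⟨⟨?_, hsap'⟩, ?_, ?_⟩
      · rw [List.length_append, List.length_append] at hln ⊢
        omega
      · exact hR.trans (rows_mono hg.2.2.2.2)
      · exact (hf2 X o w Y hp hsap hsap').trans (by omega)
    · have h1 : q ^ (area (X ++ o ++ Y) + 10) ≤ q ^ area (X ++ w ++ Y) :=
        pow_le_pow_of_le_one hq0.le hq1.le (harea X Y)
      calc q ^ area (X ++ o ++ Y) = (q⁻¹) ^ 10 * q ^ (area (X ++ o ++ Y) + 10) := by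
            rw [pow_add, inv_pow]
            field_simp
        _ ≤ _ := mul_le_mul_of_nonneg_left h1 (by positivity)
    · show (X ++ w ++ Y).take X.length ++ o ++ (X ++ w ++ Y).drop (X.length + w.length) = X ++ o ++ Y
      rw [take_len, drop_len]
  calc (((R / 5 : ℕ) : ℝ) - 1) * ∑ l ∈ S, q ^ area l
      = ∑ l ∈ S, (((R / 5 : ℕ) : ℝ) - 1) * q ^ area l := Finset.mul_sum _ _ _
    _ ≤ ∑ l ∈ S, ∑ x ∈ surg l, (q⁻¹) ^ 10 * q ^ area (res l x) := by
        refine Finset.sum_le_sum fun l hl => ?_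
        have hl' := hl
        rw [hS, Finset.mem_filter, mem_sap] at hl'
        have hc := card_surg hW l hl'.1.2
        have hc2 : ((R / 5 : ℕ) : ℝ) - 1 ≤ ((surg l).card : ℝ) := by
          have h1 : R / 5 ≤ (surg l).card + 1 := by
            have : R / 5 ≤ rows l / 5 := Nat.div_le_div_right hl'.2.1
            omega
          have h2 : ((R / 5 : ℕ) : ℝ) ≤ (((surg l).card + 1 : ℕ) : ℝ) := by exact_mod_cast h1
          push_cast at h2 ⊢
          linarith
        calc (((R / 5 : ℕ) : ℝ) - 1) * q ^ area l ≤ ((surg l).card : ℝ) * q ^ area l :=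
              mul_le_mul_of_nonneg_right hc2 (by positivity)
          _ = ∑ x ∈ surg l, q ^ area l := by rw [Finset.sum_const, nsmul_eq_mul]
          _ ≤ _ := Finset.sum_le_sum fun x hx => (hmap l hl x hx).2.2.1
    _ = ∑ p ∈ S.sigma (fun l => surg l), (q⁻¹) ^ 10 * q ^ area (res p.1 p.2) := by
        rw [Finset.sum_sigma]
    _ = ∑ p ∈ (S.sigma (fun l => surg l)).image
          (fun p => (⟨res p.1 p.2, p.2⟩ : Σ _ : List (Fin 4), ℕ × (List (Fin 4) × List (Fin 4)))),
          (q⁻¹) ^ 10 * q ^ area p.1 := by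
        rw [Finset.sum_image]
        intro p hp p' hp' hpp
        obtain ⟨l, x⟩ := p
        obtain ⟨l', x'⟩ := p'
        rw [Finset.mem_coe, Finset.mem_sigma] at hp hp'
        simp only [Sigma.mk.injEq] at hpp
        obtain ⟨h1, h2⟩ := hpp
        have h2' : x = x' := eq_of_heq h2
        subst h2'
        have e1 := (hmap l hp.1 x hp.2).2.2.2
        have e2 := (hmap l' hp'.1 x hp'.2).2.2.2
        rw [h1] at e1
        have e3 : l = l' := e1.symm.trans e2
        subst e3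
        rfl
    _ ≤ ∑ p ∈ T.sigma (fun l => dec l), (q⁻¹) ^ 10 * q ^ area p.1 := by
        refine Finset.sum_le_sum_of_subset_of_nonneg ?_ (fun _ _ _ => by positivity)
        intro p hp
        rw [Finset.mem_image] at hp
        obtain ⟨⟨l, x⟩, hlx, rfl⟩ := hp
        rw [Finset.mem_sigma] at hlx ⊢
        exact ⟨(hmap l hlx.1 x hlx.2).1, (hmap l hlx.1 x hlx.2).2.1⟩
    _ = ∑ l ∈ T, ((dec l).card : ℝ) * ((q⁻¹) ^ 10 * q ^ area l) := by
        rw [Finset.sum_sigma]
        refine Finset.sum_congr rfl fun l _ => ?_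
        show ∑ _s ∈ dec l, (q⁻¹) ^ 10 * q ^ area l = _
        rw [Finset.sum_const, nsmul_eq_mul]
    _ ≤ ∑ l ∈ T, ((C : ℝ) * (H + C)) * ((q⁻¹) ^ 10 * q ^ area l) := by
        refine Finset.sum_le_sum fun l hl => ?_
        refine mul_le_mul_of_nonneg_right ?_ (by positivity)
        rw [hT, Finset.mem_filter, mem_sap] at hl
        have h1 := hf1 l hl.1.2
        have h2 : (dec l).card ≤ C * (H + C) := h1.trans (Nat.mul_le_mul_left C hl.2.2)
        exact_mod_cast h2
    _ = (q⁻¹) ^ 10 * (C * (H + C)) * ∑ l ∈ T, q ^ area l := by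
        rw [← Finset.mul_sum, ← Finset.mul_sum]
        ring

end Pool.Agent.Helper99.PT

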