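import Pool.Agent.Helper99.PT.Typ
import Pool.Agent.Helper99.PT.Step

/-!
# A feature with few occurrences has small weight: final form

`typical_win` takes the window lemma and the facts on the patterns as hypotheses, as `one_step_aux`.
-/

set_option autoImplicit false

namespace Pool.Agent.Helper99.PT

open Pool.Agent.Helper2.QP Filter

theorem typical_win
    (hW : ∀ (l : List (Fin 4)), IsSAP l → ∀ y : ℤ,
      (∀ k : ℤ, 0 ≤ k → k ≤ 4 → ∃ x : ℤ, (x, y + k) ∈ verts 0 l) → (0 < y ∨ y + 4 < 0) →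
      ∃ X o w Y, (o, w) ∈ pats ∧ l = X ++ o ++ Y ∧ y ≤ (dsp X).2 ∧ (dsp X).2 ≤ y + 4 ∧ Good X o w Y)
    (hP : ∀ (o w : List (Fin 4)), (o, w) ∈ pats →
      o ≠ [] ∧ w.length = o.length + 8 ∧ w.length ≤ 10 ∧ dsp o = dsp w ∧
        ∀ X Y : List (Fin 4), area (X ++ w ++ Y) ≤ area (X ++ o ++ Y) + 10)
    (a b : ℝ) (ha : 0 < a) (hab : a ≤ b) (hb : b < 1) (f : List (Fin 4) → ℕ) (C : ℕ)
    (hf1 : ∀ l', IsSAP l' → (dec l').card ≤ C * f l')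
    (hf2 : ∀ X o w Y, (o, w) ∈ pats → IsSAP (X ++ o ++ Y) → IsSAP (X ++ w ++ Y) →
      f (X ++ w ++ Y) ≤ f (X ++ o ++ Y) + C)
    (hf3 : ∀ l, IsSAP l → f (l.map rfl4) = f l) :
    ∃ c : ℝ, 0 < c ∧ ∃ m₀ : ℕ, ∀ q : ℝ, a ≤ q → q ≤ b → ∀ m : ℕ, m₀ ≤ m →
      (m : ℝ) * ∑ l ∈ (sap (2 * m)).filter (fun l => (f l : ℝ) ≤ c * Real.sqrt m), q ^ area l ≤
        Zn (2 * m) q :=
  typical_of a b ha hab hb f C
    (fun q hq0 hq1 n R H => one_step_aux hW hP q hq0 hq1 f C hf1 hf2 n R H) hf3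

end Pool.Agent.Helper99.PT
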