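import Pool.Agent.Helper99.PT.Window
import Pool.Agent.Helper99.PT.TypFin
import Pool.Agent.Helper99.PT.FeatFin
import Pool.Agent.Helper99.PT.Ratio

/-!
# The weak pattern theorem for the three features, the ratio inequality
-/

set_option autoImplicit false

namespace Pool.Agent.Helper99.PT

open Pool.Agent.Helper2.QP Filter

/-- few occurrences of a feature have small weight -/
theorem typical_mem (a b : ℝ) (ha : 0 < a) (hab : a ≤ b) (hb : b < 1) (f : List (Fin 4) → ℕ)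
    (hf : f ∈ [fun l => (Fl l).card, fun l => (Bm l).card, fun l => (Eb l).card]) :
    ∃ c : ℝ, 0 < c ∧ ∃ m₀ : ℕ, ∀ q : ℝ, a ≤ q → q ≤ b → ∀ m : ℕ, m₀ ≤ m →
      (m : ℝ) * ∑ l ∈ (sap (2 * m)).filter (fun l => (f l : ℝ) ≤ c * Real.sqrt m), q ^ area l ≤
        Zn (2 * m) q := by
  obtain ⟨C, hC⟩ := features
  obtain ⟨h1, h2, h3⟩ := hC f hf
  exact typical_win window pats_facts a b ha hab hb f C h1 h2 h3

theorem ratio_ineq (a b : ℝ) (ha : 0 < a) (hab : a ≤ b) (hb : b < 1) : ∃ C : ℝ, 0 < C ∧ ∃ m₀ : ℕ,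
    ∀ q : ℝ, a ≤ q → q ≤ b → ∀ m : ℕ, m₀ ≤ m →
      (1 - C / Real.sqrt m) * Zn (2 * (m + 1)) q ^ 2 ≤ Zn (2 * m) q * Zn (2 * (m + 2)) q :=
  ratio_ineq_of a b ha hab hb
    (typical_mem a b ha hab hb (fun l => (Bm l).card) (by simp))
    (typical_mem a b ha hab hb (fun l => (Eb l).card) (by simp))

end Pool.Agent.Helper99.PT
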