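import Pool.Agent.Helper99.PT.Defs

/-!
# Facts about the surgeries: length, displacement, area
-/

set_option autoImplicit false

namespace Pool.Agent.Helper99.PT

open Pool.Agent.Helper2.QP

theorem pats_dec : ∀ x ∈ pats, x.1 ≠ [] ∧ x.2.length = x.1.length + 8 ∧ x.2.length ≤ 10 ∧
    dsp x.1 = dsp x.2 ∧ |psum xdyF 0 x.2 - psum xdyF 0 x.1| ≤ 10 := by
  decide +kernel

theorem pats_facts (o w : List (Fin 4)) (h : (o, w) ∈ pats) :
    o ≠ [] ∧ w.length = o.length + 8 ∧ w.length ≤ 10 ∧ dsp o = dsp w ∧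
      ∀ X Y : List (Fin 4), area (X ++ w ++ Y) ≤ area (X ++ o ++ Y) + 10 := by
  obtain ⟨h1, h2, h3, h4, h5⟩ := pats_dec _ h
  simp only at h1 h2 h3 h4 h5
  refine ⟨h1, h2, h3, h4, fun X Y => ?_⟩
  have e1 : ∀ u : List (Fin 4), xdy (X ++ u ++ Y) =
      psum xdyF 0 X + (psum xdyF 0 u + (0 + dsp X).1 * (dsp u).2) + psum xdyF (0 + dsp (X ++ u)) Y := by
    intro u
    rw [xdy, psum_append, psum_append, ← psum_xdy_add, zero_add, zero_add, zero_add]
  have e2 : xdy (X ++ w ++ Y) = xdy (X ++ o ++ Y) + (psum xdyF 0 w - psum xdyF 0 o) := by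
    rw [e1, e1, dsp_append, dsp_append, h4]
    ring
  unfold area
  rw [e2]
  have h6 := abs_le.1 h5
  omega

end Pool.Agent.Helper99.PT
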