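import Mathlib

/-!
# Ratio limit from an approximate log-convexity (pure analysis)
-/

set_option autoImplicit false

namespace Pool.Agent.Helper99.PT

open Filter

/-- one step: the logarithmic increments decrease by at most `2 C / √m` -/
private theorem ra_step {C : ℝ} (hC : 0 < C) {m : ℕ} (hm : 4 * C ^ 2 ≤ m) {x y w : ℝ}
    (hx : 0 < x) (hy : 0 < y) (hw : 0 < w)
    (h : (1 - C / Real.sqrt m) * y ^ 2 ≤ x * w) :
    Real.log y - Real.log x ≤ Real.log w - Real.log y + 2 * C / Real.sqrt m := by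
  have hm0 : (0 : ℝ) ≤ m := Nat.cast_nonneg m
  have hs : 2 * C ≤ Real.sqrt m := by
    apply Real.le_sqrt_of_sq_le
    nlinarith
  have hspos : 0 < Real.sqrt m := by linarith
  set s := Real.sqrt m with hsdef
  have ht : C / s ≤ 1 / 2 := by
    rw [div_le_iff₀ hspos]; linarith
  have ht0 : 0 < C / s := div_pos hC hspos
  have h1 : 0 < 1 - C / s := by linarith
  have h2 : Real.log (1 - C / s) + 2 * Real.log y ≤ Real.log x + Real.log w := by
    have h3 := Real.log_le_log (mul_pos h1 (pow_pos hy 2)) h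
    rw [Real.log_mul h1.ne' (pow_pos hy 2).ne', Real.log_mul hx.ne' hw.ne', Real.log_pow] at h3
    simpa using h3
  have h4 : -(2 * (C / s)) ≤ Real.log (1 - C / s) := by
    have h5 := Real.one_sub_inv_le_log_of_pos h1
    refine le_trans ?_ h5
    have h6 : (1 - C / s)⁻¹ ≤ 1 + 2 * (C / s) := by
      rw [inv_le_comm₀ h1 (by linarith)]
      rw [inv_le_iff_one_le_mul₀ (by linarith)]
      nlinarith
    linarith
  have h7 : 2 * C / s = 2 * (C / s) := by ring
  rw [h7]
  linarith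

/-- going up -/
private theorem ra_up {c : ℝ} (hc : 0 ≤ c) {M : ℕ} (hM : 1 ≤ M) {r : ℕ → ℝ}
    (hr : ∀ k : ℕ, M ≤ k → r k ≤ r (k + 1) + c / Real.sqrt k) {m : ℕ} (hm : M ≤ m) (j : ℕ) :
    r m - c * j / Real.sqrt m ≤ r (m + j) := by
  have hm1 : (1 : ℝ) ≤ m := by exact_mod_cast hM.trans hm
  have hs : 0 < Real.sqrt m := Real.sqrt_pos.2 (by linarith)
  induction j with
  | zero => simp
  | succ j ih =>
    have h1 := hr (m + j) (by omega)
    have h2 : c / Real.sqrt ((m + j : ℕ) : ℝ) ≤ c / Real.sqrt m := by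
      apply div_le_div_of_nonneg_left hc hs
      apply Real.sqrt_le_sqrt
      push_cast
      have : (0 : ℝ) ≤ j := Nat.cast_nonneg j
      linarith
    have h3 : c * ((j + 1 : ℕ) : ℝ) / Real.sqrt m = c * j / Real.sqrt m + c / Real.sqrt m := by
      push_cast; ring
    rw [h3]
    have h4 : m + (j + 1) = m + j + 1 := by ring
    rw [h4]
    linarith

/-- going down -/
private theorem ra_down {c : ℝ} (hc : 0 ≤ c) {M : ℕ} (hM : 1 ≤ M) {r : ℕ → ℝ}
    (hr : ∀ k : ℕ, M ≤ k → r k ≤ r (k + 1) + c / Real.sqrt k) {m J : ℕ} (hJ : 2 * J ≤ m)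
    (hm : 2 * M ≤ m) (i : ℕ) (hi : i ≤ J) :
    r (m - i) ≤ r m + 2 * c * i / Real.sqrt m := by
  have hm1 : (1 : ℝ) ≤ m := by exact_mod_cast (by omega : 1 ≤ m)
  have hs : 0 < Real.sqrt m := Real.sqrt_pos.2 (by linarith)
  induction i with
  | zero => simp
  | succ i ih =>
    have h1 := hr (m - (i + 1)) (by omega)
    have h0 : m - (i + 1) + 1 = m - i := by omega
    rw [h0] at h1
    have h2 : c / Real.sqrt ((m - (i + 1) : ℕ) : ℝ) ≤ 2 * c / Real.sqrt m := by
      have h3 : Real.sqrt m / 2 ≤ Real.sqrt ((m - (i + 1) : ℕ) : ℝ) := by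
        have h4 : Real.sqrt m / 2 = Real.sqrt ((m : ℝ) / 4) := by
          rw [Real.sqrt_div' _ (by norm_num)]
          congr 1
          rw [show (4 : ℝ) = 2 ^ 2 by norm_num, Real.sqrt_sq (by norm_num)]
        rw [h4]
        apply Real.sqrt_le_sqrt
        have h5 : m ≤ 4 * (m - (i + 1)) := by omega
        have h6 : (m : ℝ) ≤ 4 * ((m - (i + 1) : ℕ) : ℝ) := by exact_mod_cast h5
        linarith
      calc c / Real.sqrt ((m - (i + 1) : ℕ) : ℝ) ≤ c / (Real.sqrt m / 2) :=
            div_le_div_of_nonneg_left hc (by positivity) h3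
        _ = 2 * c / Real.sqrt m := by field_simp
    have h3 : 2 * c * ((i + 1 : ℕ) : ℝ) / Real.sqrt m =
        2 * c * i / Real.sqrt m + 2 * c / Real.sqrt m := by
      push_cast; ring
    rw [h3]
    have := ih (by omega)
    linarith

theorem ratio_analysis (K C : ℝ) (hK : 1 ≤ K) (hC : 0 < C) (m₀ : ℕ) : ∃ C' : ℝ, 0 < C' ∧ ∃ m₁ : ℕ,
    ∀ z : ℕ → ℝ, (∀ m : ℕ, 2 ≤ m → 0 < z m) →
      (∀ m : ℕ, 2 ≤ m → Real.exp (-K * (Real.log m) ^ 2) ≤ z m ∧ z m ≤ K * m) →
      (∀ m : ℕ, m₀ ≤ m → (1 - C / Real.sqrt m) * z (m + 1) ^ 2 ≤ z m * z (m + 2)) →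
      ∀ m : ℕ, m₁ ≤ m → |z (m + 1) / z m - 1| ≤ C' * Real.log m / (m : ℝ) ^ ((1 : ℝ) / 4) := by
  set A : ℝ := 32 * C * (5 * K + 3) + 1 with hA
  have hCK : 0 < C * (5 * K + 3) := mul_pos hC (by linarith)
  have hA1 : 1 ≤ A := by rw [hA]; nlinarith
  have hA0 : 0 < A := by linarith
  have hA16 : 16 * C ≤ A := by rw [hA]; nlinarith
  have hAA : 32 * C * (5 * K + 3) ≤ A * A := by nlinarith
  refine ⟨2 * A, by linarith, ?_⟩
  -- the threshold of the one step inequality
  obtain ⟨M, hM2, hMm, hMC⟩ : ∃ M : ℕ, 2 ≤ M ∧ m₀ ≤ M ∧ 4 * C ^ 2 ≤ M := by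
    refine ⟨max 2 (max m₀ ⌈4 * C ^ 2⌉₊), le_max_left _ _,
      (le_max_left _ _).trans (le_max_right _ _), ?_⟩
    refine (Nat.le_ceil _).trans ?_
    exact_mod_cast (le_max_right _ _).trans (le_max_right _ _)
  have hlog : ∀ᶠ m : ℕ in atTop, A * Real.log m ≤ (m : ℝ) ^ ((1 : ℝ) / 4) := by
    have h1 := (isLittleO_log_rpow_atTop (by norm_num : (0 : ℝ) < 1 / 4)).def
      (show (0 : ℝ) < 1 / A by positivity)
    have h2 := tendsto_natCast_atTop_atTop (R := ℝ) |>.eventually h1
    filter_upwards [h2] with m hm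
    rw [Real.norm_eq_abs, Real.norm_eq_abs, abs_of_nonneg (Real.rpow_nonneg (Nat.cast_nonneg m) _)] at hm
    have h3 := (le_abs_self _).trans hm
    rw [one_div, ← div_eq_inv_mul, le_div_iff₀ hA0] at h3
    linarith
  have hlog1 : ∀ᶠ m : ℕ in atTop, 1 ≤ Real.log m :=
    (Real.tendsto_log_atTop.comp tendsto_natCast_atTop_atTop).eventually_ge_atTop 1
  have hsq : ∀ᶠ m : ℕ in atTop, 1 / (4 * C) ≤ Real.sqrt m :=
    (Real.tendsto_sqrt_atTop.comp tendsto_natCast_atTop_atTop).eventually_ge_atTop _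
  obtain ⟨m₁, hm₁⟩ := eventually_atTop.1
    (hlog.and (hlog1.and (hsq.and (eventually_ge_atTop (2 * M + 2)))))
  refine ⟨m₁, fun z hz hb hconv m hm => ?_⟩
  obtain ⟨hAl, hl1, hsqm, hmM⟩ := hm₁ m hm
  -- notation
  have hmpos : (0 : ℝ) < m := by exact_mod_cast (by omega : 0 < m)
  set t : ℝ := (m : ℝ) ^ ((1 : ℝ) / 4) with htdef
  have ht : 0 < t := Real.rpow_pos_of_pos hmpos _
  have ht2 : Real.sqrt m = t ^ 2 := by
    rw [htdef, Real.sqrt_eq_rpow, ← Real.rpow_natCast, ← Real.rpow_mul hmpos.le]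
    norm_num
  have ht4 : (m : ℝ) = t ^ 4 := by
    have := Real.sq_sqrt hmpos.le
    rw [ht2] at this
    rw [← this]; ring
  set l : ℝ := Real.log m with hldef
  have hl0 : 0 < l := by linarith
  set D : ℝ := A * l / t with hD
  have hDpos : 0 < D := by positivity
  have hD1 : D ≤ 1 := by
    rw [hD, div_le_one ht]; exact hAl
  -- increments of the logarithm
  set r : ℕ → ℝ := fun k => Real.log (z (k + 1)) - Real.log (z k) with hr
  have hstep : ∀ k : ℕ, M ≤ k → r k ≤ r (k + 1) + 2 * C / Real.sqrt k := by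
    intro k hk
    have h1 := hconv k (hMm.trans hk)
    have hk4 : 4 * C ^ 2 ≤ (k : ℝ) := hMC.trans (by exact_mod_cast hk)
    exact ra_step hC hk4 (hz k (by omega)) (hz (k + 1) (by omega)) (hz (k + 2) (by omega)) h1
  -- bounds for the logarithm of z
  have hup : ∀ k : ℕ, 2 ≤ k → Real.log (z k) ≤ Real.log K + Real.log k := by
    intro k hk
    have hk0 : (0 : ℝ) < k := by exact_mod_cast (by omega : 0 < k)
    rw [← Real.log_mul (by linarith) hk0.ne']
    exact Real.log_le_log (hz k hk) (hb k hk).2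
  have hlo : ∀ k : ℕ, 2 ≤ k → -K * (Real.log k) ^ 2 ≤ Real.log (z k) := by
    intro k hk
    rw [Real.le_log_iff_exp_le (hz k hk)]
    exact (hb k hk).1
  have hlogK : Real.log K ≤ K := (Real.log_le_sub_one_of_pos (by linarith)).trans (by linarith)
  have hlogK0 : 0 ≤ Real.log K := Real.log_nonneg hK
  -- the number of steps
  set X : ℝ := A * l * t / (16 * C) with hX
  have hX1 : 1 ≤ X := by
    rw [hX, one_le_div (by positivity)]
    have h1 : 1 ≤ t := by
      have : A * l ≤ t := hAl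
      nlinarith
    have h2 : A * 1 ≤ A * l := mul_le_mul_of_nonneg_left hl1 hA0.le
    have h3 : A * l * 1 ≤ A * l * t := mul_le_mul_of_nonneg_left h1 (by positivity)
    linarith
  obtain ⟨J, hJ1, hJ2⟩ : ∃ J : ℕ, X ≤ J ∧ (J : ℝ) ≤ 2 * X := by
    refine ⟨⌈X⌉₊, Nat.le_ceil X, ?_⟩
    have := Nat.ceil_lt_add_one (by linarith : 0 ≤ X)
    linarith
  have hJpos : (0 : ℝ) < J := by linarith
  have hJm : 2 * J ≤ m := by
    have h1 : (J : ℝ) ≤ t ^ 2 / (8 * C) := by
      refine hJ2.trans ?_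
      rw [hX]
      rw [show 2 * (A * l * t / (16 * C)) = A * l * t / (8 * C) by ring]
      apply div_le_div_of_nonneg_right _ (by positivity)
      nlinarith
    have h2 : t ^ 2 / (8 * C) ≤ t ^ 4 / 2 := by
      rw [ht2] at hsqm
      rw [div_le_iff₀ (by positivity)] at hsqm
      rw [div_le_div_iff₀ (by positivity) (by norm_num)]
      have h3 : 0 < t ^ 2 := by positivity
      have h4 : t ^ 2 * 1 ≤ t ^ 2 * (t ^ 2 * (4 * C)) := mul_le_mul_of_nonneg_left hsqm h3.le
      nlinarith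
    have h3 : 2 * (J : ℝ) ≤ m := by rw [ht4]; linarith
    exact_mod_cast h3
  have hDX : D / 2 * X = A * A * l ^ 2 / (32 * C) := by
    rw [hD, hX]; field_simp; ring
  have hlower : (5 * K + 3) * l ^ 2 ≤ J * (D / 2) := by
    calc (5 * K + 3) * l ^ 2 ≤ A * A * l ^ 2 / (32 * C) := by
          rw [le_div_iff₀ (by positivity)]
          have h1 := mul_le_mul_of_nonneg_right hAA (sq_nonneg l)
          linarith
      _ = X * (D / 2) := by rw [← hDX]; ring
      _ ≤ J * (D / 2) := mul_le_mul_of_nonneg_right hJ1 (by positivity)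
  have hl2 : l ≤ l ^ 2 := by
    have h1 := mul_le_mul_of_nonneg_left hl1 hl0.le
    calc l = l * 1 := (mul_one l).symm
      _ ≤ l * l := h1
      _ = l ^ 2 := by ring
  have hl3 : 1 ≤ l ^ 2 := hl1.trans hl2
  have hCJ : 2 * (2 * C) * J / Real.sqrt m ≤ D / 2 := by
    rw [ht2, div_le_iff₀ (by positivity)]
    calc 2 * (2 * C) * J ≤ 2 * (2 * C) * (2 * X) := mul_le_mul_of_nonneg_left hJ2 (by positivity)
      _ = D / 2 * t ^ 2 := by rw [hD, hX]; field_simp; ring
  have hCJ' : 2 * C * J / Real.sqrt m ≤ D / 2 := by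
    refine le_trans ?_ hCJ
    apply div_le_div_of_nonneg_right _ (Real.sqrt_nonneg _)
    have h1 := mul_pos hC hJpos
    linarith
  -- upper bound for r m
  have hrup : r m ≤ D := by
    by_contra hcon
    push Not at hcon
    have h1 : ∀ j ∈ Finset.range J, D / 2 ≤ r (m + j) := by
      intro j hj
      have hjJ : (j : ℝ) ≤ J := by exact_mod_cast (Finset.mem_range.1 hj).le
      have h2 := ra_up (c := 2 * C) (by positivity) (by omega : 1 ≤ M) hstep (by omega : M ≤ m) j
      have h3 : 2 * C * j / Real.sqrt m ≤ 2 * C * J / Real.sqrt m := by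
        apply div_le_div_of_nonneg_right _ (Real.sqrt_nonneg _)
        exact mul_le_mul_of_nonneg_left hjJ (by positivity)
      linarith
    have h2 : (J : ℝ) * (D / 2) ≤ ∑ j ∈ Finset.range J, r (m + j) := by
      have := Finset.card_nsmul_le_sum (Finset.range J) (fun j => r (m + j)) (D / 2) h1
      simpa using this
    have h3 : ∑ j ∈ Finset.range J, r (m + j) = Real.log (z (m + J)) - Real.log (z m) := by
      have := Finset.sum_range_sub (fun j => Real.log (z (m + j))) J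
      simpa [hr, add_assoc] using this
    have h4 := hup (m + J) (by omega)
    have h5 := hlo m (by omega)
    have h6 : Real.log ((m + J : ℕ) : ℝ) ≤ 2 * l := by
      rw [hldef, ← Real.log_rpow hmpos]
      apply Real.log_le_log (by exact_mod_cast (by omega : 0 < m + J))
      have h7 : m + J ≤ m * m := by nlinarith
      have h8 : ((m + J : ℕ) : ℝ) ≤ (m : ℝ) * m := by exact_mod_cast h7
      refine h8.trans (le_of_eq ?_)
      rw [show (2 : ℝ) = ((2 : ℕ) : ℝ) by norm_num, Real.rpow_natCast]; ring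
    have h7 : K ≤ K * l ^ 2 := le_mul_of_one_le_right (by linarith) hl3
    have h8 : 0 < K * l ^ 2 := lt_of_lt_of_le (by linarith) h7
    have h9 : (5 * K + 3) * l ^ 2 = 5 * (K * l ^ 2) + 3 * l ^ 2 := by ring
    have h10 : -K * l ^ 2 = -(K * l ^ 2) := by ring
    rw [h9] at hlower
    rw [← hldef, h10] at h5
    linarith
  have hrlo : -D ≤ r m := by
    by_contra hcon
    push Not at hcon
    have h1 : ∀ i ∈ Finset.range J, r (m - i) ≤ -(D / 2) := by
      intro i hi
      have hiJ : i ≤ J := (Finset.mem_range.1 hi).le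
      have hiJ' : (i : ℝ) ≤ J := by exact_mod_cast hiJ
      have h2 := ra_down (c := 2 * C) (by positivity) (by omega : 1 ≤ M) hstep hJm
        (by omega : 2 * M ≤ m) i hiJ
      have h3 : 2 * (2 * C) * i / Real.sqrt m ≤ 2 * (2 * C) * J / Real.sqrt m := by
        apply div_le_div_of_nonneg_right _ (Real.sqrt_nonneg _)
        exact mul_le_mul_of_nonneg_left hiJ' (by positivity)
      linarith
    have h2 : ∑ i ∈ Finset.range J, r (m - i) ≤ (J : ℝ) * (-(D / 2)) := by
      have := Finset.sum_le_card_nsmul (Finset.range J) (fun i => r (m - i)) (-(D / 2)) h1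
      simpa using this
    have h3 : ∑ i ∈ Finset.range J, r (m - i) =
        Real.log (z (m + 1)) - Real.log (z (m + 1 - J)) := by
      have h4 := Finset.sum_range_sub (fun i => -Real.log (z (m + 1 - i))) J
      have h5 : ∀ i ∈ Finset.range J, r (m - i) =
          -Real.log (z (m + 1 - (i + 1))) - -Real.log (z (m + 1 - i)) := by
        intro i hi
        have hiJ := Finset.mem_range.1 hi
        have e1 : m - i + 1 = m + 1 - i := by omega
        have e2 : m + 1 - (i + 1) = m - i := by omega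
        rw [hr]
        simp only
        rw [e1, e2]; ring
      rw [Finset.sum_congr rfl h5, h4]
      simp only [Nat.sub_zero]
      ring
    have h4 := hup (m + 1 - J) (by omega)
    have h5 := hlo (m + 1) (by omega)
    have h6 : Real.log ((m + 1 : ℕ) : ℝ) ≤ 2 * l := by
      rw [hldef, ← Real.log_rpow hmpos]
      apply Real.log_le_log (by positivity)
      have h7 : m + 1 ≤ m * m := by nlinarith
      have h8 : ((m + 1 : ℕ) : ℝ) ≤ (m : ℝ) * m := by exact_mod_cast h7
      refine h8.trans (le_of_eq ?_)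
      rw [show (2 : ℝ) = ((2 : ℕ) : ℝ) by norm_num, Real.rpow_natCast]; ring
    have h60 : 0 ≤ Real.log ((m + 1 : ℕ) : ℝ) := Real.log_natCast_nonneg _
    have h61 : (Real.log ((m + 1 : ℕ) : ℝ)) ^ 2 ≤ 4 * l ^ 2 := by
      calc (Real.log ((m + 1 : ℕ) : ℝ)) ^ 2 ≤ (2 * l) ^ 2 := pow_le_pow_left₀ h60 h6 2
        _ = 4 * l ^ 2 := by ring
    have h62 : Real.log ((m + 1 - J : ℕ) : ℝ) ≤ 2 * l := by
      refine le_trans (Real.log_le_log ?_ ?_) h6
      · exact_mod_cast (by omega : 0 < m + 1 - J)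
      · exact_mod_cast (by omega : m + 1 - J ≤ m + 1)
    have h7 : K ≤ K * l ^ 2 := le_mul_of_one_le_right (by linarith) hl3
    have h8 : K * (Real.log ((m + 1 : ℕ) : ℝ)) ^ 2 ≤ K * (4 * l ^ 2) :=
      mul_le_mul_of_nonneg_left h61 (by linarith)
    have h9 : (5 * K + 3) * l ^ 2 = 5 * (K * l ^ 2) + 3 * l ^ 2 := by ring
    have h10 : -K * (Real.log ((m + 1 : ℕ) : ℝ)) ^ 2 =
      -(K * (Real.log ((m + 1 : ℕ) : ℝ)) ^ 2) := by ring
    have h11 : K * (4 * l ^ 2) = 4 * (K * l ^ 2) := by ring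
    rw [h9] at hlower
    rw [h10] at h5
    rw [h11] at h8
    linarith
  -- conclusion
  have habs : |r m| ≤ D := abs_le.2 ⟨hrlo, hrup⟩
  have hexp : z (m + 1) / z m = Real.exp (r m) := by
    have h1 := hz m (by omega)
    have h2 := hz (m + 1) (by omega)
    rw [hr]
    simp only
    rw [Real.exp_sub, Real.exp_log h2, Real.exp_log h1]
  rw [hexp]
  have h1 := Real.abs_exp_sub_one_le (habs.trans hD1)
  refine h1.trans ?_
  have h2 : 2 * A * l / t = 2 * D := by rw [hD]; ring
  rw [h2]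
  linarith

end Pool.Agent.Helper99.PT
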