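import Pool.Agent.Helper99.PT.Defs

/-!
# Local surgeries of polygons
-/

set_option autoImplicit false

namespace Pool.Agent.Helper99.PT

open Pool.Agent.Helper2.QP

theorem sg_verts (X w Y : List (Fin 4)) :
    verts 0 (X ++ w ++ Y) = verts 0 X ++ (verts (dsp X) w ++ verts (dsp X + dsp w) Y) := by
  rw [verts_append, verts_append, dsp_append, zero_add, zero_add, List.append_assoc]

/-- replacing a subword by another one with the same displacement and fresh interior vertices -/
theorem isSAP_replace (X o w Y : List (Fin 4)) (h : IsSAP (X ++ o ++ Y)) (ho : o ≠ []) (hw : w ≠ [])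
    (hd : dsp o = dsp w) (hn : (verts (dsp X) w).tail.Nodup)
    (hf : ∀ v ∈ (verts (dsp X) w).tail, v ∉ verts 0 X ∧ v ∉ verts (dsp X + dsp o) Y ∧ v ≠ dsp X) :
    IsSAP (X ++ w ++ Y) := by
  obtain ⟨h0, h1⟩ := h
  refine ⟨?_, ?_⟩
  · rw [dsp_append, dsp_append, ← hd, ← dsp_append, ← dsp_append]
    exact h0
  obtain ⟨b, o', rfl⟩ := List.exists_cons_of_ne_nil ho
  obtain ⟨a, w', rfl⟩ := List.exists_cons_of_ne_nil hw
  rw [sg_verts] at h1 ⊢
  rw [← hd]
  simp only [verts, List.tail_cons] at h1 hn hf ⊢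
  rw [List.nodup_append] at h1
  obtain ⟨hX, h2, h3⟩ := h1
  rw [List.cons_append, List.nodup_cons, List.nodup_append] at h2
  obtain ⟨h4, -, hY, -⟩ := h2
  rw [List.mem_append, not_or] at h4
  rw [List.nodup_append]
  refine ⟨hX, ?_, ?_⟩
  · rw [List.cons_append, List.nodup_cons, List.nodup_append, List.mem_append, not_or]
    refine ⟨⟨fun hc => (hf _ hc).2.2 rfl, h4.2⟩, hn, hY, ?_⟩
    intro u hu v hv huv
    exact (hf u hu).2.1 (huv ▸ hv)
  · intro u hu v hv huv
    rw [List.cons_append, List.mem_cons, List.mem_append] at hv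
    rcases hv with hv | hv | hv
    · exact h3 u hu v (by rw [hv, List.cons_append]; exact List.mem_cons_self ..) huv
    · exact (hf v hv).1 (huv ▸ hu)
    · refine h3 u hu v ?_ huv
      rw [List.cons_append, List.mem_cons, List.mem_append]
      exact Or.inr (Or.inr hv)

theorem sg_take (X w Y : List (Fin 4)) : (X ++ w ++ Y).take X.length = X := by
  rw [List.append_assoc]
  exact List.take_left

theorem sg_drop (X w Y : List (Fin 4)) : (X ++ w ++ Y).drop (X.length + w.length) = Y := by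
  rw [← List.length_append]
  exact List.drop_left

theorem sg_getD (X w Y : List (Fin 4)) (k : ℕ) (hk : k < w.length) :
    (X ++ w ++ Y).getD (X.length + k) 0 = w.getD k 0 := by
  rw [List.append_assoc, List.getD_append_right _ _ _ _ (by omega), Nat.add_sub_cancel_left,
    List.getD_append _ _ _ _ hk]

theorem sg_getD0 (X w Y : List (Fin 4)) (hk : 0 < w.length) :
    (X ++ w ++ Y).getD X.length 0 = w.getD 0 0 := sg_getD X w Y 0 hk

theorem sg_vtx (X w Y : List (Fin 4)) : vtx (X ++ w ++ Y) X.length = dsp X := by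
  unfold vtx
  rw [sg_take]

/-- splitting at two consecutive letters -/
theorem sg_split2 (l : List (Fin 4)) (i : ℕ) (hi : i + 1 < l.length) :
    ∃ (X : List (Fin 4)) (a b : Fin 4) (Y : List (Fin 4)), l = X ++ [a, b] ++ Y ∧ X.length = i := by
  refine ⟨l.take i, l[i], l[i + 1], l.drop (i + 2), ?_, ?_⟩
  · conv_lhs => rw [← List.take_append_drop i l]
    rw [List.append_assoc]
    congr 1
    rw [List.drop_eq_getElem_cons (by omega : i < l.length), List.drop_eq_getElem_cons hi]
    rfl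
  · rw [List.length_take]
    omega

theorem sg_split1 (l : List (Fin 4)) (i : ℕ) (hi : i < l.length) :
    ∃ (X : List (Fin 4)) (a : Fin 4) (Y : List (Fin 4)), l = X ++ [a] ++ Y ∧ X.length = i := by
  refine ⟨l.take i, l[i], l.drop (i + 1), ?_, ?_⟩
  · conv_lhs => rw [← List.take_append_drop i l]
    rw [List.append_assoc]
    congr 1
    rw [List.drop_eq_getElem_cons hi]
    rfl
  · rw [List.length_take]
    omega

theorem sg_split3 (l : List (Fin 4)) (i : ℕ) (hi : i + 2 < l.length) :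
    ∃ (X : List (Fin 4)) (a b c : Fin 4) (Y : List (Fin 4)), l = X ++ [a, b, c] ++ Y ∧
      X.length = i := by
  refine ⟨l.take i, l[i], l[i + 1], l[i + 2], l.drop (i + 3), ?_, ?_⟩
  · conv_lhs => rw [← List.take_append_drop i l]
    rw [List.append_assoc]
    congr 1
    rw [List.drop_eq_getElem_cons (by omega : i < l.length),
      List.drop_eq_getElem_cons (by omega : i + 1 < l.length), List.drop_eq_getElem_cons hi]
    rfl
  · rw [List.length_take]
    omega

theorem sg_swp (X Y : List (Fin 4)) (a b : Fin 4) :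
    swp (X ++ [a, b] ++ Y) X.length = X ++ [b, a] ++ Y := by
  unfold swp
  rw [sg_take, sg_getD X [a, b] Y 1 (by simp), sg_getD0 X [a, b] Y (by simp)]
  have := sg_drop X [a, b] Y
  simp only [List.length_cons, List.length_nil] at this
  rw [this]
  rfl

theorem sg_bump (X Y : List (Fin 4)) (a r : Fin 4) :
    bump (X ++ [a] ++ Y) X.length r = X ++ [r, a, opp r] ++ Y := by
  unfold bump
  rw [sg_take, sg_getD0 X [a] Y (by simp)]
  have := sg_drop X [a] Y
  simp only [List.length_cons, List.length_nil] at this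
  rw [this]
  rfl

theorem sg_unbump (X Y : List (Fin 4)) (a b c : Fin 4) :
    unbump (X ++ [a, b, c] ++ Y) X.length = X ++ [b] ++ Y := by
  unfold unbump
  rw [sg_take, sg_getD X [a, b, c] Y 1 (by simp)]
  have := sg_drop X [a, b, c] Y
  simp only [List.length_cons, List.length_nil] at this
  rw [this]
  rfl

theorem sg_mem (X w Y : List (Fin 4)) (v : V) : v ∈ verts 0 (X ++ w ++ Y) ↔
    v ∈ verts 0 X ∨ v ∈ verts (dsp X) w ∨ v ∈ verts (dsp X + dsp w) Y := by
  rw [sg_verts, List.mem_append, List.mem_append]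

theorem sg_mem_Fl (X Y : List (Fin 4)) (a b : Fin 4) : X.length ∈ Fl (X ++ [a, b] ++ Y) ↔
    dsp X + stp b ∉ verts 0 (X ++ [a, b] ++ Y) := by
  unfold Fl
  rw [Finset.mem_filter, Finset.mem_range, sg_vtx, sg_getD X [a, b] Y 1 (by simp)]
  have h1 : X.length < (X ++ [a, b] ++ Y).length - 1 := by
    simp only [List.length_append, List.length_cons, List.length_nil]
    omega
  constructor
  · exact fun h => h.2
  · exact fun h => ⟨h1, h⟩

theorem sg_mem_Eb (X Y : List (Fin 4)) (a r : Fin 4) : (X.length, r) ∈ Eb (X ++ [a] ++ Y) ↔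
    dsp X + stp r ∉ verts 0 (X ++ [a] ++ Y) ∧
      dsp X + stp a + stp r ∉ verts 0 (X ++ [a] ++ Y) := by
  unfold Eb
  rw [Finset.mem_filter, Finset.mem_product, Finset.mem_range, sg_vtx, sg_getD0 X [a] Y (by simp)]
  have h1 : X.length < (X ++ [a] ++ Y).length := by
    simp only [List.length_append, List.length_cons, List.length_nil]
    omega
  constructor
  · exact fun h => h.2
  · exact fun h => ⟨⟨h1, Finset.mem_univ _⟩, h⟩

theorem sg_mem_Bm (X Y : List (Fin 4)) (a b c : Fin 4) : X.length ∈ Bm (X ++ [a, b, c] ++ Y) ↔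
    c = opp a := by
  unfold Bm
  rw [Finset.mem_filter, Finset.mem_range, sg_getD X [a, b, c] Y 2 (by simp),
    sg_getD0 X [a, b, c] Y (by simp)]
  have h1 : X.length < (X ++ [a, b, c] ++ Y).length - 2 := by
    simp only [List.length_append, List.length_cons, List.length_nil]
    omega
  constructor
  · exact fun h => h.2
  · exact fun h => ⟨h1, h⟩

theorem sg_v1 (p : V) (a : Fin 4) : verts p [a] = [p] := rfl
theorem sg_v2 (p : V) (a b : Fin 4) : verts p [a, b] = [p, p + stp a] := rfl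
theorem sg_v3 (p : V) (a b c : Fin 4) : verts p [a, b, c] = [p, p + stp a, p + stp a + stp b] := rfl

theorem sg_d1 (a : Fin 4) : dsp [a] = stp a := by simp [dsp]
theorem sg_d2 (a b : Fin 4) : dsp [a, b] = stp a + stp b := by simp [dsp]
theorem sg_d3 (a b : Fin 4) : dsp [a, b, opp a] = stp b := by
  simp only [dsp, stp_opp]
  abel

theorem sg_ne (p : V) (a : Fin 4) : p + stp a ≠ p := by
  intro h
  exact stp_ne_zero a (left_eq_add.1 h.symm)

/-- flipping a flippable corner gives a polygon -/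
theorem isSAP_swp (l : List (Fin 4)) (h : IsSAP l) (i : ℕ) (hi : i ∈ Fl l) : IsSAP (swp l i) := by
  have hi' : i + 1 < l.length := by
    have := (Finset.mem_filter.1 hi).1
    rw [Finset.mem_range] at this
    omega
  obtain ⟨X, a, b, Y, rfl, rfl⟩ := sg_split2 l i hi'
  rw [sg_mem_Fl, sg_mem, not_or, not_or] at hi
  rw [sg_swp]
  refine isSAP_replace X [a, b] [b, a] Y h (by simp) (by simp) ?_ ?_ ?_
  · rw [sg_d2, sg_d2, add_comm]
  · rw [sg_v2]
    simp
  · rw [sg_v2]
    intro v hv
    rw [List.tail_cons, List.mem_singleton] at hv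
    subst hv
    exact ⟨hi.1, hi.2.2, sg_ne _ _⟩

/-- the corner stays flippable and the flip is an involution -/
theorem swp_swp (l : List (Fin 4)) (h : IsSAP l) (i : ℕ) (hi : i ∈ Fl l) :
    i ∈ Fl (swp l i) ∧ swp (swp l i) i = l := by
  have hi' : i + 1 < l.length := by
    have := (Finset.mem_filter.1 hi).1
    rw [Finset.mem_range] at this
    omega
  obtain ⟨X, a, b, Y, rfl, rfl⟩ := sg_split2 l i hi'
  rw [sg_swp, sg_swp]
  refine ⟨?_, rfl⟩
  rw [sg_mem_Fl] at hi ⊢
  rw [sg_mem, not_or, not_or] at hi ⊢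
  have h1 := h.2
  rw [sg_verts, sg_v2, sg_d2, List.nodup_append] at h1
  obtain ⟨-, h2, h3⟩ := h1
  rw [List.nodup_append] at h2
  obtain ⟨-, -, h4⟩ := h2
  rw [sg_v2, sg_d2]
  refine ⟨?_, ?_, ?_⟩
  · intro hc
    exact h3 _ hc (dsp X + stp a) (by simp) rfl
  · intro hc
    rw [List.mem_cons, List.mem_singleton] at hc
    rcases hc with hc | hc
    · exact sg_ne _ _ hc
    · apply hi.2.1
      rw [sg_v2, ← hc]
      simp
  · rw [add_comm (stp b)]
    intro hc
    exact h4 (dsp X + stp a) (by simp) _ hc rfl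

/-- a bump can be inserted -/
theorem isSAP_bump (l : List (Fin 4)) (h : IsSAP l) (h4 : 4 ≤ l.length) (x : ℕ × Fin 4) (hx : x ∈ Eb l) :
    IsSAP (bump l x.1 x.2) ∧ x.1 ∈ Bm (bump l x.1 x.2) ∧ unbump (bump l x.1 x.2) x.1 = l ∧
      (bump l x.1 x.2).getD x.1 0 = x.2 := by
  have _ := h4
  obtain ⟨i, r⟩ := x
  have hi' : i < l.length := by
    have := (Finset.mem_product.1 (Finset.mem_filter.1 hx).1).1
    rwa [Finset.mem_range] at this
  obtain ⟨X, a, Y, rfl, rfl⟩ := sg_split1 l i hi'
  simp only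
  rw [sg_bump, sg_unbump, sg_mem_Bm, sg_getD0 X _ Y (by simp)]
  refine ⟨?_, rfl, rfl, rfl⟩
  rw [sg_mem_Eb] at hx
  obtain ⟨h1, h2⟩ := hx
  have hX : dsp X ∈ verts 0 (X ++ [a] ++ Y) := by
    rw [sg_mem, sg_v1]
    exact Or.inr (Or.inl (by simp))
  have h3 : dsp X + stp r + stp a ∉ verts 0 (X ++ [a] ++ Y) := by
    rw [add_right_comm]
    exact h2
  refine isSAP_replace X [a] [r, a, opp r] Y h (by simp) (by simp) ?_ ?_ ?_
  · rw [sg_d1, sg_d3]
  · rw [sg_v3, List.tail_cons, List.nodup_cons, List.mem_singleton]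
    exact ⟨fun hc => sg_ne _ _ hc.symm, List.nodup_singleton _⟩
  · rw [sg_v3, List.tail_cons]
    intro v hv
    have hv' : v ∉ verts 0 (X ++ [a] ++ Y) := by
      rw [List.mem_cons, List.mem_singleton] at hv
      rcases hv with rfl | rfl
      · exact h1
      · exact h3
    refine ⟨?_, ?_, ?_⟩
    · intro hc
      exact hv' ((sg_mem _ _ _ _).2 (Or.inl hc))
    · intro hc
      exact hv' ((sg_mem _ _ _ _).2 (Or.inr (Or.inr hc)))
    · intro hc
      exact hv' (hc ▸ hX)

/-- a bump can be removed -/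
theorem isSAP_unbump (l : List (Fin 4)) (h : IsSAP l) (h6 : 6 ≤ l.length) (i : ℕ) (hi : i ∈ Bm l) :
    IsSAP (unbump l i) ∧ (i, l.getD i 0) ∈ Eb (unbump l i) ∧ bump (unbump l i) i (l.getD i 0) = l := by
  have _ := h6
  have hi' : i + 2 < l.length := by
    have := (Finset.mem_filter.1 hi).1
    rw [Finset.mem_range] at this
    omega
  obtain ⟨X, r, a, c, Y, rfl, rfl⟩ := sg_split3 l i hi'
  rw [sg_mem_Bm] at hi
  subst hi
  rw [sg_unbump, sg_getD0 X _ Y (by simp)]
  have e1 : [r, a, opp r].getD 0 0 = r := rfl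
  rw [e1, sg_bump, sg_mem_Eb]
  have h1 := h.2
  rw [sg_verts, sg_v3, sg_d3, List.nodup_append] at h1
  obtain ⟨-, h2, h3⟩ := h1
  rw [List.nodup_append] at h2
  obtain ⟨h4, -, h5⟩ := h2
  have key : ∀ v, v = dsp X + stp r ∨ v = dsp X + stp r + stp a → v ≠ dsp X →
      v ∉ verts 0 (X ++ [a] ++ Y) := by
    intro v hv hvX
    have hm : v ∈ [dsp X, dsp X + stp r, dsp X + stp r + stp a] := by
      rw [List.mem_cons, List.mem_cons, List.mem_singleton]
      exact Or.inr hv
    rw [sg_mem, sg_v1, sg_d1, not_or, not_or]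
    refine ⟨?_, ?_, ?_⟩
    · intro hc
      exact h3 v hc v (List.mem_append_left _ hm) rfl
    · rw [List.mem_singleton]
      exact hvX
    · intro hc
      exact h5 v hm v hc rfl
  refine ⟨?_, ⟨?_, ?_⟩, rfl⟩
  · refine isSAP_replace X [r, a, opp r] [a] Y h (by simp) (by simp) ?_ ?_ ?_
    · rw [sg_d1, sg_d3]
    · rw [sg_v1]
      simp
    · rw [sg_v1]
      simp
  · exact key _ (Or.inl rfl) (sg_ne _ _)
  · rw [add_right_comm]
    refine key _ (Or.inr rfl) ?_
    intro hc
    rw [List.nodup_cons, List.mem_cons, List.mem_singleton, not_or] at h4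
    exact h4.1.2 hc.symm

end Pool.Agent.Helper99.PT
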