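import Pool.Agent.Helper99.PT.Defs

/-!
# Reflection in the diagonal: half of the weight is on tall polygons
-/

set_option autoImplicit false

namespace Pool.Agent.Helper99.PT

open Pool.Agent.Helper2.QP Filter

theorem rfl4_rfl4 (a : Fin 4) : rfl4 (rfl4 a) = a := by fin_cases a <;> rfl

theorem rfl4_inj {a b : Fin 4} (h : rfl4 a = rfl4 b) : a = b := by
  rw [← rfl4_rfl4 a, h, rfl4_rfl4]

theorem stp_rfl4 (a : Fin 4) : stp (rfl4 a) = (stp a).swap := by fin_cases a <;> rfl

theorem opp_rfl4 (a : Fin 4) : opp (rfl4 a) = rfl4 (opp a) := by fin_cases a <;> rfl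

theorem dsp_map_rfl (l : List (Fin 4)) : dsp (l.map rfl4) = (dsp l).swap := by
  induction l with
  | nil => simp [dsp]
  | cons a l ih =>
    simp only [List.map_cons, dsp, ih, stp_rfl4]
    rfl

theorem verts_map_rfl (p : V) (l : List (Fin 4)) :
    verts p.swap (l.map rfl4) = (verts p l).map Prod.swap := by
  induction l generalizing p with
  | nil => simp [verts]
  | cons a l ih =>
    simp only [List.map_cons, verts, stp_rfl4]
    rw [← ih (p + stp a)]
    rfl

theorem verts_map_rfl0 (l : List (Fin 4)) :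
    verts 0 (l.map rfl4) = (verts 0 l).map Prod.swap := verts_map_rfl 0 l

theorem isSAP_map_rfl (l : List (Fin 4)) (h : IsSAP l) : IsSAP (l.map rfl4) := by
  refine ⟨by rw [dsp_map_rfl, h.1]; rfl, ?_⟩
  rw [verts_map_rfl0]
  exact h.2.map Prod.swap_injective

theorem map_rfl_rfl (l : List (Fin 4)) : (l.map rfl4).map rfl4 = l := by
  rw [List.map_map]
  have : rfl4 ∘ rfl4 = id := by funext a; exact rfl4_rfl4 a
  rw [this, List.map_id]

theorem vtx_map_rfl (l : List (Fin 4)) (i : ℕ) : vtx (l.map rfl4) i = (vtx l i).swap := by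
  unfold vtx
  rw [← List.map_take, dsp_map_rfl]

theorem xdy_rfl_aux (p : V) (l : List (Fin 4)) :
    psum xdyF p.swap (l.map rfl4) + psum xdyF p l = (p + dsp l).1 * (p + dsp l).2 - p.1 * p.2 := by
  induction l generalizing p with
  | nil => simp [psum, dsp]
  | cons a l ih =>
    simp only [List.map_cons, psum, stp_rfl4, dsp]
    have h1 := ih (p + stp a)
    have h2 : p.swap + (stp a).swap = (p + stp a).swap := rfl
    have h3 : (stp a).1 * (stp a).2 = 0 := by fin_cases a <;> rfl
    rw [h2, ← add_assoc]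
    simp only [xdyF, stp_rfl4, Prod.fst_swap, Prod.snd_swap, Prod.fst_add, Prod.snd_add] at h1 ⊢
    linear_combination h1 - h3

theorem area_map_rfl (l : List (Fin 4)) (h : dsp l = 0) : area (l.map rfl4) = area l := by
  have h1 := xdy_rfl_aux 0 l
  rw [h] at h1
  have h2 : psum xdyF (0 : V).swap (l.map rfl4) = xdy (l.map rfl4) := rfl
  have h3 : psum xdyF 0 l = xdy l := rfl
  rw [h2, h3] at h1
  simp only [add_zero, Prod.fst_zero, Prod.snd_zero, mul_zero, sub_zero] at h1
  unfold area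
  have h4 : xdy (l.map rfl4) = - xdy l := by linarith
  rw [h4, Int.natAbs_neg]

theorem mem_sap_map_rfl (n : ℕ) (l : List (Fin 4)) (h : l ∈ sap n) : l.map rfl4 ∈ sap n := by
  rw [mem_sap] at h ⊢
  exact ⟨by rw [List.length_map]; exact h.1, isSAP_map_rfl l h.2⟩

/-- a polygon with `n` vertices visits at least `sqrt n` rows or at least `sqrt n` columns -/
theorem rows_or (n : ℕ) (l : List (Fin 4)) (h : l ∈ sap n) :
    Nat.sqrt n ≤ rows l ∨ Nat.sqrt n ≤ rows (l.map rfl4) := by
  classical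
  by_contra hc
  push Not at hc
  obtain ⟨h1, h2⟩ := hc
  rw [mem_sap] at h
  have hcard : (verts 0 l).toFinset.card = n := by
    rw [List.toFinset_card_of_nodup h.2.2, length_verts, h.1]
  have hsub : (verts 0 l).toFinset ⊆
      ((verts 0 (l.map rfl4)).map Prod.snd).toFinset ×ˢ ((verts 0 l).map Prod.snd).toFinset := by
    intro v hv
    rw [List.mem_toFinset] at hv
    rw [Finset.mem_product, List.mem_toFinset, List.mem_toFinset]
    refine ⟨?_, List.mem_map.mpr ⟨v, hv, rfl⟩⟩
    rw [verts_map_rfl0, List.map_map]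
    exact List.mem_map.mpr ⟨v, hv, rfl⟩
  have hle := Finset.card_le_card hsub
  rw [Finset.card_product, hcard] at hle
  have e1 : ((verts 0 (l.map rfl4)).map Prod.snd).toFinset.card = rows (l.map rfl4) := by
    unfold rows; congr!
  have e2 : ((verts 0 l).map Prod.snd).toFinset.card = rows l := by
    unfold rows; congr!
  rw [e1, e2] at hle
  have h3 : rows (l.map rfl4) * rows l ≤ (Nat.sqrt n - 1) * (Nat.sqrt n - 1) :=
    Nat.mul_le_mul (by omega) (by omega)
  have h4 := Nat.sqrt_le' n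
  have h5 : (Nat.sqrt n - 1) * (Nat.sqrt n - 1) < Nat.sqrt n * Nat.sqrt n := by
    have h6 : 1 ≤ Nat.sqrt n := by omega
    obtain ⟨k, hk⟩ : ∃ k, Nat.sqrt n = k + 1 := ⟨Nat.sqrt n - 1, by omega⟩
    rw [hk]
    simp only [Nat.add_sub_cancel]
    nlinarith
  nlinarith

theorem tall_half (q : ℝ) (hq0 : 0 < q) (P : List (Fin 4) → Prop) [DecidablePred P]
    (hP : ∀ l, IsSAP l → (P l ↔ P (l.map rfl4))) (n : ℕ) :
    ∑ l ∈ (sap n).filter P, q ^ area l ≤
      2 * ∑ l ∈ (sap n).filter (fun l => P l ∧ Nat.sqrt n ≤ rows l), q ^ area l := by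
  classical
  have hnn : ∀ l : List (Fin 4), 0 ≤ q ^ area l := fun l => pow_nonneg hq0.le _
  have h1 : ∑ l ∈ (sap n).filter P, q ^ area l ≤
      ∑ l ∈ (sap n).filter (fun l => P l ∧ Nat.sqrt n ≤ rows l), q ^ area l +
      ∑ l ∈ (sap n).filter (fun l => P l ∧ Nat.sqrt n ≤ rows (l.map rfl4)), q ^ area l := by
    have hsub : (sap n).filter P ⊆ (sap n).filter (fun l => P l ∧ Nat.sqrt n ≤ rows l) ∪
        (sap n).filter (fun l => P l ∧ Nat.sqrt n ≤ rows (l.map rfl4)) := by
      intro l hl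
      rw [Finset.mem_filter] at hl
      rw [Finset.mem_union, Finset.mem_filter, Finset.mem_filter]
      rcases rows_or n l hl.1 with h | h
      · exact Or.inl ⟨hl.1, hl.2, h⟩
      · exact Or.inr ⟨hl.1, hl.2, h⟩
    refine (Finset.sum_le_sum_of_subset_of_nonneg hsub (fun l _ _ => hnn l)).trans ?_
    have h2 := Finset.sum_union_inter (s₁ := (sap n).filter (fun l => P l ∧ Nat.sqrt n ≤ rows l))
      (s₂ := (sap n).filter (fun l => P l ∧ Nat.sqrt n ≤ rows (l.map rfl4)))
      (f := fun l => q ^ area l)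
    have h3 : 0 ≤ ∑ l ∈ (sap n).filter (fun l => P l ∧ Nat.sqrt n ≤ rows l) ∩
        (sap n).filter (fun l => P l ∧ Nat.sqrt n ≤ rows (l.map rfl4)), q ^ area l :=
      Finset.sum_nonneg (fun l _ => hnn l)
    linarith
  have h2 : ∑ l ∈ (sap n).filter (fun l => P l ∧ Nat.sqrt n ≤ rows (l.map rfl4)), q ^ area l =
      ∑ l ∈ (sap n).filter (fun l => P l ∧ Nat.sqrt n ≤ rows l), q ^ area l := by
    refine Finset.sum_bij' (fun l _ => l.map rfl4) (fun l _ => l.map rfl4) ?_ ?_ ?_ ?_ ?_
    · intro l hl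
      rw [Finset.mem_filter] at hl ⊢
      have hs := (mem_sap n l).mp hl.1
      exact ⟨mem_sap_map_rfl n l hl.1, (hP l hs.2).mp hl.2.1, hl.2.2⟩
    · intro l hl
      rw [Finset.mem_filter] at hl ⊢
      have hs := (mem_sap n l).mp hl.1
      refine ⟨mem_sap_map_rfl n l hl.1, (hP l hs.2).mp hl.2.1, ?_⟩
      rw [map_rfl_rfl]; exact hl.2.2
    · intro l _; exact map_rfl_rfl l
    · intro l _; exact map_rfl_rfl l
    · intro l hl
      rw [Finset.mem_filter] at hl
      have hs := (mem_sap n l).mp hl.1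
      rw [area_map_rfl l hs.2.1]
  rw [h2] at h1
  linarith

theorem getD_map_rfl (l : List (Fin 4)) (i : ℕ) (hi : i < l.length) :
    (l.map rfl4).getD i 0 = rfl4 (l.getD i 0) := by
  rw [List.getD_eq_getElem _ _ (by rw [List.length_map]; exact hi), List.getD_eq_getElem _ _ hi,
    List.getElem_map]

theorem mem_verts_rfl (l : List (Fin 4)) (v : V) : v.swap ∈ verts 0 (l.map rfl4) ↔ v ∈ verts 0 l := by
  rw [verts_map_rfl0, List.mem_map]
  constructor
  · rintro ⟨w, hw, h⟩
    have : w = v := Prod.swap_injective h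
    rwa [← this]
  · intro h; exact ⟨v, h, rfl⟩

theorem Fl_rfl (l : List (Fin 4)) : Fl (l.map rfl4) = Fl l := by
  unfold Fl
  rw [List.length_map]
  apply Finset.filter_congr
  intro i hi
  rw [Finset.mem_range] at hi
  rw [vtx_map_rfl, getD_map_rfl l (i + 1) (by omega), stp_rfl4]
  have h := mem_verts_rfl l (vtx l i + stp (l.getD (i + 1) 0))
  have h2 : (vtx l i + stp (l.getD (i + 1) 0)).swap
      = (vtx l i).swap + (stp (l.getD (i + 1) 0)).swap := rfl
  rw [h2] at h
  rw [h]

theorem Bm_rfl (l : List (Fin 4)) : Bm (l.map rfl4) = Bm l := by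
  unfold Bm
  rw [List.length_map]
  apply Finset.filter_congr
  intro i hi
  rw [Finset.mem_range] at hi
  rw [getD_map_rfl l (i + 2) (by omega), getD_map_rfl l i (by omega), opp_rfl4]
  exact ⟨fun h => rfl4_inj h, fun h => by rw [h]⟩

theorem Eb_rfl (l : List (Fin 4)) : Eb (l.map rfl4) = (Eb l).image (fun x => (x.1, rfl4 x.2)) := by
  ext ⟨i, r⟩
  have key : ∀ (i : ℕ) (r : Fin 4), (i, rfl4 r) ∈ Eb (l.map rfl4) ↔ (i, r) ∈ Eb l := by
    intro i r
    unfold Eb
    simp only [Finset.mem_filter, Finset.mem_product, Finset.mem_range, Finset.mem_univ, and_true,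
      List.length_map]
    constructor
    · rintro ⟨h1, h2, h3⟩
      refine ⟨h1, ?_, ?_⟩
      · intro h4
        apply h2
        rw [vtx_map_rfl, stp_rfl4]
        exact (mem_verts_rfl l _).mpr h4
      · intro h4
        apply h3
        rw [vtx_map_rfl, stp_rfl4, getD_map_rfl l i h1, stp_rfl4]
        exact (mem_verts_rfl l _).mpr h4
    · rintro ⟨h1, h2, h3⟩
      refine ⟨h1, ?_, ?_⟩
      · rw [vtx_map_rfl, stp_rfl4]
        intro h4
        exact h2 ((mem_verts_rfl l _).mp h4)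
      · rw [vtx_map_rfl, stp_rfl4, getD_map_rfl l i h1, stp_rfl4]
        intro h4
        exact h3 ((mem_verts_rfl l _).mp h4)
  rw [Finset.mem_image]
  constructor
  · intro h
    refine ⟨(i, rfl4 r), ?_, by simp only [rfl4_rfl4]⟩
    rw [← key, rfl4_rfl4]
    exact h
  · rintro ⟨⟨j, r'⟩, h1, h2⟩
    simp only [Prod.mk.injEq] at h2
    obtain ⟨rfl, rfl⟩ := h2
    exact (key _ _).mpr h1

/-- the third clause of `features` -/
theorem features_rfl : ∀ f ∈ [fun l => (Fl l).card, fun l => (Bm l).card, fun l => (Eb l).card],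
    ∀ l : List (Fin 4), f (l.map rfl4) = f l := by
  intro f hf l
  simp only [List.mem_cons, List.not_mem_nil, or_false] at hf
  rcases hf with rfl | rfl | rfl
  · simp only [Fl_rfl]
  · simp only [Bm_rfl]
  · simp only [Eb_rfl]
    apply Finset.card_image_of_injective
    rintro ⟨i, r⟩ ⟨j, r'⟩ h
    simp only [Prod.mk.injEq] at h ⊢
    exact ⟨h.1, rfl4_inj h.2⟩

end Pool.Agent.Helper99.PT
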