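import Pool.Agent.Helper99.PT.TypCore
import Pool.Agent.Helper99.PT.Tall

/-!
# A feature with few occurrences has small weight

`typical_of` takes the one-step inequality as a hypothesis.
-/

set_option autoImplicit false

namespace Pool.Agent.Helper99.PT

open Pool.Agent.Helper2.QP Filter

theorem typical_of (a b : ℝ) (ha : 0 < a) (hab : a ≤ b) (hb : b < 1) (f : List (Fin 4) → ℕ) (C : ℕ)
    (hstep : ∀ q : ℝ, 0 < q → q < 1 → ∀ n R H : ℕ, (((R / 5 : ℕ) : ℝ) - 1) *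
      ∑ l ∈ (sap n).filter (fun l => R ≤ rows l ∧ f l ≤ H), q ^ area l ≤
      (q⁻¹) ^ 10 * (C * (H + C)) *
      ∑ l ∈ (sap (n + 8)).filter (fun l => R ≤ rows l ∧ f l ≤ H + C), q ^ area l)
    (hf3 : ∀ l, IsSAP l → f (l.map rfl4) = f l) :
    ∃ c : ℝ, 0 < c ∧ ∃ m₀ : ℕ, ∀ q : ℝ, a ≤ q → q ≤ b → ∀ m : ℕ, m₀ ≤ m →
      (m : ℝ) * ∑ l ∈ (sap (2 * m)).filter (fun l => (f l : ℝ) ≤ c * Real.sqrt m), q ^ area l ≤
        Zn (2 * m) q := by
  obtain ⟨c, hc, m₀, h⟩ := typical_core a b ha hab hb f C hstep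
  refine ⟨c, hc, m₀, fun q hq1 hq2 m hm => ?_⟩
  have hq0 : 0 < q := lt_of_lt_of_le ha hq1
  refine le_trans ?_ (h q hq1 hq2 m hm)
  apply mul_le_mul_of_nonneg_left _ (Nat.cast_nonneg m)
  have e1 := tall_half q hq0 (fun l => (f l : ℝ) ≤ c * Real.sqrt m)
    (fun l hl => by rw [hf3 l hl]) (2 * m)
  refine e1.trans ?_
  apply mul_le_mul_of_nonneg_left _ (by norm_num : (0 : ℝ) ≤ 2)
  apply Finset.sum_le_sum_of_subset_of_nonneg
  · intro l hl
    rw [Finset.mem_filter] at hl ⊢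
    exact ⟨hl.1, hl.2.2, Nat.le_floor hl.2.1⟩
  · exact fun _ _ _ => pow_nonneg hq0.le _

end Pool.Agent.Helper99.PT
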