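import Pool.Agent.Helper99.PT.Defs

/-!
# Iteration of the one-step inequality (core of `typical`)
-/

set_option autoImplicit false

namespace Pool.Agent.Helper99.PT

open Pool.Agent.Helper2.QP Filter

theorem typ_iter (w : ℕ → ℝ) (ρ : ℝ) (hρ : 0 ≤ ρ) (k : ℕ) (h : ∀ j < k, w j ≤ ρ * w (j + 1)) :
    w 0 ≤ ρ ^ k * w k := by
  induction k with
  | zero => simp
  | succ k ih =>
    have h1 := ih (fun j hj => h j (by omega))
    have h2 := h k (by omega)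
    calc w 0 ≤ ρ ^ k * w k := h1
      _ ≤ ρ ^ k * (ρ * w (k + 1)) := mul_le_mul_of_nonneg_left h2 (pow_nonneg hρ k)
      _ = ρ ^ (k + 1) * w (k + 1) := by ring

/-- The asymptotic inequalities used below. -/
theorem typ_asymp (K c D B : ℝ) (hK : 1 ≤ K) (hc : 0 < c) (hD : 0 ≤ D) : ∃ m₀ : ℕ, ∀ m : ℕ, m₀ ≤ m →
    2 ≤ m ∧ 25 ≤ Real.sqrt m ∧ 1 ≤ Real.log m ∧ B ≤ Real.log m ∧
      (K + 3) * (Real.log m) ^ 2 + 1 ≤ m ∧
      D * ((K + 3) * (Real.log m) ^ 2 + 1) ≤ c * Real.sqrt m := by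
  have hL : Tendsto (fun m : ℕ => Real.log (m : ℝ)) atTop atTop :=
    Real.tendsto_log_atTop.comp tendsto_natCast_atTop_atTop
  have h1 : ∀ᶠ m : ℕ in atTop, 1 ≤ Real.log (m : ℝ) := hL.eventually_ge_atTop 1
  have h2 : ∀ᶠ m : ℕ in atTop, B ≤ Real.log (m : ℝ) := hL.eventually_ge_atTop B
  have hQ : Tendsto (fun m : ℕ => (m : ℝ) ^ ((1 : ℝ) / 4)) atTop atTop :=
    (tendsto_rpow_atTop (by norm_num)).comp tendsto_natCast_atTop_atTop
  have h3 : ∀ᶠ m : ℕ in atTop, max 25 (((K + 3) * 64 + 1) * (1 + D / c)) ≤ (m : ℝ) ^ ((1 : ℝ) / 4) :=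
    hQ.eventually_ge_atTop _
  have h4 : ∀ᶠ m : ℕ in atTop, 2 ≤ m := eventually_ge_atTop 2
  obtain ⟨m₀, hm₀⟩ := eventually_atTop.1 (h1.and (h2.and (h3.and h4)))
  refine ⟨m₀, fun m hm => ?_⟩
  obtain ⟨g1, g2, g3, g4⟩ := hm₀ m hm
  have hm0 : (0 : ℝ) < m := by exact_mod_cast (by omega : 0 < m)
  set x : ℝ := (m : ℝ) ^ ((1 : ℝ) / 4) with hx
  have g5 : 25 ≤ x := le_trans (le_max_left _ _) g3
  have g6 : ((K + 3) * 64 + 1) * (1 + D / c) ≤ x := le_trans (le_max_right _ _) g3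
  have hx2 : Real.sqrt m = x ^ 2 := by
    rw [hx, ← Real.rpow_natCast, ← Real.rpow_mul hm0.le, Real.sqrt_eq_rpow]
    norm_num
  have hx4 : (m : ℝ) = x ^ 4 := by
    rw [hx, ← Real.rpow_natCast, ← Real.rpow_mul hm0.le]
    norm_num
  have hlog : (Real.log m) ^ 2 ≤ 64 * x := by
    have e1 : Real.log (m : ℝ) ≤ (m : ℝ) ^ ((1 : ℝ) / 8) / (1 / 8) :=
      Real.log_le_rpow_div hm0.le (by norm_num)
    have e2 : ((m : ℝ) ^ ((1 : ℝ) / 8)) ^ 2 = x := by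
      rw [hx, ← Real.rpow_natCast, ← Real.rpow_mul hm0.le]
      norm_num
    calc (Real.log m) ^ 2 ≤ ((m : ℝ) ^ ((1 : ℝ) / 8) / (1 / 8)) ^ 2 :=
          pow_le_pow_left₀ (by linarith) e1 2
      _ = 64 * ((m : ℝ) ^ ((1 : ℝ) / 8)) ^ 2 := by ring
      _ = 64 * x := by rw [e2]
  have hDc : 0 ≤ D / c := div_nonneg hD hc.le
  have hKK : 0 < K + 3 := by linarith
  have hmain : (K + 3) * (Real.log m) ^ 2 + 1 ≤ ((K + 3) * 64 + 1) * x := by
    nlinarith [mul_le_mul_of_nonneg_left hlog hKK.le]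
  have hA : 0 < (K + 3) * 64 + 1 := by linarith
  have hA1 : (K + 3) * 64 + 1 ≤ x := by nlinarith
  have hA2 : D * ((K + 3) * 64 + 1) ≤ c * x := by
    have e1 : c * (((K + 3) * 64 + 1) * (1 + D / c)) ≤ c * x := mul_le_mul_of_nonneg_left g6 hc.le
    have e2 : c * (((K + 3) * 64 + 1) * (1 + D / c)) = ((K + 3) * 64 + 1) * (c + D) := by
      field_simp
    nlinarith
  refine ⟨g4, ?_, g1, g2, ?_, ?_⟩
  · rw [hx2]; nlinarith
  · have e9 : x * x ≤ x ^ 4 := by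
      have e10 : 1 ≤ x * x := by nlinarith
      nlinarith [mul_le_mul_of_nonneg_left e10 (by linarith : 0 ≤ x * x)]
    calc (K + 3) * (Real.log m) ^ 2 + 1 ≤ ((K + 3) * 64 + 1) * x := hmain
      _ ≤ x * x := mul_le_mul_of_nonneg_right hA1 (by linarith)
      _ ≤ x ^ 4 := e9
      _ = m := hx4.symm
  · rw [hx2]
    calc D * ((K + 3) * (Real.log m) ^ 2 + 1) ≤ D * (((K + 3) * 64 + 1) * x) :=
          mul_le_mul_of_nonneg_left hmain hD
      _ = (D * ((K + 3) * 64 + 1)) * x := by ring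
      _ ≤ (c * x) * x := mul_le_mul_of_nonneg_right hA2 (by linarith)
      _ = c * x ^ 2 := by ring

theorem typ_row (m : ℕ) (h : 25 ≤ Real.sqrt m) :
    Real.sqrt m / 5 ≤ (((Nat.sqrt (2 * m)) / 5 : ℕ) : ℝ) - 1 := by
  set R := Nat.sqrt (2 * m) with hR
  have h1 : 2 * m < (R + 1) * (R + 1) := Nat.lt_succ_sqrt (2 * m)
  have h2 : (2 : ℝ) * m < ((R : ℝ) + 1) ^ 2 := by
    have : ((2 * m : ℕ) : ℝ) < (((R + 1) * (R + 1) : ℕ) : ℝ) := by exact_mod_cast h1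
    push_cast at this
    nlinarith
  have h3 : (Real.sqrt m) ^ 2 = m := Real.sq_sqrt (Nat.cast_nonneg m)
  have h4 : 1.4 * Real.sqrt m ≤ (R : ℝ) + 1 := by
    apply le_of_lt
    apply lt_of_pow_lt_pow_left₀ 2 (by positivity)
    calc (1.4 * Real.sqrt m) ^ 2 = 1.96 * m := by rw [mul_pow, h3]; norm_num
      _ ≤ 2 * m := by nlinarith [(Nat.cast_nonneg m : (0 : ℝ) ≤ m)]
      _ < ((R : ℝ) + 1) ^ 2 := h2
  have h5 : R ≤ 5 * (R / 5) + 4 := by omega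
  have h6 : (R : ℝ) ≤ 5 * ((R / 5 : ℕ) : ℝ) + 4 := by exact_mod_cast h5
  linarith

theorem typical_core (a b : ℝ) (ha : 0 < a) (hab : a ≤ b) (hb : b < 1) (f : List (Fin 4) → ℕ) (C : ℕ)
    (hstep : ∀ q : ℝ, 0 < q → q < 1 → ∀ n R H : ℕ, (((R / 5 : ℕ) : ℝ) - 1) *
      ∑ l ∈ (sap n).filter (fun l => R ≤ rows l ∧ f l ≤ H), q ^ area l ≤
      (q⁻¹) ^ 10 * (C * (H + C)) *
      ∑ l ∈ (sap (n + 8)).filter (fun l => R ≤ rows l ∧ f l ≤ H + C), q ^ area l) :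
    ∃ c : ℝ, 0 < c ∧ ∃ m₀ : ℕ, ∀ q : ℝ, a ≤ q → q ≤ b → ∀ m : ℕ, m₀ ≤ m →
      (m : ℝ) * (2 * ∑ l ∈ (sap (2 * m)).filter
        (fun l => Nat.sqrt (2 * m) ≤ rows l ∧ f l ≤ ⌊c * Real.sqrt m⌋₊), q ^ area l) ≤
        Zn (2 * m) q := by
  obtain ⟨K, hK, hmain⟩ := words_main2 a b ha hab hb
  set L : ℝ := 16 * Real.exp (K * (Real.log 2) ^ 2) with hL
  have hL0 : 0 < L := by positivity
  set P : ℝ := 10 * ((C : ℝ) + 1) * (a⁻¹) ^ 10 with hP
  have hP0 : 0 < P := by positivity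
  set c : ℝ := Real.exp (-1) / (P * L ^ 4) with hc
  have hc0 : 0 < c := by positivity
  obtain ⟨m₀, hm₀⟩ := typ_asymp K c (C : ℝ) (Real.log (320 / a)) hK hc0 (Nat.cast_nonneg C)
  refine ⟨c, hc0, m₀, fun q hq1 hq2 m hm => ?_⟩
  obtain ⟨g1, g2, g3, g4, g5, g6⟩ := hm₀ m hm
  have hq0 : 0 < q := lt_of_lt_of_le ha hq1
  have hq3 : q < 1 := lt_of_le_of_lt hq2 hb
  obtain ⟨hΛ0, hΛ, -⟩ := hmain q hq1 hq2 _ rfl
  set Λ : ℝ := limsup (fun m : ℕ => (Zn (2 * m) q) ^ ((1 : ℝ) / m)) atTop with hΛdef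
  have hm0 : (0 : ℝ) < m := by exact_mod_cast (by omega : 0 < m)
  have hs0 : 0 < Real.sqrt m := by linarith
  -- bounds for Λ
  have hΛu : Λ ≤ L := by
    have e1 := (hΛ 2 le_rfl).1
    have e2 := Zn_upper q hq0 hq3.le (2 * 2)
    have e3 : Real.exp (-K * (Real.log 2) ^ 2) * Λ ^ 2 ≤ 256 := by
      have := e1.trans e2
      norm_num at this ⊢
      exact this
    have e4 : Λ ^ 2 ≤ L ^ 2 := by
      have e5 : Λ ^ 2 = Real.exp (K * (Real.log 2) ^ 2) *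
          (Real.exp (-K * (Real.log 2) ^ 2) * Λ ^ 2) := by
        rw [← mul_assoc, ← Real.exp_add]
        have : K * (Real.log 2) ^ 2 + -K * (Real.log 2) ^ 2 = 0 := by ring
        rw [this]; simp
      rw [e5]
      have e6 : 1 ≤ Real.exp (K * (Real.log 2) ^ 2) :=
        Real.one_le_exp (by positivity)
      calc Real.exp (K * (Real.log 2) ^ 2) * (Real.exp (-K * (Real.log 2) ^ 2) * Λ ^ 2)
          ≤ Real.exp (K * (Real.log 2) ^ 2) * 256 := mul_le_mul_of_nonneg_left e3 (Real.exp_pos _).le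
        _ ≤ L ^ 2 := by rw [hL]; nlinarith
    exact le_of_sq_le_sq e4 hL0.le
  have hΛl : a / 8 ≤ Λ := by
    have e1 := (hΛ 2 le_rfl).2
    have e2 := Zn_lower q hq0 2 le_rfl
    have e3 : q ≤ 8 * Λ := by
      have := e2.trans e1
      norm_num at this ⊢
      linarith
    linarith
  -- the iteration
  set R := Nat.sqrt (2 * m) with hR
  set k : ℕ := ⌈(K + 3) * (Real.log m) ^ 2⌉₊ with hk
  have hk1 : (K + 3) * (Real.log m) ^ 2 ≤ k := Nat.le_ceil _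
  have hk2 : (k : ℝ) < (K + 3) * (Real.log m) ^ 2 + 1 := Nat.ceil_lt_add_one (by positivity)
  set H : ℕ := ⌊c * Real.sqrt m⌋₊ with hH
  have hH1 : (H : ℝ) ≤ c * Real.sqrt m := Nat.floor_le (by positivity)
  let S : ℕ → ℝ := fun j => ∑ l ∈ (sap (2 * m + 8 * j)).filter
    (fun l => R ≤ rows l ∧ f l ≤ H + C * j), q ^ area l
  have hS0 : ∀ j, 0 ≤ S j := fun j => Finset.sum_nonneg fun _ _ => pow_nonneg hq0.le _
  have hrow := typ_row m g2
  have hρ : ∀ j < k, S j ≤ (c * P) * S (j + 1) := by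
    intro j hj
    have e1 := hstep q hq0 hq3 (2 * m + 8 * j) R (H + C * j)
    have e2 : 2 * m + 8 * j + 8 = 2 * m + 8 * (j + 1) := by ring
    have e3 : H + C * j + C = H + C * (j + 1) := by ring
    rw [e2, e3] at e1
    have e4 : Real.sqrt m / 5 * S j ≤ (((R / 5 : ℕ) : ℝ) - 1) * S j :=
      mul_le_mul_of_nonneg_right hrow (hS0 j)
    have e5 : (q⁻¹) ^ 10 ≤ (a⁻¹) ^ 10 :=
      pow_le_pow_left₀ (by positivity) (inv_anti₀ ha hq1) 10
    have e6 : (((H + C * j : ℕ) : ℝ) + C) ≤ 2 * (c * Real.sqrt m) := by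
      push_cast
      have e7 : ((j : ℝ) + 1) ≤ k := by exact_mod_cast hj
      have e8 : (C : ℝ) * (j + 1) ≤ C * ((K + 3) * (Real.log m) ^ 2 + 1) :=
        mul_le_mul_of_nonneg_left (e7.trans hk2.le) (Nat.cast_nonneg C)
      nlinarith
    have e9 : (q⁻¹) ^ 10 * (C * (((H + C * j : ℕ) : ℝ) + C)) ≤
        (a⁻¹) ^ 10 * (((C : ℝ) + 1) * (2 * (c * Real.sqrt m))) := by
      apply mul_le_mul e5 _ (by positivity) (by positivity)
      apply mul_le_mul (by linarith) e6 (by positivity) (by positivity)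
    have e10 : (q⁻¹) ^ 10 * (C * (((H + C * j : ℕ) : ℝ) + C)) * S (j + 1) ≤
        (a⁻¹) ^ 10 * (((C : ℝ) + 1) * (2 * (c * Real.sqrt m))) * S (j + 1) :=
      mul_le_mul_of_nonneg_right e9 (hS0 _)
    have e11 : Real.sqrt m / 5 * S j ≤ Real.sqrt m / 5 * ((c * P) * S (j + 1)) := by
      calc Real.sqrt m / 5 * S j ≤ (((R / 5 : ℕ) : ℝ) - 1) * S j := e4
        _ ≤ (q⁻¹) ^ 10 * (C * (((H + C * j : ℕ) : ℝ) + C)) * S (j + 1) := e1
        _ ≤ (a⁻¹) ^ 10 * (((C : ℝ) + 1) * (2 * (c * Real.sqrt m))) * S (j + 1) := e10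
        _ = Real.sqrt m / 5 * ((c * P) * S (j + 1)) := by rw [hP]; ring
    exact le_of_mul_le_mul_left e11 (by positivity)
  have hit := typ_iter S (c * P) (by positivity) k hρ
  have hSk : S k ≤ Zn (2 * (m + 4 * k)) q := by
    have e1 : 2 * m + 8 * k = 2 * (m + 4 * k) := by ring
    show ∑ l ∈ (sap (2 * m + 8 * k)).filter _, q ^ area l ≤ _
    rw [e1]
    exact Finset.sum_le_sum_of_subset_of_nonneg (Finset.filter_subset _ _)
      fun _ _ _ => pow_nonneg hq0.le _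
  have hup := (hΛ (m + 4 * k) (by omega)).2
  have hlow := (hΛ m g1).1
  have hkm : (k : ℝ) ≤ m := hk2.le.trans g5
  have hpow : Λ ^ (m + 4 * k - 1) ≤ Λ ^ m * (L ^ 4) ^ k * (8 / a) := by
    have e1 : Λ ^ (m + 4 * k - 1) * Λ = Λ ^ m * Λ ^ (4 * k) := by
      rw [← pow_succ, ← pow_add]
      congr 1
      omega
    have e2 : Λ ^ (4 * k) ≤ (L ^ 4) ^ k := by
      rw [← pow_mul]
      exact pow_le_pow_left₀ hΛ0.le hΛu _
    have e3 : Λ ^ (m + 4 * k - 1) * Λ ≤ Λ ^ m * (L ^ 4) ^ k := by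
      rw [e1]
      exact mul_le_mul_of_nonneg_left e2 (by positivity)
    have e4 : Λ ^ (m + 4 * k - 1) * (a / 8) ≤ Λ ^ m * (L ^ 4) ^ k :=
      (mul_le_mul_of_nonneg_left hΛl (by positivity)).trans e3
    calc Λ ^ (m + 4 * k - 1) = Λ ^ (m + 4 * k - 1) * (a / 8) * (8 / a) := by
          field_simp
      _ ≤ Λ ^ m * (L ^ 4) ^ k * (8 / a) := mul_le_mul_of_nonneg_right e4 (by positivity)
  have hcp : c * P * L ^ 4 = Real.exp (-1) := by
    rw [hc]; field_simp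
  have hfin : S 0 ≤ Real.exp (-(k : ℝ)) * (160 * m / a) * Λ ^ m := by
    have e1 : (c * P) ^ k * (L ^ 4) ^ k = Real.exp (-(k : ℝ)) := by
      rw [← mul_pow, hcp, ← Real.exp_nat_mul]
      congr 1
      ring
    have e2 : (4 : ℝ) * ((m + 4 * k : ℕ) : ℝ) ≤ 20 * m := by
      push_cast
      linarith
    calc S 0 ≤ (c * P) ^ k * S k := hit
      _ ≤ (c * P) ^ k * (4 * ((m + 4 * k : ℕ) : ℝ) * Λ ^ (m + 4 * k - 1)) :=
          mul_le_mul_of_nonneg_left (hSk.trans hup) (by positivity)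
      _ ≤ (c * P) ^ k * (20 * m * (Λ ^ m * (L ^ 4) ^ k * (8 / a))) := by
          apply mul_le_mul_of_nonneg_left _ (by positivity)
          exact mul_le_mul e2 hpow (by positivity) (by positivity)
      _ = ((c * P) ^ k * (L ^ 4) ^ k) * (160 * m / a) * Λ ^ m := by ring
      _ = Real.exp (-(k : ℝ)) * (160 * m / a) * Λ ^ m := by rw [e1]
  have hS00 : (∑ l ∈ (sap (2 * m)).filter
        (fun l => R ≤ rows l ∧ f l ≤ H), q ^ area l) = S 0 := by
    show _ = ∑ l ∈ (sap (2 * m + 8 * 0)).filter (fun l => R ≤ rows l ∧ f l ≤ H + C * 0), q ^ area l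
    simp
  rw [hS00]
  have hexp : Real.exp (-(k : ℝ)) * (320 * m ^ 2 / a) ≤ Real.exp (-K * (Real.log m) ^ 2) := by
    have e1 : Real.exp (-(k : ℝ)) ≤ Real.exp (-((K + 3) * (Real.log m) ^ 2)) :=
      Real.exp_le_exp.2 (by linarith)
    have e2 : (320 * (m : ℝ) ^ 2 / a) = Real.exp (Real.log (320 / a) + 2 * Real.log m) := by
      rw [Real.exp_add, Real.exp_log (by positivity), show 2 * Real.log (m : ℝ) = Real.log m + Real.log m by ring,
        Real.exp_add, Real.exp_log hm0]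
      ring
    rw [e2]
    calc Real.exp (-(k : ℝ)) * Real.exp (Real.log (320 / a) + 2 * Real.log m)
        ≤ Real.exp (-((K + 3) * (Real.log m) ^ 2)) * Real.exp (Real.log (320 / a) + 2 * Real.log m) :=
          mul_le_mul_of_nonneg_right e1 (Real.exp_pos _).le
      _ = Real.exp (-((K + 3) * (Real.log m) ^ 2) + (Real.log (320 / a) + 2 * Real.log m)) := by
          rw [← Real.exp_add]
      _ ≤ Real.exp (-K * (Real.log m) ^ 2) := by
          apply Real.exp_le_exp.2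
          nlinarith
  calc (m : ℝ) * (2 * S 0) ≤ (m : ℝ) * (2 * (Real.exp (-(k : ℝ)) * (160 * m / a) * Λ ^ m)) := by
        apply mul_le_mul_of_nonneg_left _ hm0.le
        linarith
    _ = (Real.exp (-(k : ℝ)) * (320 * m ^ 2 / a)) * Λ ^ m := by ring
    _ ≤ Real.exp (-K * (Real.log m) ^ 2) * Λ ^ m :=
        mul_le_mul_of_nonneg_right hexp (by positivity)
    _ ≤ Zn (2 * m) q := hlow

end Pool.Agent.Helper99.PT
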