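import Pool.Agent.Helper99.PT.Defs
import Pool.Agent.Helper2.QP.Jordan

/-!
# The window lemma, geometric part

In five consecutive visited rows which do not contain the root, the rightmost vertices of the rows
show one of the six configurations of `Cfg6`.
-/

set_option autoImplicit false

namespace Pool.Agent.Helper99.PT

open Pool.Agent.Helper2.QP

theorem has_idx {l : List (Fin 4)} {c : Fin 4} {s : List (Fin 4)} {p : V} (h : Has l (c :: s) p) :
    ∃ (k : ℕ) (hk : k < l.length), vtx l k = p ∧ l[k] = c := by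
  obtain ⟨X, Y, rfl, hX⟩ := h
  refine ⟨X.length, by simp, ?_, ?_⟩
  · rw [← hX]
    simp [vtx, List.append_assoc]
  · simp [List.append_assoc]

theorem has_fst {l : List (Fin 4)} {a b : Fin 4} {p : V} (h : Has l [a, b] p) : Has l [a] p := by
  obtain ⟨X, Y, rfl, hX⟩ := h
  exact ⟨X, b :: Y, by simp, hX⟩

theorem has_snd {l : List (Fin 4)} {a b : Fin 4} {p : V} (h : Has l [a, b] p) :
    Has l [b] (p + stp a) := by
  obtain ⟨X, Y, rfl, hX⟩ := h
  refine ⟨X ++ [a], Y, by simp, ?_⟩
  rw [dsp_append, hX]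
  simp [dsp]

/-- a vertex different from the root: the letters of the two steps at it -/
theorem thr (l : List (Fin 4)) (h : IsSAP l) (h3 : 3 ≤ l.length) (v : V) (hv : v ∈ verts 0 l)
    (h0 : v ≠ 0) : ∃ a b : Fin 4, b ≠ opp a ∧ Has l [a, b] (v - stp a) ∧ v - stp a ∈ verts 0 l ∧
      v + stp b ∈ verts 0 l ∧ (∀ c, Has l [c] v → c = b) ∧ ∀ c, Has l [c] (v - stp c) → c = a := by
  obtain ⟨k, hk, hkv⟩ := (mem_verts_zero l v).1 hv
  have hk0 : k ≠ 0 := by
    rintro rfl
    exact h0 (by rw [← hkv, vtx_zero])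
  obtain ⟨i, rfl⟩ : ∃ i, k = i + 1 := ⟨k - 1, by omega⟩
  have hi : i < l.length := by omega
  have hs : vtx l (i + 1) = vtx l i + stp l[i] := vtx_succ l i hi
  have e1 : v - stp l[i] = vtx l i := by rw [← hkv, hs, add_sub_cancel_right]
  refine ⟨l[i], l[i + 1], ?_, ?_, ?_, ?_, ?_, ?_⟩
  · rw [opp_eq]
    exact no_rev l h h3 i hi (i + 1) hk (Nat.mod_eq_of_lt hk).symm
  · refine ⟨l.take i, l.drop (i + 2), ?_, e1.symm⟩
    have h1 : l.drop i = l[i] :: l[i + 1] :: l.drop (i + 2) := by
      rw [List.drop_eq_getElem_cons hi, List.drop_eq_getElem_cons hk]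
    conv_lhs => rw [← List.take_append_drop i l, h1]
    simp
  · rw [e1]
    exact (mem_verts_zero l _).2 ⟨i, hi, rfl⟩
  · rw [← hkv, ← vtx_succ_mod l h.1 (i + 1) hk]
    exact (mem_verts_zero l _).2 ⟨_, Nat.mod_lt _ (by omega), rfl⟩
  · intro c hc
    obtain ⟨m, hm, hmv, hmc⟩ := has_idx hc
    have h1 : m = i + 1 := vtx_inj l h hm hk (hmv.trans hkv.symm)
    subst h1
    exact hmc.symm
  · intro c hc
    obtain ⟨m, hm, hmv, hmc⟩ := has_idx hc
    have h2 : vtx l ((m + 1) % l.length) = v := by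
      rw [vtx_succ_mod l h.1 m hm, hmv, hmc, sub_add_cancel]
    have h1 : (m + 1) % l.length = i + 1 :=
      vtx_inj l h (Nat.mod_lt _ (by omega)) hk (h2.trans hkv.symm)
    have h4 : m = i := by
      rcases Nat.lt_or_ge (m + 1) l.length with h5 | h5
      · rw [Nat.mod_eq_of_lt h5] at h1
        omega
      · have h6 : m + 1 = l.length := by omega
        rw [h6, Nat.mod_self] at h1
        omega
    subst h4
    exact hmc.symm

/-- a visited row has a rightmost vertex -/
theorem exists_right (l : List (Fin 4)) (j : ℤ) (h : ∃ x : ℤ, (x, j) ∈ verts 0 l) :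
    ∃ x : ℤ, (x, j) ∈ verts 0 l ∧ Rt l j x := by
  classical
  obtain ⟨x₀, hx₀⟩ := h
  obtain ⟨v, hv, hmax⟩ := Finset.exists_max_image
    ((verts 0 l).toFinset.filter (fun v => v.2 = j)) Prod.fst
    ⟨(x₀, j), by simp [hx₀]⟩
  simp only [Finset.mem_filter, List.mem_toFinset] at hv hmax
  refine ⟨v.1, ?_, fun w hw hj => hmax w ⟨hw, hj⟩⟩
  rw [← hv.2]
  exact hv.1

theorem Rt.mono {l : List (Fin 4)} {j x x' : ℤ} (h : Rt l j x) (hx : x ≤ x') : Rt l j x' :=
  fun v hv hj => (h v hv hj).trans hx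

theorem Rt.not_mem {l : List (Fin 4)} {j x : ℤ} (h : Rt l j x) {x' : ℤ} (hx : x < x') :
    ((x', j) : V) ∉ verts 0 l := fun hm => by
  have := h _ hm rfl
  simp only at this
  omega

/-- a vertex with free right and upper neighbours: arrival right and departure down, or arrival up
and departure left -/
theorem corner_up (l : List (Fin 4)) (h : IsSAP l) (h3 : 3 ≤ l.length) (M j : ℤ)
    (hv : ((M, j) : V) ∈ verts 0 l) (hj : j ≠ 0) (hR : ((M + 1, j) : V) ∉ verts 0 l)
    (hU : ((M, j + 1) : V) ∉ verts 0 l) :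
    (Has l [0] (M - 1, j) ∧ Has l [3] (M, j)) ∨ (Has l [1] (M, j - 1) ∧ Has l [2] (M, j)) := by
  obtain ⟨a, b, hab, hH, h1, h2, -, -⟩ := thr l h h3 (M, j) hv (by simp [Prod.ext_iff, hj])
  have hf := has_fst hH
  have hs := has_snd hH
  rw [sub_add_cancel] at hs
  fin_cases a <;> fin_cases b <;> simp [stp, opp] at hab h1 h2 hf hs <;> simp_all

/-- a vertex with free right and lower neighbours -/
theorem corner_down (l : List (Fin 4)) (h : IsSAP l) (h3 : 3 ≤ l.length) (M j : ℤ)
    (hv : ((M, j) : V) ∈ verts 0 l) (hj : j ≠ 0) (hR : ((M + 1, j) : V) ∉ verts 0 l)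
    (hD : ((M, j - 1) : V) ∉ verts 0 l) :
    (Has l [0] (M - 1, j) ∧ Has l [1] (M, j)) ∨ (Has l [3] (M, j + 1) ∧ Has l [2] (M, j)) := by
  obtain ⟨a, b, hab, hH, h1, h2, -, -⟩ := thr l h h3 (M, j) hv (by simp [Prod.ext_iff, hj])
  have hf := has_fst hH
  have hs := has_snd hH
  rw [sub_add_cancel] at hs
  fin_cases a <;> fin_cases b <;> simp [stp, opp, ← sub_eq_add_neg] at hab h1 h2 hf hs <;> simp_all

theorem window_geo (l : List (Fin 4)) (h : IsSAP l) (y : ℤ)
    (hy : ∀ k : ℤ, 0 ≤ k → k ≤ 4 → ∃ x : ℤ, (x, y + k) ∈ verts 0 l) (h0 : 0 < y ∨ y + 4 < 0) :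
    ∃ M j : ℤ, Cfg6 l y M j := by
  classical
  obtain ⟨x0, m0, r0⟩ := exists_right l _ (hy 0 (by norm_num) (by norm_num))
  obtain ⟨x1, m1, r1⟩ := exists_right l _ (hy 1 (by norm_num) (by norm_num))
  obtain ⟨x2, m2, r2⟩ := exists_right l _ (hy 2 (by norm_num) (by norm_num))
  obtain ⟨x3, m3, r3⟩ := exists_right l _ (hy 3 (by norm_num) (by norm_num))
  obtain ⟨x4, m4, r4⟩ := exists_right l _ (hy 4 (by norm_num) (by norm_num))
  have h3 : 3 ≤ l.length := by
    have hs : ({(x0, y + 0), (x1, y + 1), (x2, y + 2)} : Finset V) ⊆ (verts 0 l).toFinset := by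
      intro v hv
      simp only [Finset.mem_insert, Finset.mem_singleton] at hv
      rcases hv with rfl | rfl | rfl <;> exact List.mem_toFinset.2 (by assumption)
    have hc : ({(x0, y + 0), (x1, y + 1), (x2, y + 2)} : Finset V).card = 3 := by
      rw [Finset.card_insert_of_notMem, Finset.card_insert_of_notMem, Finset.card_singleton]
      · simp
      · simp
    have h1 := Finset.card_le_card hs
    have h2 := List.toFinset_card_le (verts 0 l)
    rw [length_verts] at h2
    omega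
  -- a weak local maximum
  have caseA : ∀ (j M a b : ℤ), y + 1 ≤ j → j ≤ y + 3 → ((M, j) : V) ∈ verts 0 l → Rt l (j - 1) a →
      Rt l j M → Rt l (j + 1) b → a ≤ M → b ≤ M → ∃ M j : ℤ, Cfg6 l y M j := by
    intro j M a b hj1 hj2 hm ra rM rb haM hbM
    have hj0 : j ≠ 0 := by omega
    have ra' := ra.mono haM
    have rb' := rb.mono hbM
    obtain ⟨c, d, hcd, hH, e1, e2, -, -⟩ := thr l h h3 (M, j) hm (by simp [Prod.ext_iff, hj0])
    have hf := has_fst hH
    have hs := has_snd hH
    rw [sub_add_cancel] at hs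
    have hR := rM.not_mem (lt_add_one M)
    have key : (Has l [1] (M, j) ∨ Has l [3] (M, j + 1)) ∨
        (Has l [1] (M, j - 1) ∨ Has l [3] (M, j)) := by
      fin_cases c <;> fin_cases d <;> simp [stp, opp] at hcd e1 e2 hf hs <;> simp_all
    rcases key with hk | hk
    · exact ⟨M, j, Or.inl ⟨hj1, hj2, hk, ra', rM, rb'⟩⟩
    · exact ⟨M, j, Or.inr (Or.inl ⟨hj1, hj2, hk, ra', rM, rb'⟩)⟩
  -- two descents above
  have caseB : ∀ (j M a b : ℤ), y ≤ j → j ≤ y + 2 → ((M, j) : V) ∈ verts 0 l →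
      ((a, j + 1) : V) ∈ verts 0 l → Rt l j M → Rt l (j + 1) a → Rt l (j + 2) b → a < M → b < a →
      ∃ M j : ℤ, Cfg6 l y M j := by
    intro j M a b hj1 hj2 hm hma rM ra rb haM hba
    have hj0 : j ≠ 0 := by omega
    have hj0' : j + 1 ≠ 0 := by omega
    have hR := rM.not_mem (lt_add_one M)
    have hU : ((M, j + 1) : V) ∉ verts 0 l := ra.not_mem haM
    have ht := corner_up l h h3 M j hm hj0 hR hU
    by_cases hab : a ≤ M - 2
    · refine ⟨M, j, Or.inr (Or.inr (Or.inl ⟨hj1, hj2, ?_, rM, ra.mono hab, rb.mono (by omega)⟩))⟩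
      rcases ht with ht | ht
      · exact Or.inr ht.1
      · exact Or.inl ht.2
    · obtain rfl : a = M - 1 := by omega
      have hR' : ((M - 1 + 1, j + 1) : V) ∉ verts 0 l := ra.not_mem (by omega)
      have hU' : ((M - 1, j + 1 + 1) : V) ∉ verts 0 l := by
        have := rb.not_mem (x' := M - 1) hba
        rwa [show j + 2 = j + 1 + 1 by ring] at this
      have hv := corner_up l h h3 (M - 1) (j + 1) hma hj0' hR' hU'
      have hu : ((M - 1, j) : V) ∈ verts 0 l := by
        rcases ht with ht | ht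
        · obtain ⟨k, hk, hkv, -⟩ := has_idx ht.1
          exact (mem_verts_zero l _).2 ⟨k, hk, hkv⟩
        · obtain ⟨k, hk, hkv, hkc⟩ := has_idx ht.2
          have h5 := vtx_succ_mod l h.1 k hk
          rw [hkv, hkc] at h5
          refine (mem_verts_zero l _).2 ⟨_, Nat.mod_lt (k + 1) (by omega), h5.trans ?_⟩
          simp [stp, sub_eq_add_neg]
      obtain ⟨c, d, hcd, hH, e1, e2, hd, hc⟩ := thr l h h3 (M - 1, j) hu (by simp [Prod.ext_iff, hj0])
      have q0 := hd 0
      have q1 := hd 1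
      have q2 := hc 2
      have q3 := hc 3
      have s2 : ((M - 1, j) : V) - stp 2 = (M, j) := by simp [stp]
      have s3 : ((M - 1, j) : V) - stp 3 = (M - 1, j + 1) := by simp [stp]
      rw [s2] at q2
      rw [s3] at q3
      refine ⟨M, j, Or.inr (Or.inr (Or.inr (Or.inr (Or.inl ⟨hj1, hj2, ?_, rM, ra, rb.mono (by omega)⟩))))⟩
      rcases ht with ht | ht <;> rcases hv with hv | hv
      · -- u → t, v → u
        have w0 := q0 ht.1
        have w3 := q3 hv.2
        subst w0 w3
        rw [s3] at hH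
        exact Or.inr hH
      · -- u → t, u → v
        have w0 := q0 ht.1
        have w1 := q1 (by simpa using hv.1)
        subst w0
        exact absurd w1 (by decide)
      · -- t → u, v → u
        have w2 := q2 ht.2
        have w3 := q3 hv.2
        subst w2
        exact absurd w3 (by decide)
      · -- t → u, u → v
        have w2 := q2 ht.2
        have w1 := q1 (by simpa using hv.1)
        subst w2 w1
        rw [s2] at hH
        exact Or.inl hH
  -- two descents below
  have caseC : ∀ (j M a b : ℤ), y + 2 ≤ j → j ≤ y + 4 → ((M, j) : V) ∈ verts 0 l →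
      ((a, j - 1) : V) ∈ verts 0 l → Rt l j M → Rt l (j - 1) a → Rt l (j - 2) b → a < M → b < a →
      ∃ M j : ℤ, Cfg6 l y M j := by
    intro j M a b hj1 hj2 hm hma rM ra rb haM hba
    have hj0 : j ≠ 0 := by omega
    have hj0' : j - 1 ≠ 0 := by omega
    have hR := rM.not_mem (lt_add_one M)
    have hU : ((M, j - 1) : V) ∉ verts 0 l := ra.not_mem haM
    have ht := corner_down l h h3 M j hm hj0 hR hU
    by_cases hab : a ≤ M - 2
    · refine ⟨M, j, Or.inr (Or.inr (Or.inr (Or.inl
        ⟨hj1, hj2, ?_, rM, ra.mono hab, rb.mono (by omega)⟩)))⟩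
      rcases ht with ht | ht
      · exact Or.inr ht.1
      · exact Or.inl ht.2
    · obtain rfl : a = M - 1 := by omega
      have hR' : ((M - 1 + 1, j - 1) : V) ∉ verts 0 l := ra.not_mem (by omega)
      have hU' : ((M - 1, j - 1 - 1) : V) ∉ verts 0 l := by
        have := rb.not_mem (x' := M - 1) hba
        rwa [show j - 2 = j - 1 - 1 by ring] at this
      have hv := corner_down l h h3 (M - 1) (j - 1) hma hj0' hR' hU'
      have hu : ((M - 1, j) : V) ∈ verts 0 l := by
        rcases ht with ht | ht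
        · obtain ⟨k, hk, hkv, -⟩ := has_idx ht.1
          exact (mem_verts_zero l _).2 ⟨k, hk, hkv⟩
        · obtain ⟨k, hk, hkv, hkc⟩ := has_idx ht.2
          have h5 := vtx_succ_mod l h.1 k hk
          rw [hkv, hkc] at h5
          refine (mem_verts_zero l _).2 ⟨_, Nat.mod_lt (k + 1) (by omega), h5.trans ?_⟩
          simp [stp, sub_eq_add_neg]
      obtain ⟨c, d, hcd, hH, e1, e2, hd, hc⟩ := thr l h h3 (M - 1, j) hu (by simp [Prod.ext_iff, hj0])
      have q0 := hd 0
      have q3 := hd 3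
      have q2 := hc 2
      have q1 := hc 1
      have s2 : ((M - 1, j) : V) - stp 2 = (M, j) := by simp [stp]
      have s1 : ((M - 1, j) : V) - stp 1 = (M - 1, j - 1) := by simp [stp]
      rw [s2] at q2
      rw [s1] at q1
      refine ⟨M, j, Or.inr (Or.inr (Or.inr (Or.inr (Or.inr
        ⟨hj1, hj2, ?_, rM, ra, rb.mono (by omega)⟩))))⟩
      rcases ht with ht | ht <;> rcases hv with hv | hv
      · have w0 := q0 ht.1
        have w1 := q1 hv.2
        subst w0 w1
        rw [s1] at hH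
        exact Or.inr hH
      · have w0 := q0 ht.1
        have w3 := q3 (by simpa using hv.1)
        subst w0
        exact absurd w3 (by decide)
      · have w2 := q2 ht.2
        have w1 := q1 hv.2
        subst w2
        exact absurd w1 (by decide)
      · have w2 := q2 ht.2
        have w3 := q3 (by simpa using hv.1)
        subst w2 w3
        rw [s2] at hH
        exact Or.inl hH
  -- the choice of the configuration
  have hsel : (x0 ≤ x1 ∧ x2 ≤ x1) ∨ (x1 ≤ x2 ∧ x3 ≤ x2) ∨ (x2 ≤ x3 ∧ x4 ≤ x3) ∨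
      (x1 < x0 ∧ x2 < x1) ∨ (x2 < x1 ∧ x3 < x2) ∨ (x3 < x2 ∧ x4 < x3) ∨
      (x1 < x2 ∧ x0 < x1) ∨ (x2 < x3 ∧ x1 < x2) ∨ (x3 < x4 ∧ x2 < x3) := by omega
  have t0 : y + 0 = y := by ring
  rw [t0] at m0 r0
  rcases hsel with s | s | s | s | s | s | s | s | s
  · exact caseA (y + 1) x1 x0 x2 (by omega) (by omega) m1
      (by rwa [show y + 1 - 1 = y by ring]) r1 (by rwa [show y + 1 + 1 = y + 2 by ring]) s.1 s.2
  · exact caseA (y + 2) x2 x1 x3 (by omega) (by omega) m2
      (by rwa [show y + 2 - 1 = y + 1 by ring]) r2 (by rwa [show y + 2 + 1 = y + 3 by ring]) s.1 s.2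
  · exact caseA (y + 3) x3 x2 x4 (by omega) (by omega) m3
      (by rwa [show y + 3 - 1 = y + 2 by ring]) r3 (by rwa [show y + 3 + 1 = y + 4 by ring]) s.1 s.2
  · exact caseB y x0 x1 x2 (by omega) (by omega) m0 m1 r0 r1 r2 s.1 s.2
  · exact caseB (y + 1) x1 x2 x3 (by omega) (by omega) m1
      (by rwa [show y + 1 + 1 = y + 2 by ring]) r1 (by rwa [show y + 1 + 1 = y + 2 by ring])
      (by rwa [show y + 1 + 2 = y + 3 by ring]) s.1 s.2
  · exact caseB (y + 2) x2 x3 x4 (by omega) (by omega) m2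
      (by rwa [show y + 2 + 1 = y + 3 by ring]) r2 (by rwa [show y + 2 + 1 = y + 3 by ring])
      (by rwa [show y + 2 + 2 = y + 4 by ring]) s.1 s.2
  · exact caseC (y + 2) x2 x1 x0 (by omega) (by omega) m2
      (by rwa [show y + 2 - 1 = y + 1 by ring]) r2 (by rwa [show y + 2 - 1 = y + 1 by ring])
      (by rwa [show y + 2 - 2 = y by ring]) s.1 s.2
  · exact caseC (y + 3) x3 x2 x1 (by omega) (by omega) m3
      (by rwa [show y + 3 - 1 = y + 2 by ring]) r3 (by rwa [show y + 3 - 1 = y + 2 by ring])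
      (by rwa [show y + 3 - 2 = y + 1 by ring]) s.1 s.2
  · exact caseC (y + 4) x4 x3 x2 (by omega) (by omega) m4
      (by rwa [show y + 4 - 1 = y + 3 by ring]) r4 (by rwa [show y + 4 - 1 = y + 3 by ring])
      (by rwa [show y + 4 - 2 = y + 2 by ring]) s.1 s.2

end Pool.Agent.Helper99.PT
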