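import Pool.Agent.Helper99.PT.Surg

/-!
# The window lemma, combinatorial part: every configuration allows a good surgery
-/

set_option autoImplicit false

namespace Pool.Agent.Helper99.PT

open Pool.Agent.Helper2.QP

/-- site `v` (relative to the start of the surgery) is free by one of the row bounds of `R` -/
def Fre (R : List (ℤ × ℤ)) (v : V) : Prop := ∃ x ∈ R, v.2 = x.1 ∧ x.2 < v.1

instance (R : List (ℤ × ℤ)) (v : V) : Decidable (Fre R v) := by
  unfold Fre
  infer_instance

/-- the finite check for one surgery -/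
def Ck (o w : List (Fin 4)) (k1 k2 k3 : ℕ) (r : Fin 4) (R : List (ℤ × ℤ)) : Prop :=
  o ≠ [] ∧ w ≠ [] ∧ dsp o = dsp w ∧ w.length ≤ 10 ∧ k1 + 1 < w.length ∧ k2 + 2 < w.length ∧
    k3 < w.length ∧ (verts 0 w).tail.Nodup ∧ (∀ v ∈ (verts 0 w).tail, Fre R v) ∧
    (Fre R (vtx w k1 + stp (w.getD (k1 + 1) 0)) ∧ vtx w k1 + stp (w.getD (k1 + 1) 0) ∉ verts 0 w) ∧
    w.getD (k2 + 2) 0 = opp (w.getD k2 0) ∧
    (Fre R (vtx w k3 + stp r) ∧ vtx w k3 + stp r ∉ verts 0 w) ∧
    (Fre R (vtx w k3 + stp (w.getD k3 0) + stp r) ∧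
      vtx w k3 + stp (w.getD k3 0) + stp r ∉ verts 0 w) ∧
    ∀ v ∈ verts 0 o, v.2 = 0 ∨ v.2 = (dsp w).2

instance (o w : List (Fin 4)) (k1 k2 k3 : ℕ) (r : Fin 4) (R : List (ℤ × ℤ)) :
    Decidable (Ck o w k1 k2 k3 r R) := by
  unfold Ck
  infer_instance

theorem vtx_mid (X w Y : List (Fin 4)) (k : ℕ) (hk : k ≤ w.length) :
    vtx (X ++ w ++ Y) (X.length + k) = dsp X + vtx w k := by
  unfold vtx
  rw [List.append_assoc, List.take_length_add_append, dsp_append, List.take_append_of_le_length hk]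

theorem mem_verts_shift (p v : V) (l : List (Fin 4)) : p + v ∈ verts p l ↔ v ∈ verts 0 l := by
  have h := verts_add 0 p l
  rw [zero_add] at h
  rw [h, List.mem_map]
  constructor
  · rintro ⟨u, hu, huv⟩
    rw [add_comm p v, add_left_inj] at huv
    exact huv ▸ hu
  · exact fun hv => ⟨v, hv, add_comm _ _⟩

theorem good_core (X o w Y : List (Fin 4)) (h : IsSAP (X ++ o ++ Y)) (k1 k2 k3 : ℕ) (r : Fin 4)
    (R : List (ℤ × ℤ)) (hck : Ck o w k1 k2 k3 r R)
    (hR : ∀ x ∈ R, Rt (X ++ o ++ Y) ((dsp X).2 + x.1) ((dsp X).1 + x.2)) : Good X o w Y := by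
  obtain ⟨ho, hw, hd, h10, hk1, hk2, hk3, hn, hf, ⟨hf1, hf1'⟩, hb, ⟨he1, he1'⟩, ⟨he2, he2'⟩, hrow⟩ := hck
  have hfre : ∀ v, Fre R v → dsp X + v ∉ verts 0 (X ++ o ++ Y) := by
    rintro v ⟨x, hx, h1, h2⟩ hm
    have := hR x hx _ hm (by rw [Prod.snd_add, h1])
    rw [Prod.fst_add] at this
    omega
  have hfre2 : ∀ v, Fre R v → v ∉ verts 0 w → dsp X + v ∉ verts 0 (X ++ w ++ Y) := by
    intro v hv hv' hm
    have h1 := hfre v hv
    rw [sg_mem, not_or, not_or] at h1
    rw [sg_mem, ← hd] at hm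
    rcases hm with hm | hm | hm
    · exact h1.1 hm
    · exact hv' ((mem_verts_shift _ _ _).1 hm)
    · exact h1.2.2 hm
  have htail : (verts (dsp X) w).tail = (verts 0 w).tail.map (fun v => v + dsp X) := by
    have h1 := verts_add 0 (dsp X) w
    rw [zero_add] at h1
    rw [h1, List.map_tail]
  have hX : dsp X ∈ verts 0 (X ++ o ++ Y) := by
    rw [sg_mem]
    right; left
    obtain ⟨b, o', rfl⟩ := List.exists_cons_of_ne_nil ho
    simp [verts]
  refine ⟨?_, ⟨k1, by omega, ?_⟩, ⟨k2, by omega, ?_⟩, ⟨k3, by omega, r, ?_⟩, ?_⟩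
  · refine isSAP_replace X o w Y h ho hw hd ?_ ?_
    · rw [htail]
      exact hn.map (fun a b hab => add_left_injective _ hab)
    · intro v hv
      rw [htail, List.mem_map] at hv
      obtain ⟨u, hu, rfl⟩ := hv
      have h1 := hfre u (hf u hu)
      rw [add_comm] at h1
      refine ⟨fun hc => h1 ((sg_mem _ _ _ _).2 (Or.inl hc)),
        fun hc => h1 ((sg_mem _ _ _ _).2 (Or.inr (Or.inr hc))), fun hc => h1 (by rw [hc]; exact hX)⟩
  · unfold Fl
    rw [Finset.mem_filter, Finset.mem_range, vtx_mid X w Y k1 (by omega),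
      show X.length + k1 + 1 = X.length + (k1 + 1) by omega, sg_getD X w Y (k1 + 1) hk1, add_assoc]
    refine ⟨?_, hfre2 _ hf1 hf1'⟩
    simp only [List.length_append]
    omega
  · unfold Bm
    rw [Finset.mem_filter, Finset.mem_range,
      show X.length + k2 + 2 = X.length + (k2 + 2) by omega, sg_getD X w Y (k2 + 2) hk2,
      sg_getD X w Y k2 (by omega)]
    refine ⟨?_, hb⟩
    simp only [List.length_append]
    omega
  · unfold Eb
    rw [Finset.mem_filter, Finset.mem_product, Finset.mem_range]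
    simp only
    rw [vtx_mid X w Y k3 (by omega), sg_getD X w Y k3 hk3]
    refine ⟨⟨?_, Finset.mem_univ _⟩, ?_, ?_⟩
    · simp only [List.length_append]
      omega
    · rw [add_assoc]
      exact hfre2 _ he1 he1'
    · rw [add_assoc, add_assoc]
      rw [add_assoc] at he2 he2'
      exact hfre2 _ he2 he2'
  · have hstart : dsp X ∈ verts 0 (X ++ w ++ Y) := by
      rw [sg_mem]
      right; left
      obtain ⟨b, w', rfl⟩ := List.exists_cons_of_ne_nil hw
      simp [verts]
    have hend : dsp X + dsp w ∈ verts 0 (X ++ w ++ Y) := by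
      rcases Y with _ | ⟨c, Y'⟩
      · have h1 := h.1
        rw [List.append_nil, dsp_append, hd] at h1
        rw [h1]
        obtain ⟨b, w', rfl⟩ := List.exists_cons_of_ne_nil hw
        rcases X with _ | ⟨a, X'⟩
        · simp [verts]
        · simp [verts]
      · rw [sg_mem]
        right; right
        simp [verts]
    intro v hv
    rw [sg_mem] at hv
    rcases hv with hv | hv | hv
    · exact ⟨v, (sg_mem _ _ _ _).2 (Or.inl hv), rfl⟩
    · have h1 : dsp X + (v - dsp X) ∈ verts (dsp X) o := by rwa [add_sub_cancel]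
      rw [mem_verts_shift] at h1
      rcases hrow _ h1 with h2 | h2
      · refine ⟨_, hstart, ?_⟩
        rw [Prod.snd_sub] at h2
        omega
      · refine ⟨_, hend, ?_⟩
        rw [Prod.snd_sub] at h2
        rw [Prod.snd_add]
        omega
    · refine ⟨v, (sg_mem _ _ _ _).2 (Or.inr (Or.inr ?_)), rfl⟩
      rwa [← hd]

theorem good_has (l : List (Fin 4)) (h : IsSAP l) (y : ℤ) (o w : List (Fin 4)) (p : V)
    (hH : Has l o p) (k1 k2 k3 : ℕ) (r : Fin 4) (R : List (ℤ × ℤ)) (hck : Ck o w k1 k2 k3 r R)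
    (hR : ∀ x ∈ R, Rt l (p.2 + x.1) (p.1 + x.2)) (hy1 : y ≤ p.2) (hy2 : p.2 ≤ y + 4)
    (hp : (o, w) ∈ pats) :
    ∃ X o w Y, (o, w) ∈ pats ∧ l = X ++ o ++ Y ∧ y ≤ (dsp X).2 ∧ (dsp X).2 ≤ y + 4 ∧ Good X o w Y := by
  obtain ⟨X, Y, rfl, rfl⟩ := hH
  exact ⟨X, o, w, Y, hp, rfl, hy1, hy2, good_core X o w Y h k1 k2 k3 r R hck hR⟩

theorem good_of_cfg (l : List (Fin 4)) (h : IsSAP l) (y M j : ℤ) (hc : Cfg6 l y M j) :
    ∃ X o w Y, (o, w) ∈ pats ∧ l = X ++ o ++ Y ∧ y ≤ (dsp X).2 ∧ (dsp X).2 ≤ y + 4 ∧ Good X o w Y := by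
  rcases hc with ⟨hj1, hj2, hH, r1, r2, r3⟩ | ⟨hj1, hj2, hH, r1, r2, r3⟩ | ⟨hj1, hj2, hH, r1, r2, r3⟩ |
    ⟨hj1, hj2, hH, r1, r2, r3⟩ | ⟨hj1, hj2, hH, r1, r2, r3⟩ | ⟨hj1, hj2, hH, r1, r2, r3⟩ <;>
  rcases hH with hH | hH
  · refine good_has l h y [1] [0,0,3,0,1,1,2,2,2] _ hH 1 2 4 0 [(-1, 0), (0, 0), (1, 0)] (by decide)
      ?_ (by simp only; omega) (by simp only; omega) (by decide)
    simp only [List.mem_cons, List.not_mem_nil, or_false, forall_eq_or_imp, forall_eq]
    refine ⟨?_, ?_, ?_⟩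
    · convert r1 using 1 <;> ring
    · convert r2 using 1 <;> ring
    · convert r3 using 1 <;> ring
  · refine good_has l h y [3] [0,0,0,3,3,2,1,2,2] _ hH 6 4 3 0 [(-2, 0), (-1, 0), (0, 0)] (by decide)
      ?_ (by simp only; omega) (by simp only; omega) (by decide)
    simp only [List.mem_cons, List.not_mem_nil, or_false, forall_eq_or_imp, forall_eq]
    refine ⟨?_, ?_, ?_⟩
    · convert r1 using 1 <;> ring
    · convert r2 using 1 <;> ring
    · convert r3 using 1 <;> ring
  · refine good_has l h y [1] [0,0,0,1,1,2,3,2,2] _ hH 6 4 3 0 [(0, 0), (1, 0), (2, 0)] (by decide)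
      ?_ (by simp only; omega) (by simp only; omega) (by decide)
    simp only [List.mem_cons, List.not_mem_nil, or_false, forall_eq_or_imp, forall_eq]
    refine ⟨?_, ?_, ?_⟩
    · convert r1 using 1 <;> ring
    · convert r2 using 1 <;> ring
    · convert r3 using 1 <;> ring
  · refine good_has l h y [3] [0,0,1,0,3,3,2,2,2] _ hH 1 2 4 0 [(-1, 0), (0, 0), (1, 0)] (by decide)
      ?_ (by simp only; omega) (by simp only; omega) (by decide)
    simp only [List.mem_cons, List.not_mem_nil, or_false, forall_eq_or_imp, forall_eq]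
    refine ⟨?_, ?_, ?_⟩
    · convert r1 using 1 <;> ring
    · convert r2 using 1 <;> ring
    · convert r3 using 1 <;> ring
  · refine good_has l h y [2] [1,0,0,1,2,2,2,3,3] _ hH 0 2 2 3 [(0, 0), (1, -2), (2, -2)] (by decide)
      ?_ (by simp only; omega) (by simp only; omega) (by decide)
    simp only [List.mem_cons, List.not_mem_nil, or_false, forall_eq_or_imp, forall_eq]
    refine ⟨?_, ?_, ?_⟩
    · convert r1 using 1 <;> ring
    · convert r2 using 1 <;> ring
    · convert r3 using 1 <;> ring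
  · refine good_has l h y [0] [1,1,0,0,0,3,2,2,3] _ hH 7 4 5 0 [(0, 1), (1, -1), (2, -1)] (by decide)
      ?_ (by simp only; omega) (by simp only; omega) (by decide)
    simp only [List.mem_cons, List.not_mem_nil, or_false, forall_eq_or_imp, forall_eq]
    refine ⟨?_, ?_, ?_⟩
    · convert r1 using 1 <;> ring
    · convert r2 using 1 <;> ring
    · convert r3 using 1 <;> ring
  · refine good_has l h y [2] [3,0,0,3,2,2,2,1,1] _ hH 0 2 2 1 [(0, 0), (-1, -2), (-2, -2)] (by decide)
      ?_ (by simp only; omega) (by simp only; omega) (by decide)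
    simp only [List.mem_cons, List.not_mem_nil, or_false, forall_eq_or_imp, forall_eq]
    refine ⟨?_, ?_, ?_⟩
    · convert r1 using 1 <;> ring
    · convert r2 using 1 <;> ring
    · convert r3 using 1 <;> ring
  · refine good_has l h y [0] [3,3,0,0,0,1,2,2,1] _ hH 7 4 5 0 [(0, 1), (-1, -1), (-2, -1)] (by decide)
      ?_ (by simp only; omega) (by simp only; omega) (by decide)
    simp only [List.mem_cons, List.not_mem_nil, or_false, forall_eq_or_imp, forall_eq]
    refine ⟨?_, ?_, ?_⟩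
    · convert r1 using 1 <;> ring
    · convert r2 using 1 <;> ring
    · convert r3 using 1 <;> ring
  · refine good_has l h y [2,1] [1,0,0,0,1,2,2,2,2,3] _ hH 0 3 2 3 [(0, 0), (1, -1), (2, -2)]
      (by decide) ?_ (by simp only; omega) (by simp only; omega) (by decide)
    simp only [List.mem_cons, List.not_mem_nil, or_false, forall_eq_or_imp, forall_eq]
    refine ⟨?_, ?_, ?_⟩
    · convert r1 using 1 <;> ring
    · convert r2 using 1 <;> ring
    · convert r3 using 1 <;> ring
  · refine good_has l h y [3,0] [1,0,0,0,0,3,2,2,2,3] _ hH 8 4 5 0 [(-1, 1), (0, 0), (1, -1)]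
      (by decide) ?_ (by simp only; omega) (by simp only; omega) (by decide)
    simp only [List.mem_cons, List.not_mem_nil, or_false, forall_eq_or_imp, forall_eq]
    refine ⟨?_, ?_, ?_⟩
    · convert r1 using 1 <;> ring
    · convert r2 using 1 <;> ring
    · convert r3 using 1 <;> ring
  · refine good_has l h y [2,3] [3,0,0,0,3,2,2,2,2,1] _ hH 0 3 2 1 [(0, 0), (-1, -1), (-2, -2)]
      (by decide) ?_ (by simp only; omega) (by simp only; omega) (by decide)
    simp only [List.mem_cons, List.not_mem_nil, or_false, forall_eq_or_imp, forall_eq]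
    refine ⟨?_, ?_, ?_⟩
    · convert r1 using 1 <;> ring
    · convert r2 using 1 <;> ring
    · convert r3 using 1 <;> ring
  · refine good_has l h y [1,0] [3,0,0,0,0,1,2,2,2,1] _ hH 8 4 5 0 [(1, 1), (0, 0), (-1, -1)]
      (by decide) ?_ (by simp only; omega) (by simp only; omega) (by decide)
    simp only [List.mem_cons, List.not_mem_nil, or_false, forall_eq_or_imp, forall_eq]
    refine ⟨?_, ?_, ?_⟩
    · convert r1 using 1 <;> ring
    · convert r2 using 1 <;> ring
    · convert r3 using 1 <;> ring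

end Pool.Agent.Helper99.PT
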