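import Pool.Agent.Helper99.PT.Win1
import Pool.Agent.Helper99.PT.Win2
import Pool.Agent.Helper99.PT.PatFacts

/-!
# The window lemma
-/

set_option autoImplicit false

namespace Pool.Agent.Helper99.PT

open Pool.Agent.Helper2.QP

theorem window (l : List (Fin 4)) (h : IsSAP l) (y : ℤ)
    (hy : ∀ k : ℤ, 0 ≤ k → k ≤ 4 → ∃ x : ℤ, (x, y + k) ∈ verts 0 l) (h0 : 0 < y ∨ y + 4 < 0) :
    ∃ X o w Y, (o, w) ∈ pats ∧ l = X ++ o ++ Y ∧ y ≤ (dsp X).2 ∧ (dsp X).2 ≤ y + 4 ∧ Good X o w Y := by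
  obtain ⟨M, j, hc⟩ := window_geo l h y hy h0
  exact good_of_cfg l h y M j hc

end Pool.Agent.Helper99.PT
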